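import Mathlib

/-!
# Galois extensions of degree `2` modulo `4`
-/

set_option autoImplicit false
set_option maxHeartbeats 400000

namespace Pool.Agent.X307.NR

open Module

/-- the Sylow subgroup -/
lemma sylow_two {G : Type} [Group G] [Finite G] (h : Nat.card G % 4 = 2) (P : Sylow 2 G) :
    Nat.card P = 2 := by
  have h1 : ¬ 2 ∣ (P : Subgroup G).index := P.not_dvd_index
  have h2 := (P : Subgroup G).card_mul_index
  obtain ⟨k, hk⟩ := IsPGroup.iff_card.1 P.2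
  have h3 : Nat.card P = 2 ^ k := hk
  rcases k with _ | _ | k
  · rw [h3, pow_zero, one_mul] at h2
    omega
  · rw [h3]
    norm_num
  · have h4 : 4 ∣ Nat.card G := by
      rw [← h2, h3]
      exact ⟨2 ^ k * (P : Subgroup G).index, by ring⟩
    omega

/-- a Galois extension of degree `2` modulo `4` has an involution which moves a square root of a
rational number -/
lemma exists_root_moved {M : Type} [Field M] [NumberField M] [IsGalois ℚ M]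
    (h2 : finrank ℚ M % 4 = 2) : ∃ (c : M ≃ₐ[ℚ] M) (r : M) (d : ℚ), c * c = 1 ∧ r ≠ 0 ∧
      r ^ 2 = (d : M) ∧ c r ≠ r := by
  have hcard : Nat.card (M ≃ₐ[ℚ] M) = finrank ℚ M := IsGalois.card_aut_eq_finrank ℚ M
  obtain ⟨P⟩ : Nonempty (Sylow 2 (M ≃ₐ[ℚ] M)) := inferInstance
  have hP := sylow_two (by rw [hcard]; exact h2) P
  have hmin : (Nat.card (M ≃ₐ[ℚ] M)).minFac = 2 := by
    rw [Nat.minFac_eq_two_iff, hcard]
    omega
  have hcyc : IsCyclic P := by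
    have : Fact (Nat.Prime 2) := ⟨Nat.prime_two⟩
    exact isCyclic_of_prime_card hP
  have hcomp := IsCyclic.isComplement' hmin hcyc
  set N := (MonoidHom.transferSylow P (hcyc.normalizer_le_centralizer hmin)).ker with hN
  have hnorm : N.Normal := inferInstance
  obtain ⟨c, hc1, huniq⟩ := (Nat.card_eq_two_iff' (1 : P)).1 hP
  have hcc : c * c = 1 := by
    by_contra h
    have h3 := huniq (c * c) h
    exact hc1 (mul_eq_left.1 h3)
  have hcN : (c : M ≃ₐ[ℚ] M) ∉ N := by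
    intro h
    have h3 := hcomp.disjoint.le_bot ⟨h, c.2⟩
    exact hc1 (Subtype.ext (Subgroup.mem_bot.1 h3))
  obtain ⟨x, hxN, hx⟩ : ∃ x : M, (∀ g ∈ N, g x = x) ∧ (c : M ≃ₐ[ℚ] M) x ≠ x := by
    by_contra hcon
    push Not at hcon
    apply hcN
    rw [← IntermediateField.fixingSubgroup_fixedField N]
    intro y
    exact hcon (y : M) fun g hg => y.2 ⟨g, hg⟩
  have hcx : ∀ y : M, (c : M ≃ₐ[ℚ] M) ((c : M ≃ₐ[ℚ] M) y) = y := by
    intro y
    have h3 : ((c : M ≃ₐ[ℚ] M) * (c : M ≃ₐ[ℚ] M)) y = y := by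
      have h4 : (c : M ≃ₐ[ℚ] M) * (c : M ≃ₐ[ℚ] M) = 1 := congrArg Subtype.val hcc
      rw [h4]
      rfl
    exact h3
  have hcr : (c : M ≃ₐ[ℚ] M) (x - (c : M ≃ₐ[ℚ] M) x) = -(x - (c : M ≃ₐ[ℚ] M) x) := by
    rw [map_sub, hcx, neg_sub]
  have hNr : ∀ g ∈ N, g (x - (c : M ≃ₐ[ℚ] M) x) = x - (c : M ≃ₐ[ℚ] M) x := by
    intro g hg
    have h3 := hxN _ (hnorm.conj_mem g hg (c : M ≃ₐ[ℚ] M)⁻¹)
    have h4 : g ((c : M ≃ₐ[ℚ] M) x) = (c : M ≃ₐ[ℚ] M) x := by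
      have h5 : (c : M ≃ₐ[ℚ] M)⁻¹ (g ((c : M ≃ₐ[ℚ] M) x)) = x := by
        rw [inv_inv] at h3
        exact h3
      have h6 := congrArg (c : M ≃ₐ[ℚ] M) h5
      have h7 : ((c : M ≃ₐ[ℚ] M) * (c : M ≃ₐ[ℚ] M)⁻¹) (g ((c : M ≃ₐ[ℚ] M) x)) =
          g ((c : M ≃ₐ[ℚ] M) x) := by
        rw [mul_inv_cancel]
        rfl
      exact h7.symm.trans h6
    rw [map_sub, hxN g hg, h4]
  have hr0 : x - (c : M ≃ₐ[ℚ] M) x ≠ 0 := fun h => hx (sub_eq_zero.1 h).symm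
  have hall : ∀ g : M ≃ₐ[ℚ] M, g ((x - (c : M ≃ₐ[ℚ] M) x) ^ 2) = (x - (c : M ≃ₐ[ℚ] M) x) ^ 2 := by
    intro g
    have h3 : N ⊔ (P : Subgroup (M ≃ₐ[ℚ] M)) ≤
        MulAction.stabilizer (M ≃ₐ[ℚ] M) ((x - (c : M ≃ₐ[ℚ] M) x) ^ 2) := by
      refine sup_le (fun a ha => ?_) (fun a ha => ?_)
      · rw [MulAction.mem_stabilizer_iff]
        change a ((x - (c : M ≃ₐ[ℚ] M) x) ^ 2) = _
        rw [map_pow, hNr a ha]
      · rw [MulAction.mem_stabilizer_iff]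
        change a ((x - (c : M ≃ₐ[ℚ] M) x) ^ 2) = _
        by_cases h4 : (⟨a, ha⟩ : P) = 1
        · have h5 : a = 1 := congrArg Subtype.val h4
          rw [h5]
          rfl
        · have h5 : a = (c : M ≃ₐ[ℚ] M) := congrArg Subtype.val (huniq ⟨a, ha⟩ h4)
          rw [h5, map_pow, hcr, neg_sq]
    rw [hcomp.sup_eq_top] at h3
    exact h3 (Subgroup.mem_top g)
  have hbot := (IsGalois.mem_bot_iff_fixed (F := ℚ) ((x - (c : M ≃ₐ[ℚ] M) x) ^ 2)).2 hall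
  obtain ⟨d, hd⟩ := IntermediateField.mem_bot.1 hbot
  refine ⟨c, x - (c : M ≃ₐ[ℚ] M) x, d, congrArg Subtype.val hcc, hr0, ?_, ?_⟩
  · rw [← hd, eq_ratCast]
  · rw [hcr]
    intro h
    have h3 : (2 : M) * (x - (c : M ≃ₐ[ℚ] M) x) = 0 := by linear_combination -h
    rcases mul_eq_zero.1 h3 with h4 | h4
    · exact two_ne_zero h4
    · exact hr0 h4

end Pool.Agent.X307.NR
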