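import Pool.Agent.X307.SelT
import Pool.Agent.TH954.X2.WDiv
import Pool.Agent.TH942.FG

/-!
# The Abel–Jacobi map and the Tate–Shafarevich group, for all elliptic curves
-/

set_option autoImplicit false
set_option maxHeartbeats 400000

namespace Pool.Agent.X307.NR

open WeierstrassCurve Pool.Agent.TH841.SH.D Pool.Agent.X307

variable {F : Type} [Field F] [NumberField F]

omit [NumberField F] in
/-- points over the algebraic closure are divisible -/
lemma div_pt [CharZero F] {A B : F} (h : 4 * A ^ 3 + 27 * B ^ 2 ≠ 0) {m : ℕ} (hm : 0 < m)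
    (a : Pb (⟨0, 0, 0, A, B⟩ : WeierstrassCurve F)) : ∃ b, m • b = a := by
  have key : ∀ W' : WeierstrassCurve (AlgebraicClosure F),
      W' = Pool.Agent.TH954.X.We.curve (algebraMap F (AlgebraicClosure F) A)
        (algebraMap F (AlgebraicClosure F) B) → ∀ P : W'.toAffine.Point,
      ∃ Q : W'.toAffine.Point,
        (letI := @Affine.Point.instAddCommGroup _ _ W'.toAffine (Classical.decEq _)
         m • Q) = P := by
    rintro W' rfl P
    have hc : CharZero (AlgebraicClosure F) :=
      charZero_of_injective_algebraMap (algebraMap F (AlgebraicClosure F)).injective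
    have h' : 4 * (algebraMap F (AlgebraicClosure F) A) ^ 3 +
        27 * (algebraMap F (AlgebraicClosure F) B) ^ 2 ≠ 0 := by
      intro h0
      apply h
      apply (algebraMap F (AlgebraicClosure F)).injective
      rw [map_zero, ← h0]
      simp only [map_add, map_mul, map_pow, map_ofNat]
    exact @Pool.Agent.TH954.X.We.div (AlgebraicClosure F) _ (Classical.decEq _) hc _ _ _ h' P m hm
  refine key ((⟨0, 0, 0, A, B⟩ : WeierstrassCurve F).baseChange (AlgebraicClosure F)) ?_ a
  apply WeierstrassCurve.ext <;> simp [WeierstrassCurve.baseChange, Pool.Agent.TH954.X.We.curve]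

/-- the points over the field are finitely generated -/
lemma fin_pt {A B : F} (h : 4 * A ^ 3 + 27 * B ^ 2 ≠ 0) :
    Module.Finite ℤ (Pt (⟨0, 0, 0, A, B⟩ : WeierstrassCurve F) F) := by
  obtain ⟨e⟩ := pt_equiv (⟨0, 0, 0, A, B⟩ : WeierstrassCurve F)
  have h1 : @AddGroup.FG (Pool.Agent.TH942.SPt A B)
      (@Affine.Point.instAddCommGroup F _ _ (Classical.decEq F)).toAddGroup :=
    @Pool.Agent.TH942.sfg F _ _ (Classical.decEq F) A B h
  have h2 : AddGroup.FG (Pool.Agent.Y682.MP (⟨0, 0, 0, A, B⟩ : WeierstrassCurve F)) := h1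
  have h3 : Module.Finite ℤ (Pool.Agent.Y682.MP (⟨0, 0, 0, A, B⟩ : WeierstrassCurve F)) :=
    Module.Finite.iff_addGroup_fg.2 h2
  exact Module.Finite.equiv e.symm.toIntLinearEquiv

/-- The Abel–Jacobi map is an isomorphism if and only if `V_p Ш = 0`. -/
theorem ajIso_iff' (p : ℕ) [Fact p.Prime] {A B : F} (h : 4 * A ^ 3 + 27 * B ^ 2 ≠ 0) :
    AJIso p (⟨0, 0, 0, A, B⟩ : WeierstrassCurve F) ↔
      ∀ s : V p (Pool.Agent.TH841.NF.D.Sha (⟨0, 0, 0, A, B⟩ : WeierstrassCurve F)), s = 0 :=
  ajIso_iff (div_pt h (Fact.out : p.Prime).pos) (fin_pt h)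

end Pool.Agent.X307.NR
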