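import Mathlib

/-!
# Embeddings which agree on the fixed field of a finite group
-/

set_option autoImplicit false
set_option maxHeartbeats 400000

namespace Pool.Agent.X307.NR

lemma exists_aut0 {M F C : Type} [Field M] [Field F] [Field C] [Algebra M F] [Normal M F]
    (ε φ : F →+* C) (h : ∀ x : M, φ (algebraMap M F x) = ε (algebraMap M F x)) :
    ∃ τ : F ≃ₐ[M] F, ∀ x, φ x = ε (τ x) := by
  let i1 : Algebra M C := (ε.comp (algebraMap M F)).toAlgebra
  let i2 : Algebra F C := ε.toAlgebra
  have i3 : IsScalarTower M F C := IsScalarTower.of_algebraMap_eq fun x => rfl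
  let σ : F →ₐ[M] C := { φ with commutes' := fun x => h x }
  refine ⟨Normal.algHomEquivAut M C F σ, fun x => ?_⟩
  have h1 := (Normal.algHomEquivAut M C F).left_inv σ
  exact (DFunLike.congr_fun h1 x).symm

/-- two embeddings which agree on the fixed field differ by an element of the group -/
lemma exists_aut' {k F C : Type} [Field k] [Field F] [Field C] [Algebra k F]
    [FiniteDimensional k F] (D : Subgroup (F ≃ₐ[k] F)) (ε φ : F →+* C)
    (h : ∀ y : F, (∀ d ∈ D, d y = y) → φ y = ε y) : ∃ d ∈ D, ∀ x, φ x = ε (d x) := by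
  obtain ⟨τ, hτ⟩ := exists_aut0 (M := FixedPoints.subfield D F) ε φ
    (fun x => h (x : F) fun d hd => x.2 ⟨d, hd⟩)
  obtain ⟨d, hd⟩ := FixedPoints.toAlgAut_surjective D F τ
  refine ⟨d.1, d.2, fun x => ?_⟩
  rw [hτ, ← hd]
  rfl

lemma mem_fixed_iff {k F : Type} [Field k] [Field F] [Algebra k F]
    (D : Subgroup (F ≃ₐ[k] F)) (y : F) :
    (∀ d ∈ D, d y = y) ↔ ∃ x : IntermediateField.fixedField D,
      algebraMap (IntermediateField.fixedField D) F x = y := by
  constructor
  · intro h
    exact ⟨⟨y, fun d => h d.1 d.2⟩, rfl⟩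
  · rintro ⟨x, rfl⟩ d hd
    exact x.2 ⟨d, hd⟩

end Pool.Agent.X307.NR
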