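import Mathlib

/-!
# Traces, permutation characters and fixed vectors
-/

set_option autoImplicit false
set_option maxHeartbeats 400000

namespace Pool.Agent.X307.NR

open Finset

variable {k : Type} [Field k] [CharZero k] {G : Type} [Group G] [Fintype G]
  {V : Type} [AddCommGroup V] [Module k V] [Module.Finite k V] (τ : G →* Module.End k V)

/-- the character -/
noncomputable def chr (g : G) : k := LinearMap.trace k V (τ g)

omit [CharZero k] [Fintype G] [Module.Finite k V] in
lemma chr_conj (s g : G) : chr τ (s * g * s⁻¹) = chr τ g := by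
  unfold chr
  rw [map_mul, LinearMap.trace_mul_comm, ← map_mul]
  congr 2
  group

open Classical in
omit [CharZero k] [Module.Finite k V] in
/-- the scalar product with a permutation character -/
lemma sum_chr (D : Subgroup G) {c : k} (hc : ∑ g : G with g ∈ D, chr τ g = c) :
    ∑ g : G, chr τ g * ((Nat.card {q : G ⧸ D // g • q = q} : ℕ) : k) =
      ((Nat.card (G ⧸ D) : ℕ) : k) * c := by
  have h1 : ∀ g : G, ((Nat.card {q : G ⧸ D // g • q = q} : ℕ) : k) =
      ∑ q : G ⧸ D, if g • q = q then 1 else 0 := by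
    intro g
    rw [Nat.card_eq_fintype_card, Fintype.card_subtype, Finset.card_filter]
    push_cast
    rfl
  simp only [h1, Finset.mul_sum, mul_ite, mul_one, mul_zero]
  rw [Finset.sum_comm]
  have h2 : ∀ q : G ⧸ D, (∑ g : G, if g • q = q then chr τ g else 0) = c := by
    intro q
    induction q using QuotientGroup.induction_on with
    | H s =>
      rw [← hc, Finset.sum_filter]
      refine Fintype.sum_equiv (MulAut.conj s⁻¹).toEquiv _ _ fun g => ?_
      have h3 : (MulAut.conj s⁻¹).toEquiv g = s⁻¹ * g * s := by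
        change s⁻¹ * g * (s⁻¹)⁻¹ = _
        rw [inv_inv]
      have h4 : g • (s : G ⧸ D) = s ↔ s⁻¹ * g * s ∈ D := by
        change ((g * s : G) : G ⧸ D) = s ↔ _
        rw [eq_comm, QuotientGroup.eq, mul_assoc]
      have h5 : chr τ (s⁻¹ * g * s) = chr τ g := by
        have := chr_conj τ s⁻¹ g
        rwa [inv_inv] at this
      rw [h3, h5]
      by_cases h6 : s⁻¹ * g * s ∈ D
      · rw [if_pos h6, if_pos (h4.2 h6)]
      · rw [if_neg h6, if_neg fun h => h6 (h4.1 h)]
  rw [Finset.sum_congr rfl fun q _ => h2 q, Finset.sum_const, Finset.card_univ, nsmul_eq_mul,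
    Nat.card_eq_fintype_card]

open Classical in
omit [CharZero k] in
/-- the trace of the norm -/
lemma trace_norm {D : Subgroup G} {V' : Type} [AddCommGroup V'] [Module k V'] [Module.Finite k V']
    (r : V' →ₗ[k] V) (c : V →ₗ[k] V') {n : ℕ} (h1 : ∀ x, c (r x) = n • x)
    (h2 : ∀ x, r (c x) = ∑ g : G with g ∈ D, τ g x) :
    ∑ g : G with g ∈ D, chr τ g = (n : k) * (Module.finrank k V' : k) := by
  have e1 : ∑ g : G with g ∈ D, chr τ g = LinearMap.trace k V (r ∘ₗ c) := by
    have : r ∘ₗ c = ∑ g : G with g ∈ D, τ g := by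
      refine LinearMap.ext fun x => ?_
      rw [LinearMap.comp_apply, h2, LinearMap.sum_apply]
    rw [this, map_sum]
    rfl
  have e2 : c ∘ₗ r = (n : k) • LinearMap.id := by
    refine LinearMap.ext fun x => ?_
    rw [LinearMap.comp_apply, h1, LinearMap.smul_apply, LinearMap.id_apply,
      Nat.cast_smul_eq_nsmul]
  rw [e1, LinearMap.trace_comp_comm', e2, map_smul, LinearMap.trace_id, smul_eq_mul]

/-- a relation between permutation characters gives a relation between dimensions -/
theorem brauer {J : Type} [Fintype J] (D : J → Subgroup G) (m : J → ℤ)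
    (hm : ∀ g : G, ∑ j, m j * (Nat.card {q : G ⧸ D j // g • q = q} : ℤ) = 0) (d : J → ℕ)
    (hd : ∀ j, ∃ (V' : Type) (_ : AddCommGroup V') (_ : Module k V') (_ : Module.Finite k V')
      (r : V' →ₗ[k] V) (c : V →ₗ[k] V'), (∀ x, c (r x) = Nat.card (D j) • x) ∧
      (∀ x, r (c x) = (open Classical in ∑ g : G with g ∈ D j, τ g x)) ∧
      Module.finrank k V' = d j) : ∑ j, m j * (d j : ℤ) = 0 := by
  classical
  have h1 : ∀ j, ∑ g : G, chr τ g * ((Nat.card {q : G ⧸ D j // g • q = q} : ℕ) : k) =
      ((Nat.card G : ℕ) : k) * (d j : k) := by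
    intro j
    obtain ⟨V', i1, i2, i3, r, c, e1, e2, e3⟩ := hd j
    have e4 := trace_norm τ (D := D j) r c e1 (fun x => by
      rw [e2 x])
    rw [sum_chr τ (D j) e4, e3, ← mul_assoc]
    congr 1
    have := Subgroup.card_eq_card_quotient_mul_card_subgroup (D j)
    rw [this]
    push_cast
    rfl
  have h2 : ((Nat.card G : ℕ) : k) * ∑ j, (m j : k) * (d j : k) = 0 := by
    rw [Finset.mul_sum]
    have h3 : ∀ j, ((Nat.card G : ℕ) : k) * ((m j : k) * (d j : k)) =
        ∑ g : G, chr τ g * ((m j : k) * ((Nat.card {q : G ⧸ D j // g • q = q} : ℕ) : k)) := by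
      intro j
      rw [mul_left_comm, ← h1 j, Finset.mul_sum]
      refine Finset.sum_congr rfl fun g _ => ?_
      ring
    rw [Finset.sum_congr rfl fun j _ => h3 j, Finset.sum_comm]
    refine Finset.sum_eq_zero fun g _ => ?_
    rw [← Finset.mul_sum]
    have h4 : ∑ j, (m j : k) * ((Nat.card {q : G ⧸ D j // g • q = q} : ℕ) : k) = 0 := by
      have h5 := congrArg (Int.cast : ℤ → k) (hm g)
      push_cast at h5
      exact h5
    rw [h4, mul_zero]
  have h6 : ((Nat.card G : ℕ) : k) ≠ 0 := by
    exact_mod_cast Nat.card_pos.ne'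
  have h7 := (mul_eq_zero.1 h2).resolve_left h6
  have h8 : ((∑ j, m j * (d j : ℤ) : ℤ) : k) = 0 := by
    push_cast
    exact h7
  exact_mod_cast h8

end Pool.Agent.X307.NR
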