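import Pool.Agent.X307.NR.Fin
import Pool.Agent.X307.NR.Tr

/-!
# Brauer relations for the rational Tate modules of the Tate–Shafarevich groups
-/

set_option autoImplicit false
set_option linter.unusedSectionVars false
set_option maxHeartbeats 400000
set_option backward.isDefEq.respectTransparency.types true

namespace Pool.Agent.X307.NR

open WeierstrassCurve NumberField Module

open Pool.Agent.TH841.NF Pool.Agent.X307

open Pool.Agent.Y682 (HF mem_HF em exists_ext)

section gen

variable {p : ℕ} [hp : Fact p.Prime] {A B : Type} [AddCommGroup A] [AddCommGroup B]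

/-- the isomorphism of the rational Tate modules -/
noncomputable def vEquiv (f : A ≃+ B) : V p A ≃ₗ[ℚ_[p]] V p B :=
  LinearEquiv.ofLinear (V.map (f : A →+ B)) (V.map (f.symm : B →+ A))
    (LinearMap.ext fun x => v_ext fun n => f.apply_symm_apply (co B n x))
    (LinearMap.ext fun x => v_ext fun n => f.symm_apply_apply (co A n x))

/-- the representation over the `p`-adic numbers -/
noncomputable def repP (p : ℕ) [Fact p.Prime] {G : Type} [Group G] (φ : G →* AddMonoid.End A) :
    G →* Module.End ℚ_[p] (V p A) where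
  toFun g := V.map (p := p) (φ g)
  map_one' := by
    refine LinearMap.ext fun x => v_ext fun n => ?_
    change φ 1 (x.1 n) = x.1 n
    rw [map_one]
    rfl
  map_mul' g h := by
    refine LinearMap.ext fun x => v_ext fun n => ?_
    change φ (g * h) (x.1 n) = φ g (φ h (x.1 n))
    rw [map_mul]
    rfl

lemma map_comp_nsmul (f : A →+ B) (g : B →+ A) {n : ℕ} (h : ∀ a, g (f a) = n • a) (x : V p A) :
    V.map (p := p) g (V.map f x) = n • x := by
  apply v_ext
  intro k
  rw [map_nsmul, co_map, co_map, h]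

lemma finite_of_comp (f : A →+ B) (g : B →+ A) {n : ℕ} (hn : n ≠ 0) (h : ∀ a, g (f a) = n • a)
    [Module.Finite ℚ_[p] (V p B)] : Module.Finite ℚ_[p] (V p A) := by
  refine Module.Finite.of_injective (V.map (p := p) f) ?_
  rw [← LinearMap.ker_eq_bot, LinearMap.ker_eq_bot']
  intro x hx
  apply nsmul_inj hn
  rw [← map_comp_nsmul f g h, hx, map_zero]

end gen

variable {p : ℕ} [hp : Fact p.Prime] {A B : ℚ}

/-- descent of finiteness to subfields -/
theorem fin_sub {F M : Type} [Field F] [NumberField F] [Field M]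
    [NumberField M] (f : M →+* F) (hF : Module.Finite ℚ_[p] (V p (D.Sha (Ec A B F)))) :
    Module.Finite ℚ_[p] (V p (D.Sha (Ec A B M))) := by
  obtain ⟨e⟩ := exists_e F
  obtain ⟨e', he⟩ := exists_e'' e f
  have hle : HF e ≤ HF e' := by
    intro g hg
    rw [mem_HF'] at hg ⊢
    intro x
    rw [he]
    exact hg (f x)
  have : (HF e).FiniteIndex := Subgroup.finiteIndex_of_finite_quotient
  have : Fintype (HF e' ⧸ (HF e).subgroupOf (HF e')) := Fintype.ofFinite _
  have h1 : Module.Finite ℚ_[p] (V p (QH (⟨0, 0, 0, A, B⟩ : WeierstrassCurve ℚ) (HF e))) :=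
    Module.Finite.equiv (vEquiv (shaEquiv (sc_Ec A B F) e))
  have h2 : Module.Finite ℚ_[p] (V p (QH (⟨0, 0, 0, A, B⟩ : WeierstrassCurve ℚ) (HF e'))) :=
    finite_of_comp (res hle) (cores (open_HF e)) Fintype.card_ne_zero
      (cores_res hle (open_HF e))
  exact Module.Finite.equiv (vEquiv (shaEquiv (sc_Ec A B M) e')).symm

lemma finrank_fixed {F : Type} [Field F] [NumberField F] (e : AlgebraicClosure F ≃+* Qb)
    (U : Subgroup (F ≃ₐ[ℚ] F)) :
    finrank ℚ_[p] (V p (QH (⟨0, 0, 0, A, B⟩ : WeierstrassCurve ℚ) (HD e U))) =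
      finrank ℚ_[p] (V p (D.Sha (Ec A B (IntermediateField.fixedField U)))) := by
  obtain ⟨e', he⟩ := exists_e' e (M := IntermediateField.fixedField U)
  rw [HD_eq e U (algebraMap (IntermediateField.fixedField U) F) (mem_fixed_iff U) he]
  exact (vEquiv (shaEquiv (sc_Ec A B (IntermediateField.fixedField U)) e')).symm.finrank_eq

/-- **Brauer relations.** -/
theorem sha_brauer {F : Type} [Field F] [NumberField F] [Fintype (F ≃ₐ[ℚ] F)]
    (hF : Module.Finite ℚ_[p] (V p (D.Sha (Ec A B F)))) {J : Type} [Fintype J]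
    (H : J → Subgroup (F ≃ₐ[ℚ] F)) (m : J → ℤ)
    (hm : ∀ g : F ≃ₐ[ℚ] F, ∑ j, m j *
      (Nat.card {q : (F ≃ₐ[ℚ] F) ⧸ H j // g • q = q} : ℤ) = 0) :
    ∑ j, m j * (finrank ℚ_[p] (V p (D.Sha (Ec A B (IntermediateField.fixedField (H j))))) : ℤ) =
      0 := by
  classical
  obtain ⟨e⟩ := exists_e F
  let E : WeierstrassCurve ℚ := ⟨0, 0, 0, A, B⟩
  have h1 : Module.Finite ℚ_[p] (V p (QH E (HF e))) :=
    Module.Finite.equiv (vEquiv (shaEquiv (sc_Ec A B F) e))
  refine brauer (repP p (phi e E)) H m hm _ fun j => ?_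
  have h3 : ∀ a, cores (open_HF e) (res (le_HD e (H j)) a) =
      Nat.card (H j) • (a : QH E (HD e (H j))) := by
    intro a
    rw [cores_res (le_HD e (H j)) (open_HF e) a]
    congr 1
    rw [← Nat.card_eq_fintype_card]
    exact Nat.card_congr (cosE e (H j))
  have h2 : Module.Finite ℚ_[p] (V p (QH E (HD e (H j)))) :=
    finite_of_comp (res (le_HD e (H j))) (cores (open_HF e)) Nat.card_pos.ne' h3
  refine ⟨V p (QH E (HD e (H j))), inferInstance, inferInstance, h2,
    V.map (res (le_HD e (H j))), V.map (cores (open_HF e)), map_comp_nsmul _ _ h3,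
    fun x => ?_, finrank_fixed e (H j)⟩
  apply v_ext
  intro n
  have : Fintype (H j) := Fintype.ofFinite _
  rw [map_sum, co_map, co_map, res_cores_HD e E (H j)]
  have h5 : ∑ g : F ≃ₐ[ℚ] F with g ∈ H j, phi e E g (co (QH E (HF e)) n x) =
      ∑ d : H j, phi e E (d : F ≃ₐ[ℚ] F) (co (QH E (HF e)) n x) :=
    Finset.sum_subtype _ (fun g => by simp) _
  rw [← h5]
  rfl

end Pool.Agent.X307.NR
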