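import Mathlib

/-!
# The dimension of a representation over the `p`-adic numbers without fixed vectors
-/

set_option autoImplicit false
set_option linter.unusedSectionVars false
set_option maxHeartbeats 400000

namespace Pool.Agent.X307.NR

open Module

variable {p : ℕ} [hp : Fact p.Prime]

section red

variable {Λ : Type} [AddCommGroup Λ] [Module ℤ_[p] Λ] {d : ℕ} (B : Basis (Fin d) ℤ_[p] Λ)

/-- reduction modulo `p` -/
noncomputable def red : Λ →+ (Fin d → ZMod p) where
  toFun x := fun j => PadicInt.toZMod (B.repr x j)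
  map_zero' := by
    funext j
    simp
  map_add' x y := by
    funext j
    simp

lemma red_surj : Function.Surjective (red B) := by
  intro v
  choose z hz using fun j => (ZMod.ringHom_surjective (PadicInt.toZMod (p := p))) (v j)
  refine ⟨∑ j, z j • B j, ?_⟩
  funext j
  change PadicInt.toZMod (B.repr (∑ j, z j • B j) j) = v j
  rw [Basis.repr_sum_self, hz]

lemma red_zero_iff (x : Λ) : red B x = 0 ↔ ∃ y : Λ, (p : ℤ_[p]) • y = x := by
  constructor
  · intro h
    have h1 : ∀ j, ∃ c : ℤ_[p], B.repr x j = (p : ℤ_[p]) * c := by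
      intro j
      have h2 : PadicInt.toZMod (B.repr x j) = 0 := congrFun h j
      rw [← RingHom.mem_ker, PadicInt.ker_toZMod, PadicInt.maximalIdeal_eq_span_p,
        Ideal.mem_span_singleton] at h2
      exact h2
    choose c hc using h1
    refine ⟨∑ j, c j • B j, ?_⟩
    apply B.repr.injective
    ext j
    rw [map_smul, Finsupp.smul_apply, Basis.repr_sum_self, hc, smul_eq_mul]
  · rintro ⟨y, rfl⟩
    funext j
    change PadicInt.toZMod (B.repr ((p : ℤ_[p]) • y) j) = 0
    rw [map_smul, Finsupp.smul_apply, smul_eq_mul, map_mul, map_natCast, CharP.cast_eq_zero,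
      zero_mul]

variable {P : Type} [Group P] [Fintype P]

include B in
/-- a lattice with an action of a group of order prime to `p` without invariants modulo `p` -/
theorem modEq_lattice {q : ℕ} (hq : q.Prime) (hqp : q ≠ p) (hP : IsPGroup q P)
    (T : P →* Module.End ℤ_[p] Λ) (hN : ∀ x, ∑ h : P, T h x = 0) : p ^ d ≡ 1 [MOD q] := by
  classical
  have : Fact q.Prime := ⟨hq⟩
  have hle : ∀ h : P, (red B).ker ≤ ((red B).ker).comap ((T h : Λ →ₗ[ℤ_[p]] Λ).toAddMonoidHom) := by
    intro h x hx
    rw [AddMonoidHom.mem_ker, red_zero_iff] at hx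
    obtain ⟨y, rfl⟩ := hx
    rw [AddSubgroup.mem_comap, AddMonoidHom.mem_ker, red_zero_iff]
    exact ⟨T h y, ((T h : Λ →ₗ[ℤ_[p]] Λ).map_smul _ _).symm⟩
  let ψ : P →* AddMonoid.End (Λ ⧸ (red B).ker) :=
    { toFun := fun h => QuotientAddGroup.map _ _ ((T h : Λ →ₗ[ℤ_[p]] Λ).toAddMonoidHom) (hle h)
      map_one' := by
        refine AddMonoidHom.ext fun x => ?_
        induction x using QuotientAddGroup.induction_on with
        | H y =>
          change ((T 1 y : Λ) : Λ ⧸ (red B).ker) = y
          rw [map_one]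
          rfl
      map_mul' := fun g h => by
        refine AddMonoidHom.ext fun x => ?_
        induction x using QuotientAddGroup.induction_on with
        | H y =>
          change ((T (g * h) y : Λ) : Λ ⧸ (red B).ker) = ((T g (T h y) : Λ) : Λ ⧸ (red B).ker)
          rw [map_mul]
          rfl }
  letI : MulAction P (Λ ⧸ (red B).ker) := MulAction.compHom _ ψ
  have hsm : ∀ (h : P) (y : Λ), h • (y : Λ ⧸ (red B).ker) = ((T h y : Λ) : Λ ⧸ (red B).ker) :=
    fun h y => rfl
  let eq : (Λ ⧸ (red B).ker) ≃+ (Fin d → ZMod p) :=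
    QuotientAddGroup.quotientKerEquivOfSurjective (red B) (red_surj B)
  have hfin : Finite (Λ ⧸ (red B).ker) := Finite.of_equiv _ eq.symm.toEquiv
  have h1 := hP.card_modEq_card_fixedPoints (Λ ⧸ (red B).ker)
  have h2 : Nat.card (Λ ⧸ (red B).ker) = p ^ d := by
    rw [Nat.card_congr eq.toEquiv, Nat.card_fun, Nat.card_zmod, Nat.card_eq_fintype_card,
      Fintype.card_fin]
  have h3 : Nat.card (MulAction.fixedPoints P (Λ ⧸ (red B).ker)) = 1 := by
    rw [Nat.card_eq_one_iff_unique]
    refine ⟨⟨?_⟩, ⟨⟨0, fun h => by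
      have := hsm h 0
      rw [map_zero] at this
      exact this⟩⟩⟩
    have key : ∀ x : Λ ⧸ (red B).ker, x ∈ MulAction.fixedPoints P (Λ ⧸ (red B).ker) → x = 0 := by
      intro x hx
      induction x using QuotientAddGroup.induction_on with
      | H y =>
        have e1 : ∀ h : P, red B (T h y) = red B y := by
          intro h
          have e2 : ((T h y : Λ) : Λ ⧸ (red B).ker) = y := hx h
          rw [QuotientAddGroup.eq, AddMonoidHom.mem_ker, map_add, map_neg,
            neg_add_eq_zero] at e2
          exact e2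
        have e3 : (Nat.card P) • red B y = 0 := by
          have e4 := congrArg (red B) (hN y)
          rw [map_sum, map_zero, Finset.sum_congr rfl fun h _ => e1 h, Finset.sum_const,
            Finset.card_univ, ← Nat.card_eq_fintype_card] at e4
          exact e4
        have e5 : red B y = 0 := by
          obtain ⟨n, hn⟩ := IsPGroup.iff_card.1 hP
          have e6 : ((Nat.card P : ℕ) : ZMod p) ≠ 0 := by
            rw [hn, Ne, ZMod.natCast_eq_zero_iff]
            intro hd
            exact hqp.symm ((Nat.prime_dvd_prime_iff_eq hp.out hq).1 (hp.out.dvd_of_dvd_pow hd))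
          funext j
          have e7 := congrFun e3 j
          rw [Pi.smul_apply, nsmul_eq_mul] at e7
          exact (mul_eq_zero.1 e7).resolve_left e6
        exact (QuotientAddGroup.eq_zero_iff y).2 e5
    rintro ⟨x, hx⟩ ⟨y, hy⟩
    exact Subtype.ext ((key x hx).trans (key y hy).symm)
  rw [h2, h3] at h1
  exact h1

end red

section V

variable {V : Type} [AddCommGroup V] [Module ℚ_[p] V] [Module.Finite ℚ_[p] V]
  {P : Type} [Group P] [Fintype P]

/-- a representation of a `q`-group without fixed vectors -/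
theorem modEq_rep {q : ℕ} (hq : q.Prime) (hqp : q ≠ p) (hP : IsPGroup q P)
    (ρ : P →* Module.End ℚ_[p] V) (hN : ∀ x, ∑ h : P, ρ h x = 0) :
    p ^ finrank ℚ_[p] V ≡ 1 [MOD q] := by
  classical
  letI : Module ℤ_[p] V := Module.compHom V (algebraMap ℤ_[p] ℚ_[p])
  haveI : IsScalarTower ℤ_[p] ℚ_[p] V := ⟨fun a b v => by
    change (algebraMap ℤ_[p] ℚ_[p] a * b) • v = algebraMap ℤ_[p] ℚ_[p] a • (b • v)
    rw [mul_smul]⟩
  let b := Module.finBasis ℚ_[p] V
  let Λ : Submodule ℤ_[p] V := Submodule.span ℤ_[p]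
    (Set.range fun x : P × Fin (finrank ℚ_[p] V) => ρ x.1 (b x.2))
  have hL : Submodule.IsLattice ℚ_[p] Λ := by
    refine ⟨⟨(Set.finite_range _).toFinset, by rw [Set.Finite.coe_toFinset]⟩, ?_⟩
    rw [eq_top_iff, ← b.span_eq, Submodule.span_le]
    rintro _ ⟨j, rfl⟩
    refine Submodule.subset_span (Submodule.subset_span ⟨(1, j), ?_⟩)
    change ρ 1 (b j) = b j
    rw [map_one]
    rfl
  have hfree : Module.Free ℤ_[p] Λ := Submodule.IsLattice.free ℚ_[p] Λ
  have hfg : Module.Finite ℤ_[p] Λ := Submodule.IsLattice.finite ℚ_[p] Λ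
  have hrk : finrank ℤ_[p] Λ = finrank ℚ_[p] V := by
    have := Submodule.IsLattice.rank' ℚ_[p] Λ
    exact congrArg Cardinal.toNat this
  have hst : ∀ (h : P) (x : V), x ∈ Λ → (ρ h).restrictScalars ℤ_[p] x ∈ Λ := by
    intro h x hx
    have h1 : Λ ≤ Λ.comap ((ρ h).restrictScalars ℤ_[p]) := by
      refine Submodule.span_le.2 ?_
      rintro _ ⟨⟨g, j⟩, rfl⟩
      change ρ h (ρ g (b j)) ∈ Λ
      refine Submodule.subset_span ⟨(h * g, j), ?_⟩
      change ρ (h * g) (b j) = _
      rw [map_mul]
      rfl
    exact h1 hx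
  let T : P →* Module.End ℤ_[p] Λ :=
    { toFun := fun h => ((ρ h).restrictScalars ℤ_[p]).restrict (hst h)
      map_one' := by
        refine LinearMap.ext fun x => Subtype.ext ?_
        change ρ 1 x.1 = x.1
        rw [map_one]
        rfl
      map_mul' := fun g h => by
        refine LinearMap.ext fun x => Subtype.ext ?_
        change ρ (g * h) x.1 = ρ g (ρ h x.1)
        rw [map_mul]
        rfl }
  have hT : ∀ x, ∑ h : P, T h x = 0 := by
    intro x
    apply Subtype.ext
    rw [Submodule.coe_sum]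
    exact hN x.1
  have h5 := modEq_lattice (finBasis ℤ_[p] Λ) hq hqp hP T hT
  rw [hrk] at h5
  exact h5

end V

end Pool.Agent.X307.NR
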