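import Pool.Agent.X307.NR.BR
import Pool.Agent.X307.Lat2
import Pool.Agent.Y723.QT.Rf

/-!
# Finiteness for `p = 2`
-/

set_option autoImplicit false
set_option linter.unusedSectionVars false
set_option maxHeartbeats 400000
set_option backward.isDefEq.respectTransparency.types true

namespace Pool.Agent.X307.NR

open WeierstrassCurve NumberField Module Polynomial

open Pool.Agent.TH841.NF Pool.Agent.X307

section root

variable {K : Type} [Field K] {A B : ℚ} {α : K}

lemma vr_root (hα : α ^ 3 + (A : K) * α + (B : K) = 0) :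
    Pool.Agent.Y700.VR (Ec A B K) (Pool.Agent.Y682.wc (3 * α) ((A : K) + 3 * α ^ 2)) 1 α 0 0 where
  u0 := one_ne_zero
  e1 := by simp [Ec, Pool.Agent.Y682.wc]
  e2 := by simp [Ec, Pool.Agent.Y682.wc]
  e3 := by simp [Ec, Pool.Agent.Y682.wc]
  e4 := by simp [Ec, Pool.Agent.Y682.wc]
  e6 := by
    simp only [Ec, Pool.Agent.Y682.wc]
    linear_combination -hα

lemma root_ne (hα : α ^ 3 + (A : K) * α + (B : K) = 0)
    (h : 4 * (A : K) ^ 3 + 27 * (B : K) ^ 2 ≠ 0) :
    (A : K) + 3 * α ^ 2 ≠ 0 ∧ (3 * α) ^ 2 - 4 * ((A : K) + 3 * α ^ 2) ≠ 0 := by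
  have hB : (B : K) = -α ^ 3 - (A : K) * α := by linear_combination hα
  have key : 4 * (A : K) ^ 3 + 27 * (B : K) ^ 2 =
      -(((A : K) + 3 * α ^ 2) ^ 2 * ((3 * α) ^ 2 - 4 * ((A : K) + 3 * α ^ 2))) := by
    rw [hB]
    ring
  constructor
  · intro h0
    apply h
    rw [key, h0]
    ring
  · intro h0
    apply h
    rw [key, h0]
    ring

lemma delta_root [CharZero K] (hα : α ^ 3 + (A : K) * α + (B : K) = 0)
    (h : 4 * (A : K) ^ 3 + 27 * (B : K) ^ 2 ≠ 0) :
    (Pool.Agent.Y682.wc (3 * α) ((A : K) + 3 * α ^ 2)).Δ ≠ 0 := by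
  obtain ⟨h1, h2⟩ := root_ne hα h
  have h3 : (Pool.Agent.Y682.wc (3 * α) ((A : K) + 3 * α ^ 2)).Δ =
      16 * (((A : K) + 3 * α ^ 2) ^ 2 * ((3 * α) ^ 2 - 4 * ((A : K) + 3 * α ^ 2))) := by
    simp only [Pool.Agent.Y682.wc, WeierstrassCurve.Δ, WeierstrassCurve.b₂, WeierstrassCurve.b₄,
      WeierstrassCurve.b₆, WeierstrassCurve.b₈]
    ring
  rw [h3]
  exact mul_ne_zero (by norm_num) (mul_ne_zero (pow_ne_zero 2 h1) h2)

end root

lemma fin_root {A B : ℚ} (h : 4 * A ^ 3 + 27 * B ^ 2 ≠ 0) {K : Type} [Field K] [NumberField K]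
    {α : K} (hα : α ^ 3 + (A : K) * α + (B : K) = 0) :
    Module.Finite ℚ_[2] (V 2 (D.Sha (Ec A B K))) := by
  have hd := disc_Ec h K
  obtain ⟨h1, h2⟩ := root_ne hα hd
  have h3 := @Pool.Agent.Y723.QT.tf_wc K _ _ (3 * α) ((A : K) + 3 * α ^ 2) h1 h2
  have I := (Pool.Agent.Y655.XT.isoVR (vr_root hα) (delta_root hα hd)).sha
  have h4 : Finite {x : D.Sha (Ec A B K) // 2 • x = 0} := by
    refine Finite.of_injective
      (β := {x : D.Sha (Pool.Agent.Y682.wc (3 * α) ((A : K) + 3 * α ^ 2)) // 2 • x = 0})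
      (fun x => ⟨I.symm x.1, by rw [← map_nsmul, x.2, map_zero]⟩) ?_
    intro x y hxy
    exact Subtype.ext (I.symm.injective (congrArg Subtype.val hxy))
  have hS : {s : D.Sha (Ec A B K) | 2 • s = 0}.Finite := Set.finite_coe_iff.1 h4
  exact (exists_divP hS).1

/-- an extension with a root -/
lemma exists_root (A B : ℚ) (F : Type) [Field F] [NumberField F] :
    ∃ (K : Type) (_ : Field K) (_ : NumberField K) (_ : F →+* K) (α : K),
      α ^ 3 + (A : K) * α + (B : K) = 0 := by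
  classical
  let P : F[X] := X ^ 3 + C (A : F) * X + C (B : F)
  let K : Type := P.SplittingField
  have : CharZero K := charZero_of_injective_algebraMap (algebraMap F K).injective
  have : NumberField K := by
    have : FiniteDimensional F K := inferInstanceAs (FiniteDimensional F P.SplittingField)
    letI : Algebra ℚ K := inferInstance
    have : FiniteDimensional ℚ K := FiniteDimensional.trans ℚ F K
    exact { to_charZero := inferInstance, to_finiteDimensional := this }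
  have hdeg : P.degree = 3 := by
    change (X ^ 3 + C (A : F) * X + C (B : F)).degree = 3
    compute_degree!
  obtain ⟨α, hα⟩ := (SplittingField.splits P).exists_eval_eq_zero (by
    rw [degree_map, hdeg]
    decide)
  refine ⟨K, inferInstance, inferInstance, algebraMap F K, α, ?_⟩
  rw [eval_map_algebraMap] at hα
  have h1 : aeval α P = α ^ 3 + (A : K) * α + (B : K) := by
    change aeval α (X ^ 3 + C (A : F) * X + C (B : F)) = _
    rw [map_add, map_add, map_mul, map_pow, aeval_X, aeval_C, aeval_C, map_ratCast, map_ratCast]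
  rw [← h1]
  exact hα

/-- **Finiteness for `p = 2`.** -/
theorem fin_two {A B : ℚ} (h : 4 * A ^ 3 + 27 * B ^ 2 ≠ 0) (F : Type) [Field F] [NumberField F] :
    Module.Finite ℚ_[2] (V 2 (D.Sha (Ec A B F))) := by
  obtain ⟨K, i1, i2, f, α, hα⟩ := exists_root A B F
  exact fin_sub f (fin_root h hα)

/-! ### Dimensions -/

variable {p : ℕ} [hp : Fact p.Prime] {A B : ℚ}

open Pool.Agent.TH841.SH.D (Pt)

lemma h1f_gen {F : Type} [Field F] [NumberField F] {W : WeierstrassCurve F}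
    (hdiv : ∀ a : Pb W, ∃ b, p • b = a) (hfg : Module.Finite ℤ (Pt W F)) :
    (Module.Finite ℚ_[p] (H1f p W) ↔ Module.Finite ℚ_[p] (V p (D.Sha W))) ∧
    (Module.Finite ℚ_[p] (H1f p W) → finrank ℚ_[p] (H1f p W) =
      finrank ℤ (Pt W F) + finrank ℚ_[p] (V p (D.Sha W))) := by
  obtain ⟨g⟩ := h1f_equiv (p := p) hdiv hfg
  have hten : Module.Finite ℚ_[p] (Ten p (Pt W F)) := Module.Finite.base_change ℤ ℚ_[p] (Pt W F)
  have h1 : Module.Finite ℚ_[p] (H1f p W) ↔ Module.Finite ℚ_[p] (V p (D.Sha W)) := by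
    constructor
    · intro hf
      have h2 : Module.Finite ℚ_[p] (Ten p (Pt W F) × V p (D.Sha W)) := Module.Finite.equiv g
      exact Module.Finite.of_surjective
        (LinearMap.snd ℚ_[p] (Ten p (Pt W F)) (V p (D.Sha W))) LinearMap.snd_surjective
    · intro hf
      exact Module.Finite.equiv g.symm
  refine ⟨h1, fun hf => ?_⟩
  have := h1.1 hf
  rw [g.finrank_eq, Module.finrank_prod, finrank_ten]

lemma h1f_iff (h : 4 * A ^ 3 + 27 * B ^ 2 ≠ 0) (F : Type) [Field F] [NumberField F] :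
    (Module.Finite ℚ_[p] (H1f p (Ec A B F)) ↔ Module.Finite ℚ_[p] (V p (D.Sha (Ec A B F)))) ∧
    (Module.Finite ℚ_[p] (H1f p (Ec A B F)) → finrank ℚ_[p] (H1f p (Ec A B F)) =
      finrank ℤ (Pt (Ec A B F) F) + finrank ℚ_[p] (V p (D.Sha (Ec A B F)))) :=
  h1f_gen (W := Ec A B F) (div_pt (disc_Ec h F) (Fact.out : p.Prime).pos) (fin_pt (disc_Ec h F))

/-- the difference of the dimension and the rank is the dimension of the rational Tate module -/
lemma defect_eq (h : 4 * A ^ 3 + 27 * B ^ 2 ≠ 0) (F : Type) [Field F] [NumberField F]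
    (hF : Module.Finite ℚ_[p] (V p (D.Sha (Ec A B F)))) :
    (finrank ℚ_[p] (H1f p (Ec A B F)) : ℤ) - (finrank ℤ (Pt (Ec A B F) F) : ℤ) =
      (finrank ℚ_[p] (V p (D.Sha (Ec A B F))) : ℤ) := by
  obtain ⟨h1, h2⟩ := h1f_iff (p := p) h F
  rw [h2 (h1.2 hF)]
  push_cast
  ring

lemma fin_fixed {F : Type} [Field F] [NumberField F]
    (hF : Module.Finite ℚ_[p] (V p (D.Sha (Ec A B F)))) (U : Subgroup (F ≃ₐ[ℚ] F)) :
    Module.Finite ℚ_[p] (V p (D.Sha (Ec A B (IntermediateField.fixedField U)))) :=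
  fin_sub (algebraMap (IntermediateField.fixedField U) F) hF

/-- Brauer relations for the defect -/
theorem defect_all (h : 4 * A ^ 3 + 27 * B ^ 2 ≠ 0) (F : Type) [Field F] [NumberField F]
    [Fintype (F ≃ₐ[ℚ] F)]
    (hF : Module.Finite ℚ_[p] (H1f p (Ec A B F))) :
    0 ≤ (finrank ℚ_[p] (H1f p (Ec A B F)) : ℤ) - (finrank ℤ (Pt (Ec A B F) F) : ℤ) ∧
    (AJIso p (Ec A B F) ↔
      (finrank ℚ_[p] (H1f p (Ec A B F)) : ℤ) - (finrank ℤ (Pt (Ec A B F) F) : ℤ) = 0) ∧
    ∀ (J : Type) [Fintype J] (H : J → Subgroup (F ≃ₐ[ℚ] F)) (m : J → ℤ),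
      (∀ g : F ≃ₐ[ℚ] F, ∑ j, m j *
        (Nat.card {q : (F ≃ₐ[ℚ] F) ⧸ H j // g • q = q} : ℤ) = 0) →
      ∑ j, m j * ((finrank ℚ_[p] (H1f p (Ec A B (IntermediateField.fixedField (H j)))) : ℤ) -
        (finrank ℤ (Pt (Ec A B (IntermediateField.fixedField (H j)))
          (IntermediateField.fixedField (H j))) : ℤ)) = 0 := by
  have hV := (h1f_iff (p := p) h F).1.1 hF
  rw [defect_eq h F hV]
  refine ⟨by positivity, ?_, ?_⟩
  · rw [aj_iff h F]
    constructor
    · intro h0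
      have : Subsingleton (V p (D.Sha (Ec A B F))) := ⟨fun a b => by rw [h0 a, h0 b]⟩
      have h5 : finrank ℚ_[p] (V p (D.Sha (Ec A B F))) = 0 := Module.finrank_zero_of_subsingleton
      rw [h5]
      rfl
    · intro h0 s
      have h3 : finrank ℚ_[p] (V p (D.Sha (Ec A B F))) = 0 := by exact_mod_cast h0
      have h4 := Module.finrank_zero_iff.1 h3
      exact Subsingleton.elim _ _
  · intro J _ H m hm
    refine Eq.trans ?_ (sha_brauer hV H m hm)
    refine Finset.sum_congr rfl fun j _ => ?_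
    exact congrArg (fun z => m j * z)
      (defect_eq h (IntermediateField.fixedField (H j)) (fin_fixed hV (H j)))

end Pool.Agent.X307.NR
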