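import Pool.Agent.X307.NR.Cong
import Pool.Agent.X307.NR.FinTwo

/-!
# Congruences for the dimension of the cokernel of the Abel–Jacobi map
-/

set_option autoImplicit false
set_option linter.unusedSectionVars false
set_option maxHeartbeats 400000
set_option backward.isDefEq.respectTransparency.types true

namespace Pool.Agent.X307.NR

open WeierstrassCurve NumberField Module

open Pool.Agent.TH841.NF Pool.Agent.X307

open Pool.Agent.Y682 (HF mem_HF em exists_ext)

open Pool.Agent.TH841.SH.D (Pt)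

section lin

variable {p : ℕ} [hp : Fact p.Prime] {G : Type} [Group G] [Fintype G]
  {V V' : Type} [AddCommGroup V] [Module ℚ_[p] V] [Module.Finite ℚ_[p] V]
  [AddCommGroup V'] [Module ℚ_[p] V'] (τ : G →* Module.End ℚ_[p] V)

open Classical in
theorem modEq_sub {q : ℕ} (hq : q.Prime) (hqp : q ≠ p) (U : Subgroup G) (hU : IsPGroup q U)
    (r : V' →ₗ[ℚ_[p]] V) (c : V →ₗ[ℚ_[p]] V') {n : ℕ} (hn : n ≠ 0) (h1 : ∀ x, c (r x) = n • x)
    (h2 : ∀ x, r (c x) = ∑ g : G with g ∈ U, τ g x) :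
    finrank ℚ_[p] V' ≤ finrank ℚ_[p] V ∧
      p ^ (finrank ℚ_[p] V - finrank ℚ_[p] V') ≡ 1 [MOD q] := by
  have hn' : (n : ℚ_[p]) ≠ 0 := by exact_mod_cast hn
  have hr : Function.Injective r := by
    rw [← LinearMap.ker_eq_bot, LinearMap.ker_eq_bot']
    intro x hx
    have h3 := h1 x
    rw [hx, map_zero, ← Nat.cast_smul_eq_nsmul ℚ_[p]] at h3
    exact (smul_eq_zero.1 h3.symm).resolve_left hn'
  have hc : Function.Surjective c := by
    intro y
    refine ⟨(n : ℚ_[p])⁻¹ • r y, ?_⟩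
    rw [map_smul, h1, ← Nat.cast_smul_eq_nsmul ℚ_[p], smul_smul, inv_mul_cancel₀ hn', one_smul]
  have hdim := LinearMap.finrank_range_add_finrank_ker c
  rw [LinearMap.range_eq_top.2 hc, finrank_top] at hdim
  have hfix : ∀ h : U, ∀ x : V, c (τ (h : G) x) = c x := by
    intro h x
    apply hr
    rw [h2, h2]
    have h4 : ∀ g : G, τ g (τ (h : G) x) = τ (g * (h : G)) x := fun g => by
      rw [map_mul]
      rfl
    rw [Finset.sum_congr rfl fun g _ => h4 g]
    refine Finset.sum_bij' (fun g _ => g * (h : G)) (fun g _ => g * (h : G)⁻¹) ?_ ?_ ?_ ?_ ?_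
    · intro g hg
      simp only [Finset.mem_filter, Finset.mem_univ, true_and] at hg ⊢
      exact U.mul_mem hg h.2
    · intro g hg
      simp only [Finset.mem_filter, Finset.mem_univ, true_and] at hg ⊢
      exact U.mul_mem hg (U.inv_mem h.2)
    · intro g _; simp
    · intro g _; simp
    · intro g _; rfl
  have hst : ∀ (h : U) (x : V), x ∈ LinearMap.ker c → τ (h : G) x ∈ LinearMap.ker c := by
    intro h x hx
    rw [LinearMap.mem_ker] at hx ⊢
    rw [hfix, hx]
  let ρ : U →* Module.End ℚ_[p] (LinearMap.ker c) :=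
    { toFun := fun h => (τ (h : G) : V →ₗ[ℚ_[p]] V).restrict (hst h)
      map_one' := by
        refine LinearMap.ext fun x => Subtype.ext ?_
        change τ ((1 : U) : G) x.1 = x.1
        rw [Subgroup.coe_one, map_one]
        rfl
      map_mul' := fun g h => by
        refine LinearMap.ext fun x => Subtype.ext ?_
        change τ ((g * h : U) : G) x.1 = τ (g : G) (τ (h : G) x.1)
        rw [Subgroup.coe_mul, map_mul]
        rfl }
  have : Fintype U := Fintype.ofFinite U
  have hN : ∀ x, ∑ h : U, ρ h x = 0 := by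
    intro x
    apply Subtype.ext
    rw [Submodule.coe_sum]
    have h5 : ∑ g : G with g ∈ U, τ g x.1 = ∑ h : U, τ (h : G) x.1 :=
      Finset.sum_subtype _ (fun g => by simp) _
    have h6 : r (c x.1) = 0 := by
      have : c x.1 = 0 := x.2
      rw [this, map_zero]
    rw [h2, h5] at h6
    exact h6
  have h7 := modEq_rep hq hqp hU ρ hN
  refine ⟨by omega, ?_⟩
  have h8 : finrank ℚ_[p] V - finrank ℚ_[p] V' = finrank ℚ_[p] (LinearMap.ker c) := by omega
  rw [h8]
  exact h7

end lin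

variable {p : ℕ} [hp : Fact p.Prime] {A B : ℚ}

/-- **Congruences.** -/
theorem sha_cong {F : Type} [Field F] [NumberField F] [Fintype (F ≃ₐ[ℚ] F)]
    (hF : Module.Finite ℚ_[p] (V p (D.Sha (Ec A B F)))) {q : ℕ} (hq : q.Prime) (hqp : q ≠ p)
    (U : Subgroup (F ≃ₐ[ℚ] F)) (hU : IsPGroup q U) :
    finrank ℚ_[p] (V p (D.Sha (Ec A B (IntermediateField.fixedField U)))) ≤
      finrank ℚ_[p] (V p (D.Sha (Ec A B F))) ∧
    p ^ (finrank ℚ_[p] (V p (D.Sha (Ec A B F))) -
      finrank ℚ_[p] (V p (D.Sha (Ec A B (IntermediateField.fixedField U))))) ≡ 1 [MOD q] := by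
  classical
  obtain ⟨e⟩ := exists_e F
  let E : WeierstrassCurve ℚ := ⟨0, 0, 0, A, B⟩
  have h1 : Module.Finite ℚ_[p] (V p (QH E (HF e))) :=
    Module.Finite.equiv (vEquiv (shaEquiv (sc_Ec A B F) e))
  have h3 : ∀ a, cores (open_HF e) (res (le_HD e U) a) =
      Nat.card U • (a : QH E (HD e U)) := by
    intro a
    rw [cores_res (le_HD e U) (open_HF e) a]
    congr 1
    rw [← Nat.card_eq_fintype_card]
    exact Nat.card_congr (cosE e U)
  have h2 : Module.Finite ℚ_[p] (V p (QH E (HD e U))) :=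
    finite_of_comp (res (le_HD e U)) (cores (open_HF e)) Nat.card_pos.ne' h3
  have h4 := modEq_sub (repP p (phi e E)) hq hqp U hU (V.map (res (le_HD e U)))
    (V.map (cores (open_HF e))) Nat.card_pos.ne' (map_comp_nsmul _ _ h3) (fun x => by
      apply v_ext
      intro n
      have : Fintype U := Fintype.ofFinite _
      rw [map_sum, co_map, co_map, res_cores_HD e E U]
      have h5 : ∑ g : F ≃ₐ[ℚ] F with g ∈ U, phi e E g (co (QH E (HF e)) n x) =
          ∑ d : U, phi e E (d : F ≃ₐ[ℚ] F) (co (QH E (HF e)) n x) :=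
        Finset.sum_subtype _ (fun g => by simp) _
      rw [← h5]
      rfl)
  rw [finrank_fixed (A := A) (B := B) e U] at h4
  have h6 : finrank ℚ_[p] (V p (QH E (HF e))) = finrank ℚ_[p] (V p (D.Sha (Ec A B F))) :=
    (vEquiv (shaEquiv (sc_Ec A B F) e)).symm.finrank_eq
  rw [h6] at h4
  exact h4

/-- congruences for the defect -/
theorem defect_cong (h : 4 * A ^ 3 + 27 * B ^ 2 ≠ 0) (F : Type) [Field F] [NumberField F]
    [Fintype (F ≃ₐ[ℚ] F)] (hF : Module.Finite ℚ_[p] (H1f p (Ec A B F)))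
    (U : Subgroup (F ≃ₐ[ℚ] F)) {q : ℕ} (hq : q.Prime) (hqp : q ≠ p) (hU : IsPGroup q U) :
    ∃ m : ℕ, (finrank ℚ_[p] (H1f p (Ec A B F)) : ℤ) - (finrank ℤ (Pt (Ec A B F) F) : ℤ) =
      (finrank ℚ_[p] (H1f p (Ec A B (IntermediateField.fixedField U))) : ℤ) -
        (finrank ℤ (Pt (Ec A B (IntermediateField.fixedField U))
          (IntermediateField.fixedField U)) : ℤ) + m ∧ p ^ m ≡ 1 [MOD q] := by
  have hV := (h1f_iff (p := p) h F).1.1 hF
  obtain ⟨h1, h2⟩ := sha_cong hV hq hqp U hU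
  refine ⟨_, ?_, h2⟩
  have h3 := defect_eq h (IntermediateField.fixedField U) (fin_fixed hV U)
  rw [defect_eq h F hV]
  refine Eq.trans ?_ (congrArg (fun z : ℤ => z + ((finrank ℚ_[p] (V p (D.Sha (Ec A B F))) -
      finrank ℚ_[p] (V p (D.Sha (Ec A B (IntermediateField.fixedField U)))) : ℕ) : ℤ)) h3.symm)
  push_cast [h1]
  ring

end Pool.Agent.X307.NR
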