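import Pool.Agent.TH841.NF.Cor

/-!
# Two formulas for the corestriction of cocycles
-/

set_option autoImplicit false

namespace Pool.Agent.X307.NR

open Pool.Agent.TH841.NF

variable {G M : Type} [Group G] [AddCommGroup M] {K : Subgroup G} [Fintype (G ⧸ K)]

/-- the corestriction of a cocycle of the whole group -/
lemma cor_full (s : G ⧸ K → G) (a : G →* AddMonoid.End M) {f : G → M}
    (hf : ∀ x y, f (x * y) = f x + a x (f y)) (g : G) :
    cor s a (1 : G →* ℤ) f g = Fintype.card (G ⧸ K) • f g +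
      (a g (∑ q, f (s q)) - ∑ q, f (s q)) := by
  have h1 : ∀ q : G ⧸ K, (1 : G →* ℤ) (s (g • q)) • a (s (g • q)) (f ((s (g • q))⁻¹ * g * s q)) =
      f g + (a g (f (s q)) - f (s (g • q))) := by
    intro q
    rw [MonoidHom.one_apply, one_smul]
    have h3 := hf (s (g • q)) ((s (g • q))⁻¹ * g * s q)
    have h4 : s (g • q) * ((s (g • q))⁻¹ * g * s q) = g * s q := by group
    rw [h4, hf g (s q)] at h3
    have h5 : a (s (g • q)) (f ((s (g • q))⁻¹ * g * s q)) =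
      (f g + a g (f (s q))) - f (s (g • q)) := by
      rw [h3]
      abel
    rw [h5]
    abel
  unfold cor
  rw [Finset.sum_congr rfl fun q _ => h1 q, Finset.sum_add_distrib, Finset.sum_sub_distrib,
    Finset.sum_const, Finset.card_univ]
  have h6 : ∑ q : G ⧸ K, f (s (g • q)) = ∑ q, f (s q) :=
    Equiv.sum_comp (MulAction.toPerm g : Equiv.Perm (G ⧸ K)) (fun q : G ⧸ K => f (s q))
  rw [h6, map_sum]

/-- the corestriction of a cocycle on elements acting trivially on the cosets -/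
lemma cor_norm (s : G ⧸ K → G) (a : G →* AddMonoid.End M) {f : G → M} (g : G)
    (hk : ∀ q : G ⧸ K, g • q = q) :
    cor s a (1 : G →* ℤ) f g = ∑ q, a (s q) (f ((s q)⁻¹ * g * s q)) := by
  unfold cor
  refine Finset.sum_congr rfl fun q _ => ?_
  rw [MonoidHom.one_apply, one_smul, hk]

lemma cor_coc1 {s : G ⧸ K → G} (hs : ∀ q, (s q : G ⧸ K) = q) (a : G →* AddMonoid.End M)
    {f : G → M} (hf : ∀ x ∈ K, ∀ y ∈ K, f (x * y) = f x + a x (f y)) (g g' : G) :
    cor s a (1 : G →* ℤ) f (g * g') = cor s a 1 f g + a g (cor s a 1 f g') := by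
  rw [cor_coc hs a (fun _ _ => rfl) hf g g', MonoidHom.one_apply, one_smul]

lemma cor_cob1 {s : G ⧸ K → G} (hs : ∀ q, (s q : G ⧸ K) = q) (a : G →* AddMonoid.End M)
    {f : G → M} (P : M) (hf : ∀ x ∈ K, f x = a x P - P) :
    ∃ R : M, ∀ g, cor s a (1 : G →* ℤ) f g = a g R - R :=
  ⟨∑ q : G ⧸ K, (1 : G →* ℤ) (s q) • a (s q) P, fun g => by
    rw [cor_cob hs a (fun _ _ => rfl) P hf g, MonoidHom.one_apply, one_smul]⟩

lemma cor_loc1 {J L N : Type} [Group L] [AddCommGroup N] (D : Loc G M J L N)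
    {s : G ⧸ K → G} (hs : ∀ q, (s q : G ⧸ K) = q)
    {f : G → M} (hf : ∀ x ∈ K, ∀ y ∈ K, f (x * y) = f x + D.a x (f y))
    (hloc : ∀ j, ∃ P, ∀ τ, ∀ h ∈ K, D.lc τ j = D.rc j h → D.st j (f h) = D.b τ P - P) (j : J) :
    ∃ R, ∀ τ g, D.lc τ j = D.rc j g → D.st j (cor s D.a (1 : G →* ℤ) f g) = D.b τ R - R := by
  obtain ⟨R, hR⟩ := cor_loc D hs (χ := (1 : G →* ℤ)) (fun _ _ => rfl) hf hloc j
  refine ⟨R, fun τ g h => ?_⟩
  rw [hR τ g h, MonoidHom.one_apply, one_smul]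

end Pool.Agent.X307.NR
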