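import Pool.Agent.X307.NR.Grp
import Pool.Agent.X307.NR.CorAbs

/-!
# Corestriction between subgroups of the absolute Galois group of `ℚ`
-/

set_option autoImplicit false
set_option linter.unusedSectionVars false

attribute [-instance] DivisionRing.toRatAlgebra

namespace Pool.Agent.X307.NR

open WeierstrassCurve

open Pool.Agent.TH841.NF

open Pool.Agent.TH841.SH.D (Pt act Gal Coch IsCoc IsCob LocTriv cob)

variable {E : WeierstrassCurve ℚ} {H H' : Subgroup (Gal ℚ)}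

/-- the action of `H'` -/
noncomputable def aR (E : WeierstrassCurve ℚ) (H' : Subgroup (Gal ℚ)) :
    H' →* AddMonoid.End (Pt E Qb) := (aG E).comp H'.subtype

lemma aR_apply (g : H') (P : Pt E Qb) : aR E H' g P = aG E (g : Gal ℚ) P := rfl

/-- the local data -/
noncomputable def locR (E : WeierstrassCurve ℚ) (H' : Subgroup (Gal ℚ)) (K : Type) [Field K]
    [Algebra ℚ K] :
    Loc H' (Pt E Qb) (Qb →ₐ[ℚ] AlgebraicClosure K) (Gal K) (Pt E (AlgebraicClosure K)) where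
  a := aR E H'
  b := aL E K
  lc τ j := (τ.toAlgHom.restrictScalars ℚ).comp j
  rc j g := j.comp (g : Gal ℚ).toAlgHom
  st j := act E j
  lc_mul _ _ _ := rfl
  lc_one _ := rfl
  rc_mul _ _ _ := rfl
  rc_one _ := rfl
  comm _ _ _ := rfl
  st_l _ _ x := (act_act E _ _ x).symm
  st_r _ _ x := (act_act E _ _ x).symm

/-! ### Sums of classes -/

/-- the class map -/
noncomputable def clsHom (E : WeierstrassCurve ℚ) (H : Subgroup (Gal ℚ)) : ZH E H →+ QH E H :=
  QuotientAddGroup.mk' ((BH E H).addSubgroupOf (ZH E H))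

lemma clsHom_apply (z : ZH E H) : clsHom E H z = cls z.1 z.2 := rfl

/-- evaluation -/
def ev (E : WeierstrassCurve ℚ) (h : Gal ℚ) : Coch E →+ Pt E Qb where
  toFun f := f h
  map_zero' := rfl
  map_add' _ _ := rfl

lemma clsHom_eq (z w : ZH E H) : clsHom E H z = clsHom E H w ↔
    ∃ P : Pt E Qb, ∀ h ∈ H, ev E h z.1 - ev E h w.1 = aG E h P - P := by
  rw [clsHom_apply, clsHom_apply, cls_eq]
  rfl

section

variable [Fintype (H' ⧸ H.subgroupOf H')]

/-- the values of the corestriction -/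
noncomputable def corV (f : Coch E) (g : H') : Pt E Qb :=
  cor (sec (H.subgroupOf H')) (aR E H') (1 : H' →* ℤ) (fun x : H' => f x) g

lemma corV_zero (g : H') : corV (H := H) (0 : Coch E) g = 0 :=
  cor_zero_of (aR E H') _ g fun _ => rfl

lemma corV_add (f f' : Coch E) (g : H') :
    corV (H := H) (f + f') g = corV (H := H) f g + corV (H := H) f' g :=
  cor_add (aR E H') (fun x : H' => f x) (fun x : H' => f' x) g

open Classical in
/-- the corestriction of a function -/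
noncomputable def corF (E : WeierstrassCurve ℚ) (H H' : Subgroup (Gal ℚ))
    [Fintype (H' ⧸ H.subgroupOf H')] : Coch E →+ Coch E where
  toFun f := fun g => if h : g ∈ H' then corV (H := H) f ⟨g, h⟩ else 0
  map_zero' := by
    funext g
    by_cases h : g ∈ H'
    · rw [dif_pos h, corV_zero]
      rfl
    · rw [dif_neg h]
      rfl
  map_add' f f' := by
    funext g
    by_cases h : g ∈ H'
    · rw [dif_pos h]
      change _ = (if h : g ∈ H' then _ else (0 : Pt E Qb)) + (if h : g ∈ H' then _ else (0 : Pt E Qb))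
      rw [dif_pos h, dif_pos h, corV_add]
    · rw [dif_neg h]
      change _ = (if h : g ∈ H' then _ else (0 : Pt E Qb)) + (if h : g ∈ H' then _ else (0 : Pt E Qb))
      rw [dif_neg h, dif_neg h, add_zero]

lemma corF_apply (f : Coch E) (g : H') : corF E H H' f (g : Gal ℚ) = corV (H := H) f g :=
  dif_pos g.2

lemma corV_mul {f : Coch E} (hf : IsZ E H f) (g g' : H') :
    corV (H := H) f (g * g') = corV (H := H) f g + aR E H' g (corV (H := H) f g') :=
  cor_coc1 (K := H.subgroupOf H') (sec_spec (H.subgroupOf H')) (aR E H') (f := fun x : H' => f x)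
    (fun x hx y hy => hf.mul (x : Gal ℚ) hx (y : Gal ℚ) hy) g g'

lemma corV_cob {f : Coch E} (P : Pt E Qb) (hP : ∀ h ∈ H, f h = aG E h P - P) :
    ∃ R : Pt E Qb, ∀ g : H', corV (H := H) f g = aR E H' g R - R :=
  cor_cob1 (K := H.subgroupOf H') (sec_spec (H.subgroupOf H')) (aR E H') (f := fun x : H' => f x) P
    (fun x hx => hP (x : Gal ℚ) hx)

lemma corF_emb {f : Coch E} (hf : IsZ E H f) {K : Type}
    [Field K] [Algebra ℚ K] (hl : EmbH E H K f) : EmbH E H' K (corF E H H' f) := by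
  intro j
  obtain ⟨R, hR⟩ := cor_loc1 (locR E H' K) (K := H.subgroupOf H')
    (sec_spec (H.subgroupOf H')) (f := fun x : H' => f x)
    (fun x hx y hy => hf.mul (x : Gal ℚ) hx (y : Gal ℚ) hy) (by
      intro j
      obtain ⟨P, hP⟩ := hl j
      exact ⟨P, fun τ h hh hc => hP τ (h : Gal ℚ) hh hc⟩) j
  refine ⟨R, fun τ g hg hc => ?_⟩
  have h2 : corF E H H' f g = corV (H := H) f ⟨g, hg⟩ := corF_apply f ⟨g, hg⟩
  rw [h2]
  exact hR τ ⟨g, hg⟩ hc

omit [Fintype (H' ⧸ H.subgroupOf H')] in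
lemma smul_eq_of_mem {g : H'} {q : H' ⧸ H.subgroupOf H'}
    (h : (sec (H.subgroupOf H') q)⁻¹ * g * sec (H.subgroupOf H') q ∈ H.subgroupOf H') :
    g • q = q := by
  rw [mul_assoc, ← QuotientGroup.eq] at h
  conv_lhs => rw [← sec_spec _ q]
  exact h.symm.trans (sec_spec _ q)

lemma corF_fin (hopen : ∃ T : Finset Qb, ∀ g ∈ H', (∀ x ∈ T, g x = x) → g ∈ H) {f : Coch E}
    (hf : IsZ E H f) : ∃ S : Finset Qb, ∀ g ∈ H', (∀ x ∈ S, g x = x) → corF E H H' f g = 0 := by
  classical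
  obtain ⟨T, hT⟩ := hopen
  obtain ⟨S, hS⟩ := hf.fin
  let s := sec (H.subgroupOf H')
  refine ⟨Finset.univ.biUnion fun q : H' ⧸ H.subgroupOf H' =>
    (S ∪ T).image fun x => (s q : Gal ℚ) x, fun g hg hx => ?_⟩
  have key : ∀ q, ∀ x ∈ S ∪ T, ((s q : Gal ℚ)⁻¹ * g * (s q : Gal ℚ)) x = x := by
    intro q x hxS
    change (s q : Gal ℚ).symm (g ((s q : Gal ℚ) x)) = x
    rw [hx _ (Finset.mem_biUnion.2 ⟨q, Finset.mem_univ _, Finset.mem_image_of_mem _ hxS⟩),
      AlgEquiv.symm_apply_apply]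
  have hm : ∀ q, (s q)⁻¹ * (⟨g, hg⟩ : H') * s q ∈ H.subgroupOf H' := fun q =>
    hT _ (H'.mul_mem (H'.mul_mem (H'.inv_mem (s q).2) hg) (s q).2)
      fun x hx => key q x (Finset.mem_union_right _ hx)
  have h2 : corF E H H' f g = corV (H := H) f ⟨g, hg⟩ := corF_apply f ⟨g, hg⟩
  rw [h2]
  refine cor_zero_of (aR E H') _ _ fun q => ?_
  rw [smul_eq_of_mem (hm q)]
  exact hS _ (hm q) fun x hx => key q x (Finset.mem_union_left _ hx)

lemma corF_isZ (hopen : ∃ T : Finset Qb, ∀ g ∈ H', (∀ x ∈ T, g x = x) → g ∈ H) {f : Coch E}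
    (hf : IsZ E H f) : IsZ E H' (corF E H H' f) where
  mul := by
    intro x hx y hy
    have h2 : corF E H H' f (x * y) = corV (H := H) f (⟨x, hx⟩ * ⟨y, hy⟩) :=
      corF_apply f (⟨x, hx⟩ * ⟨y, hy⟩)
    have h3 : corF E H H' f x = corV (H := H) f ⟨x, hx⟩ := corF_apply f ⟨x, hx⟩
    have h4 : corF E H H' f y = corV (H := H) f ⟨y, hy⟩ := corF_apply f ⟨y, hy⟩
    rw [h2, h3, h4, corV_mul hf]
    rfl
  fin := corF_fin hopen hf
  pad := fun p _ i => corF_emb hf (hf.pad p i)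
  rl := fun i => corF_emb hf (hf.rl i)

lemma corF_cob {f : Coch E} (h : ∃ P : Pt E Qb, ∀ h ∈ H, f h = aG E h P - P) :
    ∃ P : Pt E Qb, ∀ h ∈ H', corF E H H' f h = aG E h P - P := by
  obtain ⟨P, hP⟩ := h
  obtain ⟨R, hR⟩ := corV_cob (H' := H') P hP
  refine ⟨R, fun g hg => ?_⟩
  have h2 : corF E H H' f g = corV (H := H) f ⟨g, hg⟩ := corF_apply f ⟨g, hg⟩
  rw [h2]
  exact hR ⟨g, hg⟩

/-- the corestriction of classes -/
noncomputable def cores (hopen : ∃ T : Finset Qb, ∀ g ∈ H', (∀ x ∈ T, g x = x) → g ∈ H) :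
    QH E H →+ QH E H' :=
  mkMap (corF E H H') (fun _ hf => corF_isZ hopen hf) (fun _ _ h => corF_cob h)

lemma cores_cls (hopen : ∃ T : Finset Qb, ∀ g ∈ H', (∀ x ∈ T, g x = x) → g ∈ H) {f : Coch E}
    (hf : IsZ E H f) :
    cores hopen (cls f hf) = cls (corF E H H' f) (corF_isZ hopen hf) := rfl

lemma corV_full {f : Coch E} (hf : IsZ E H' f) (g : H') : corV (H := H) f g =
    Fintype.card (H' ⧸ H.subgroupOf H') • f (g : Gal ℚ) +
      (aR E H' g (∑ q : H' ⧸ H.subgroupOf H', f ((sec (H.subgroupOf H') q : H') : Gal ℚ)) -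
        ∑ q : H' ⧸ H.subgroupOf H', f ((sec (H.subgroupOf H') q : H') : Gal ℚ)) :=
  cor_full (K := H.subgroupOf H') (sec (H.subgroupOf H')) (aR E H') (f := fun x : H' => f x)
    (fun x y => hf.mul (x : Gal ℚ) x.2 (y : Gal ℚ) y.2) g

lemma corV_norm (f : Coch E) (g : H') (hk : ∀ q : H' ⧸ H.subgroupOf H', g • q = q) :
    corV (H := H) f g = ∑ q : H' ⧸ H.subgroupOf H',
      cj E ((sec (H.subgroupOf H') q : H') : Gal ℚ) f (g : Gal ℚ) :=
  cor_norm (K := H.subgroupOf H') (sec (H.subgroupOf H')) (aR E H') (f := fun x : H' => f x)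
    g hk

/-- corestriction of a restriction -/
lemma cores_res (hle : H ≤ H')
    (hopen : ∃ T : Finset Qb, ∀ g ∈ H', (∀ x ∈ T, g x = x) → g ∈ H) (x : QH E H') :
    cores hopen (res hle x) = Fintype.card (H' ⧸ H.subgroupOf H') • x := by
  obtain ⟨f, hf, rfl⟩ := cls_surj x
  have key : ∀ n : ℕ, (∀ g : H', ∃ P : Pt E Qb, True) → n = Fintype.card (H' ⧸ H.subgroupOf H') →
      cores hopen (res hle (cls f hf)) = n • cls f hf := by
    intro n _ hn
    have h1 : n • cls f hf = clsHom E H' (n • ⟨f, hf⟩) :=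
      (map_nsmul (clsHom E H') n ⟨f, hf⟩).symm
    rw [h1, res_cls, cores_cls]
    refine (clsHom_eq ⟨corF E H H' f, corF_isZ hopen (isZ_res hle hf)⟩ (n • ⟨f, hf⟩)).2 ?_
    refine ⟨∑ q : H' ⧸ H.subgroupOf H', f ((sec (H.subgroupOf H') q : H') : Gal ℚ),
      fun g hg => ?_⟩
    have h2 : ev E g (corF E H H' f) = corV (H := H) f ⟨g, hg⟩ := corF_apply f ⟨g, hg⟩
    have h3 : ev E g ((n • (⟨f, hf⟩ : ZH E H') : ZH E H') : Coch E) = n • f g := by
      rw [AddSubgroup.coe_nsmul, map_nsmul]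
      rfl
    rw [h2, h3, corV_full hf, ← hn, aR_apply]
    abel
  exact key _ (fun _ => ⟨0, trivial⟩) rfl

/-- restriction of a corestriction, for normal subgroups -/
lemma res_cores (hle : H ≤ H') (hnorm : ∀ g ∈ H', ∀ h ∈ H, g⁻¹ * h * g ∈ H)
    (hopen : ∃ T : Finset Qb, ∀ g ∈ H', (∀ x ∈ T, g x = x) → g ∈ H) (x : QH E H) :
    res hle (cores hopen x) = ∑ q : H' ⧸ H.subgroupOf H',
      cc ((sec (H.subgroupOf H') q : H') : Gal ℚ)
        (hnorm _ (sec (H.subgroupOf H') q : H').2) x := by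
  obtain ⟨f, hf, rfl⟩ := cls_surj x
  let z : H' ⧸ H.subgroupOf H' → ZH E H := fun q =>
    ⟨cj E ((sec (H.subgroupOf H') q : H') : Gal ℚ) f,
      cj_isZ (hnorm _ (sec (H.subgroupOf H') q : H').2) hf⟩
  have h1 : ∑ q : H' ⧸ H.subgroupOf H',
      cc ((sec (H.subgroupOf H') q : H') : Gal ℚ)
        (hnorm _ (sec (H.subgroupOf H') q : H').2) (cls f hf) = clsHom E H (∑ q, z q) := by
    rw [map_sum]
    rfl
  rw [h1, cores_cls, res_cls]
  refine (clsHom_eq ⟨corF E H H' f, isZ_res hle (corF_isZ hopen hf)⟩ (∑ q, z q)).2 ?_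
  refine ⟨0, fun g hg => ?_⟩
  rw [map_zero, sub_zero, sub_eq_zero]
  have h2 : ev E g (corF E H H' f) = corV (H := H) f ⟨g, hle hg⟩ := corF_apply f ⟨g, hle hg⟩
  have h3 : ev E g ((∑ q, z q : ZH E H) : Coch E) =
      ∑ q, cj E ((sec (H.subgroupOf H') q : H') : Gal ℚ) f g := by
    rw [AddSubgroup.val_finset_sum, map_sum]
    rfl
  have h4 := corV_norm (H := H) f ⟨g, hle hg⟩ fun q =>
    smul_eq_of_mem (hnorm _ (sec (H.subgroupOf H') q : H').2 g hg)
  exact h2.trans (h4.trans h3.symm)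

end

end Pool.Agent.X307.NR
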