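import Pool.Agent.X307.NR.Sub
import Pool.Agent.X307.NR.AJW

/-!
# Norm relations for the Abel–Jacobi maps of elliptic curves
-/

set_option autoImplicit false
set_option linter.unusedSectionVars false
set_option maxHeartbeats 400000
set_option backward.isDefEq.respectTransparency.types true

namespace Pool.Agent.X307.NR

open WeierstrassCurve NumberField Module

open Pool.Agent.TH841.NF Pool.Agent.X307

variable {p : ℕ} [hp : Fact p.Prime] {A B : ℚ}

/-- the curve `y² = x³ + A x + B` over `F` -/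
def Ec (A B : ℚ) (F : Type) [Field F] : WeierstrassCurve F := ⟨0, 0, 0, (A : F), (B : F)⟩

lemma sc_Ec (A B : ℚ) (F : Type) [Field F] [Algebra ℚ F] :
    Sc (algebraMap ℚ F) 1 (⟨0, 0, 0, A, B⟩ : WeierstrassCurve ℚ) (Ec A B F) := by
  refine ⟨one_ne_zero, ?_, ?_, ?_, ?_, ?_⟩
  · change (0 : F) = algebraMap ℚ F 0 * 1
    rw [map_zero, zero_mul]
  · change (0 : F) = algebraMap ℚ F 0 * 1 ^ 2
    rw [map_zero, zero_mul]
  · change (0 : F) = algebraMap ℚ F 0 * 1 ^ 3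
    rw [map_zero, zero_mul]
  · change (A : F) = algebraMap ℚ F A * 1 ^ 4
    rw [one_pow, mul_one, eq_ratCast]
  · change (B : F) = algebraMap ℚ F B * 1 ^ 6
    rw [one_pow, mul_one, eq_ratCast]

lemma disc_Ec (h : 4 * A ^ 3 + 27 * B ^ 2 ≠ 0) (F : Type) [Field F] [CharZero F] :
    4 * (A : F) ^ 3 + 27 * (B : F) ^ 2 ≠ 0 := by
  intro h0
  apply h
  have h1 : ((4 * A ^ 3 + 27 * B ^ 2 : ℚ) : F) = ((0 : ℚ) : F) := by
    push_cast
    exact h0
  exact_mod_cast h1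

lemma aj_iff (h : 4 * A ^ 3 + 27 * B ^ 2 ≠ 0) (F : Type) [Field F] [NumberField F] :
    AJIso p (Ec A B F) ↔ TZ p (Ec A B F) := ajIso_iff' p (disc_Ec h F)

/-- descent to subfields -/
theorem aj_sub (h : 4 * A ^ 3 + 27 * B ^ 2 ≠ 0) {F M : Type} [Field F] [NumberField F] [Field M]
    [NumberField M] (f : M →+* F) (hF : AJIso p (Ec A B F)) : AJIso p (Ec A B M) := by
  rw [aj_iff h] at hF ⊢
  exact tz_sub f (sc_Ec A B F) (sc_Ec A B M) hF

lemma tz_fixedField {F : Type} [Field F] [NumberField F] (e : AlgebraicClosure F ≃+* Qb)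
    (D : Subgroup (F ≃ₐ[ℚ] F)) : TZ p (Ec A B (IntermediateField.fixedField D)) ↔
      TQ p (⟨0, 0, 0, A, B⟩ : WeierstrassCurve ℚ) (HD e D) :=
  tz_fixed e D (M := IntermediateField.fixedField D) (mem_fixed_iff D)
    (sc_Ec A B (IntermediateField.fixedField D))

/-- norm relations -/
theorem aj_rel (h : 4 * A ^ 3 + 27 * B ^ 2 ≠ 0) {F : Type} [Field F] [NumberField F]
    [Fintype (F ≃ₐ[ℚ] F)] {ι : Type} (H : ι → Subgroup (F ≃ₐ[ℚ] F))
    (hrel : ∃ (n : ℕ) (a b : Fin n → MonoidAlgebra ℚ (F ≃ₐ[ℚ] F)) (s : Fin n → ι),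
      (1 : MonoidAlgebra ℚ (F ≃ₐ[ℚ] F)) = ∑ j, a j * nEl (H (s j)) * b j)
    (hH : ∀ i, AJIso p (Ec A B (IntermediateField.fixedField (H i)))) : AJIso p (Ec A B F) := by
  obtain ⟨e⟩ := exists_e F
  rw [aj_iff h, tz_iff e (sc_Ec A B F)]
  refine tq_rel e H hrel fun i => (tz_fixedField e (H i)).1 ((aj_iff h _).1 (hH i))

theorem aj_partition (h : 4 * A ^ 3 + 27 * B ^ 2 ≠ 0) {F : Type} [Field F] [NumberField F]
    {ι : Type} [Fintype ι] (H : ι → Subgroup (F ≃ₐ[ℚ] F))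
    (K : Subgroup (F ≃ₐ[ℚ] F)) (hι : 2 ≤ Fintype.card ι)
    (hle : ∀ i, H i ≤ K) (hpart : ∀ k ∈ K, k ≠ 1 → ∃! i, k ∈ H i)
    (hH : ∀ i, AJIso p (Ec A B (IntermediateField.fixedField (H i)))) : AJIso p (Ec A B F) := by
  obtain ⟨e⟩ := exists_e F
  have : Fintype (F ≃ₐ[ℚ] F) := Fintype.ofFinite _
  rw [aj_iff h, tz_iff e (sc_Ec A B F)]
  exact tq_partition e H K hι hle hpart fun i =>
    (tz_fixedField e (H i)).1 ((aj_iff h _).1 (hH i))

theorem aj_structure (h : 4 * A ^ 3 + 27 * B ^ 2 ≠ 0) {F : Type} [Field F] [NumberField F]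
    (hF : ¬ AJIso p (Ec A B F))
    (hH : ∀ P : Subgroup (F ≃ₐ[ℚ] F), (Nat.card P).Prime →
      AJIso p (Ec A B (IntermediateField.fixedField P))) :
    (∀ (K : Subgroup (F ≃ₐ[ℚ] F)) (q r : ℕ), q.Prime → r.Prime → Nat.card K = q * r →
      IsCyclic K) ∧
    (∀ K : Subgroup (F ≃ₐ[ℚ] F), (∀ a ∈ K, ∀ b ∈ K, a * b = b * a) → IsCyclic K) ∧
    ∀ σ τ : F ≃ₐ[ℚ] F, orderOf σ = 2 → orderOf τ = 2 → σ = τ := by
  obtain ⟨e⟩ := exists_e F
  have : Fintype (F ≃ₐ[ℚ] F) := Fintype.ofFinite _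
  rw [aj_iff h, tz_iff e (sc_Ec A B F)] at hF
  exact tq_structure e hF fun P hP => (tz_fixedField e P).1 ((aj_iff h _).1 (hH P hP))

lemma finrank_fixed_lt {F : Type} [Field F] [NumberField F] (P : Subgroup (F ≃ₐ[ℚ] F))
    (hP : (Nat.card P).Prime) :
    finrank ℚ (IntermediateField.fixedField P) < finrank ℚ F := by
  have h1 : finrank (IntermediateField.fixedField P) F = Nat.card P :=
    IntermediateField.finrank_fixedField_eq_card P
  have h2 := Module.finrank_mul_finrank ℚ (IntermediateField.fixedField P) F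
  have h3 := hP.two_le
  have h4 : 0 < finrank ℚ (IntermediateField.fixedField P) := finrank_pos
  rw [← h2, h1]
  nlinarith

end Pool.Agent.X307.NR
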