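import Pool.Agent.X307.NR.Tran
import Pool.Agent.X307.NR.Aut

/-!
# The action of the automorphisms of a number field on the locally trivial classes
-/

set_option autoImplicit false
set_option linter.unusedSectionVars false
set_option maxHeartbeats 400000
set_option backward.isDefEq.respectTransparency.types true

attribute [-instance] DivisionRing.toRatAlgebra

namespace Pool.Agent.X307.NR

open WeierstrassCurve NumberField

open Pool.Agent.TH841.NF

open Pool.Agent.Y682 (HF mem_HF em exists_ext)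

open Pool.Agent.TH841.SH.D (Pt act Gal Coch IsCoc IsCob LocTriv cob)

variable {F : Type} [Field F] [NumberField F] [Algebra ℚ F] (e : AlgebraicClosure F ≃+* Qb)

/-- `g` lifts `γ` -/
def Lift (γ : F ≃ₐ[ℚ] F) (g : Gal ℚ) : Prop := ∀ x : F, g (em e x) = em e (γ x)

lemma mem_HF' {g : Gal ℚ} : g ∈ HF e ↔ ∀ x : F, g (em e x) = em e x := Iff.rfl

lemma exists_lift (γ : F ≃ₐ[ℚ] F) : ∃ g : Gal ℚ, Lift e γ g :=
  exists_ext e ((em e).comp (γ : F →+* F))

lemma inv_em {γ : F ≃ₐ[ℚ] F} {g : Gal ℚ} (h : Lift e γ g) (x : F) :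
    g⁻¹ (em e (γ x)) = em e x := by
  rw [← h x]
  exact AlgEquiv.symm_apply_apply g _

lemma lift_norm {γ : F ≃ₐ[ℚ] F} {g : Gal ℚ} (h : Lift e γ g) :
    ∀ k ∈ HF e, g⁻¹ * k * g ∈ HF e := by
  intro k hk
  rw [mem_HF'] at hk ⊢
  intro x
  change g⁻¹ (k (g (em e x))) = em e x
  rw [h x, hk, inv_em e h]

lemma lift_mul {γ γ' : F ≃ₐ[ℚ] F} {g g' : Gal ℚ} (h : Lift e γ g) (h' : Lift e γ' g') :
    Lift e (γ * γ') (g * g') := by
  intro x
  change g (g' (em e x)) = em e (γ (γ' x))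
  rw [h' x, h]

lemma lift_one {g : Gal ℚ} (hg : g ∈ HF e) : Lift e 1 g := fun x => (mem_HF' e).1 hg x

lemma lift_inv {γ : F ≃ₐ[ℚ] F} {g : Gal ℚ} (h : Lift e γ g) : Lift e γ⁻¹ g⁻¹ := by
  intro x
  have h1 := inv_em e h (γ⁻¹ x)
  have h2 : γ (γ⁻¹ x) = x := AlgEquiv.apply_symm_apply γ x
  rwa [h2] at h1

lemma lift_unique {γ : F ≃ₐ[ℚ] F} {g g' : Gal ℚ} (h : Lift e γ g) (h' : Lift e γ g') :
    g⁻¹ * g' ∈ HF e := by
  rw [mem_HF']
  intro x
  change g⁻¹ (g' (em e x)) = em e x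
  rw [h' x, inv_em e h]

lemma lift_inj {γ γ' : F ≃ₐ[ℚ] F} {g : Gal ℚ} (h : Lift e γ g) (h' : Lift e γ' g) : γ = γ' := by
  refine AlgEquiv.ext fun x => ?_
  apply (em e).injective
  rw [← h x, ← h' x]

/-- a lift -/
noncomputable def lf (γ : F ≃ₐ[ℚ] F) : Gal ℚ := (exists_lift e γ).choose

lemma lf_spec (γ : F ≃ₐ[ℚ] F) : Lift e γ (lf e γ) := (exists_lift e γ).choose_spec

variable (E : WeierstrassCurve ℚ)

/-- the action of the automorphisms -/
noncomputable def phi : (F ≃ₐ[ℚ] F) →* AddMonoid.End (QH E (HF e)) where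
  toFun γ := cc (lf e γ) (lift_norm e (lf_spec e γ))
  map_one' := by
    refine AddMonoidHom.ext fun x => ?_
    have h1 : lf e 1 ∈ HF e := (mem_HF' e).2 fun x => lf_spec e 1 x
    exact cc_inner h1 _ x
  map_mul' γ γ' := by
    refine AddMonoidHom.ext fun x => ?_
    have h1 := lift_mul e (lf_spec e γ) (lf_spec e γ')
    refine (cc_congr (lift_unique e (lf_spec e (γ * γ')) h1)
      (lift_norm e (lf_spec e (γ * γ'))) (lift_norm e h1) x).trans ?_
    exact cc_mul (lift_norm e (lf_spec e γ)) (lift_norm e (lf_spec e γ')) (lift_norm e h1) x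

lemma phi_eq {γ : F ≃ₐ[ℚ] F} {g : Gal ℚ} (h : Lift e γ g) (x : QH E (HF e)) :
    phi e E γ x = cc g (lift_norm e h) x :=
  cc_congr (lift_unique e (lf_spec e γ) h) (lift_norm e (lf_spec e γ)) (lift_norm e h) x

/-! ### The subgroup of the fixed field -/

variable (D : Subgroup (F ≃ₐ[ℚ] F))

/-- the subgroup of the lifts of the elements of `D` -/
def HD : Subgroup (Gal ℚ) where
  carrier := {g | ∃ d ∈ D, Lift e d g}
  one_mem' := ⟨1, D.one_mem, lift_one e (HF e).one_mem⟩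
  mul_mem' := by
    rintro g g' ⟨d, hd, h⟩ ⟨d', hd', h'⟩
    exact ⟨d * d', D.mul_mem hd hd', lift_mul e h h'⟩
  inv_mem' := by
    rintro g ⟨d, hd, h⟩
    exact ⟨d⁻¹, D.inv_mem hd, lift_inv e h⟩

lemma le_HD : HF e ≤ HD e D := fun _ hg => ⟨1, D.one_mem, lift_one e hg⟩

lemma norm_HD : ∀ g ∈ HD e D, ∀ h ∈ HF e, g⁻¹ * h * g ∈ HF e := by
  rintro g ⟨d, _, h⟩ k hk
  exact lift_norm e h k hk

lemma open_HF {H' : Subgroup (Gal ℚ)} :
    ∃ T : Finset Qb, ∀ g ∈ H', (∀ x ∈ T, g x = x) → g ∈ HF e := by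
  classical
  let b := Module.finBasis ℚ F
  refine ⟨Finset.univ.image fun i => em e (b i), fun g _ hg => ?_⟩
  rw [mem_HF']
  intro x
  rw [← b.sum_repr x, map_sum, map_sum]
  refine Finset.sum_congr rfl fun i _ => ?_
  have h4 : em e (b.repr x i • b i) = algebraMap ℚ Qb (b.repr x i) * em e (b i) := by
    rw [Algebra.smul_def, map_mul]
    congr 1
    exact rat_hom ((em e).comp (algebraMap ℚ F)) _
  rw [h4, map_mul, AlgEquiv.commutes, hg _ (Finset.mem_image_of_mem _ (Finset.mem_univ i))]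

/-- the element of `D` -/
noncomputable def dOf (g : HD e D) : D := ⟨g.2.choose, g.2.choose_spec.1⟩

lemma dOf_spec (g : HD e D) : Lift e (dOf e D g : F ≃ₐ[ℚ] F) (g : Gal ℚ) := g.2.choose_spec.2

/-- the cosets -/
noncomputable def cosE : (HD e D ⧸ (HF e).subgroupOf (HD e D)) ≃ D :=
  Equiv.ofBijective (fun q => dOf e D (sec ((HF e).subgroupOf (HD e D)) q)) (by
    constructor
    · intro q q' h
      have h1 := dOf_spec e D (sec ((HF e).subgroupOf (HD e D)) q)
      have h2 := dOf_spec e D (sec ((HF e).subgroupOf (HD e D)) q')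
      have h : dOf e D (sec ((HF e).subgroupOf (HD e D)) q) =
        dOf e D (sec ((HF e).subgroupOf (HD e D)) q') := h
      rw [← h] at h2
      rw [← sec_spec ((HF e).subgroupOf (HD e D)) q, ← sec_spec ((HF e).subgroupOf (HD e D)) q',
        QuotientGroup.eq]
      exact lift_unique e h1 h2
    · intro d
      let g : HD e D := ⟨lf e d, d, d.2, lf_spec e d⟩
      refine ⟨(g : HD e D ⧸ (HF e).subgroupOf (HD e D)), Subtype.ext ?_⟩
      have h1 := sec_spec ((HF e).subgroupOf (HD e D)) (g : HD e D ⧸ (HF e).subgroupOf (HD e D))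
      rw [QuotientGroup.eq] at h1
      set s := sec ((HF e).subgroupOf (HD e D)) (g : HD e D ⧸ (HF e).subgroupOf (HD e D)) with hs
      have h2 := dOf_spec e D s
      have h3 : Lift e 1 ((s : Gal ℚ)⁻¹ * (g : Gal ℚ)) := lift_one e h1
      have h4 := lift_mul e h2 h3
      have h5 : (s : Gal ℚ) * ((s : Gal ℚ)⁻¹ * (g : Gal ℚ)) = lf e d := by
        rw [mul_inv_cancel_left]
      rw [h5, mul_one] at h4
      exact lift_inj e h4 (lf_spec e d))

noncomputable instance : Fintype (HD e D ⧸ (HF e).subgroupOf (HD e D)) :=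
  @Fintype.ofEquiv _ _ (Fintype.ofFinite _) (cosE e D).symm

/-- the norm formula -/
lemma res_cores_HD [Fintype D] (x : QH E (HF e)) :
    res (le_HD e D) (cores (open_HF e) x) = ∑ d : D, phi e E (d : F ≃ₐ[ℚ] F) x := by
  rw [res_cores (le_HD e D) (norm_HD e D) (open_HF e) x]
  refine Fintype.sum_equiv (cosE e D) _ _ fun q => ?_
  exact (phi_eq e E (dOf_spec e D (sec ((HF e).subgroupOf (HD e D)) q)) x).symm

/-- extension of embeddings over the fixed field -/
lemma exists_aut (g : Gal ℚ) (hg : ∀ y : F, (∀ d ∈ D, d y = y) → g (em e y) = em e y) :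
    ∃ d ∈ D, Lift e d g :=
  exists_aut' D (em e) (((g : Qb ≃+* Qb) : Qb →+* Qb).comp (em e)) hg

/-- the fixed field -/
lemma HD_eq {M : Type} [Field M] [NumberField M] [Algebra ℚ M] (ι : M →+* F)
    (hι : ∀ y : F, (∀ d ∈ D, d y = y) ↔ ∃ x : M, ι x = y) {e' : AlgebraicClosure M ≃+* Qb}
    (he : ∀ x : M, em e' x = em e (ι x)) : HD e D = HF e' := by
  apply le_antisymm
  · rintro g ⟨d, hd, h⟩
    rw [mem_HF']
    intro x
    have h1 : d (ι x) = ι x := (hι (ι x)).2 ⟨x, rfl⟩ d hd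
    rw [he, h, h1]
  · intro g hg
    rw [mem_HF'] at hg
    refine exists_aut e D g fun y hy => ?_
    obtain ⟨x, rfl⟩ := (hι y).1 hy
    rw [← he, hg x]

/-- the isomorphism for a subfield -/
lemma exists_e' {M : Type} [Field M] [NumberField M] [Algebra M F] [Algebra.IsAlgebraic M F] :
    ∃ e' : AlgebraicClosure M ≃+* Qb, ∀ x : M, em e' x = em e (algebraMap M F x) := by
  have : IsAlgClosure M (AlgebraicClosure F) :=
    IsAlgClosure.ofAlgebraic M F (AlgebraicClosure F)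
  let ι := IsAlgClosure.equiv M (AlgebraicClosure M) (AlgebraicClosure F)
  refine ⟨(ι : AlgebraicClosure M ≃+* AlgebraicClosure F).trans e, fun x => ?_⟩
  change e (ι (algebraMap M (AlgebraicClosure M) x)) = e (algebraMap F _ (algebraMap M F x))
  rw [AlgEquiv.commutes]
  rfl

end Pool.Agent.X307.NR
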