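import Pool.Agent.X307.NR.Cong2

/-!
# General norm relations, and involutions
-/

set_option autoImplicit false
set_option linter.unusedSectionVars false
set_option maxHeartbeats 400000
set_option backward.isDefEq.respectTransparency.types true

namespace Pool.Agent.X307.NR

open WeierstrassCurve NumberField Module

open Pool.Agent.TH841.NF Pool.Agent.X307

open Pool.Agent.Y682 (HF mem_HF em exists_ext)

attribute [local instance] vq

section abs

variable {G : Type} [Group G] [Fintype G] {V : Type} [AddCommGroup V] [Module ℚ V]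
  (ρ : G →* Module.End ℚ V)

/-- a norm which is in the ideal of other norms -/
lemma nrm_of_rel (H : Subgroup G) {ι : Type} (U : ι → Subgroup G)
    (hrel : ∃ (n : ℕ) (a b : Fin n → MonoidAlgebra ℚ G) (s : Fin n → ι),
      nEl H = ∑ j, a j * nEl (U (s j)) * b j)
    (h0 : ∀ i v, Pool.Agent.X328.PB.nrm ρ (U i) v = 0) (v : V) :
    Pool.Agent.X328.PB.nrm ρ H v = 0 := by
  obtain ⟨n, a, b, s, h⟩ := hrel
  rw [← lift_nEl, h]
  simp only [map_sum, map_mul, LinearMap.sum_apply,
    Module.End.mul_apply, lift_nEl, h0, map_zero, Finset.sum_const_zero]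

/-- the subgroup generated by the commutators with `c` -/
def comms {G : Type} [Group G] (c : G) : Subgroup G :=
  Subgroup.closure {x | ∃ g : G, x = g * c * g⁻¹ * c⁻¹}

lemma comms_act {c : G} (hc : ∀ v, ρ c v = -v) {u : G} (hu : u ∈ comms c) (v : V) :
    ρ u v = v := by
  induction hu using Subgroup.closure_induction generalizing v with
  | mem x hx =>
    obtain ⟨g, rfl⟩ := hx
    have h1 : ρ c⁻¹ v = -v := by
      have h2 := hc (ρ c⁻¹ v)
      rw [← Pool.Agent.X328.PB.rep_mul, mul_inv_cancel, map_one] at h2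
      have h3 : v = -(ρ c⁻¹ v) := h2
      conv_rhs => rw [h3]
      rw [neg_neg]
    rw [Pool.Agent.X328.PB.rep_mul, Pool.Agent.X328.PB.rep_mul, Pool.Agent.X328.PB.rep_mul, h1,
      hc, map_neg, map_neg, map_neg, neg_neg, ← Pool.Agent.X328.PB.rep_mul, mul_inv_cancel, map_one]
    rfl
  | one => rw [map_one]; rfl
  | mul x y _ _ hx hy => rw [Pool.Agent.X328.PB.rep_mul, hy, hx]
  | inv x _ hx =>
    have h1 := hx (ρ x⁻¹ v)
    rw [← Pool.Agent.X328.PB.rep_mul, mul_inv_cancel, map_one] at h1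
    exact h1.symm

open Classical in
lemma zero_of_comms {c : G} (hc : c * c = 1)
    (h1 : ∀ v, Pool.Agent.X328.PB.nrm ρ (Subgroup.zpowers c) v = 0)
    (h2 : ∀ v, Pool.Agent.X328.PB.nrm ρ (comms c) v = 0) (v : V) : v = 0 := by
  by_cases h : c = 1
  · subst h
    have h3 := h1 v
    unfold Pool.Agent.X328.PB.nrm at h3
    have h4 : (Finset.univ.filter fun g : G => g ∈ Subgroup.zpowers (1 : G)) = {1} := by
      ext g
      simp
    rw [h4, Finset.sum_singleton, map_one] at h3
    exact h3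
  · have ho : orderOf c = 2 := orderOf_eq_prime (by rw [pow_two, hc]) h
    have hneg : ∀ v, ρ c v = -v := fun v => Pool.Agent.X328.PB.involution_neg ρ ho (h1 v)
    have h3 := h2 v
    unfold Pool.Agent.X328.PB.nrm at h3
    rw [Finset.sum_congr rfl (g := fun _ => v) fun u hu => by
      rw [Finset.mem_filter] at hu
      exact comms_act ρ hneg hu.2 v, Finset.sum_const, ← Nat.cast_smul_eq_nsmul ℚ] at h3
    rcases smul_eq_zero.1 h3 with h4 | h4
    · exfalso
      have h5 : (Finset.univ.filter fun g : G => g ∈ comms c).card = 0 := by exact_mod_cast h4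
      rw [Finset.card_eq_zero] at h5
      have h6 : (1 : G) ∈ Finset.univ.filter fun g : G => g ∈ comms c := by
        simp [(comms c).one_mem]
      rw [h5] at h6
      simp at h6
    · exact h4

end abs

variable {p : ℕ} [hp : Fact p.Prime] {F : Type} [Field F] [NumberField F]
  (e : AlgebraicClosure F ≃+* Qb) {E : WeierstrassCurve ℚ}

/-- **General norm relations.** -/
theorem tq_rel' [Fintype (F ≃ₐ[ℚ] F)] (H : Subgroup (F ≃ₐ[ℚ] F)) {ι : Type}
    (U : ι → Subgroup (F ≃ₐ[ℚ] F))
    (hrel : ∃ (n : ℕ) (a b : Fin n → MonoidAlgebra ℚ (F ≃ₐ[ℚ] F)) (s : Fin n → ι),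
      nEl H = ∑ j, a j * nEl (U (s j)) * b j)
    (h : ∀ i, TQ p E (HD e (U i))) : TQ p E (HD e H) := by
  classical
  intro x
  have h1 := nrm_of_rel (rho p (phi e E)) H U hrel (fun i v => tq_nrm e (U i) (h i) v)
    (V.map (res (le_HD e H)) x)
  have : Fintype H := Fintype.ofFinite H
  have hcr : ∀ a : QH E (HD e H), cores (open_HF e) (res (le_HD e H) a) =
      Fintype.card (HD e H ⧸ (HF e).subgroupOf (HD e H)) • a :=
    cores_res (le_HD e H) (open_HF e)
  set m := Fintype.card (HD e H ⧸ (HF e).subgroupOf (HD e H)) with hm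
  have hm0 : m ≠ 0 := Fintype.card_ne_zero
  have h2 : ∀ n, m • res (le_HD e H) (co (QH E (HD e H)) n x) = 0 := by
    intro n
    have h3 := congrArg (co (QH E (HF e)) n) h1
    rw [nrm_co, map_zero, co_map] at h3
    have h5 : ∑ g : F ≃ₐ[ℚ] F with g ∈ H, phi e E g (res (le_HD e H) (co (QH E (HD e H)) n x)) =
        ∑ d : H, phi e E (d : F ≃ₐ[ℚ] F) (res (le_HD e H) (co (QH E (HD e H)) n x)) :=
      Finset.sum_subtype _ (fun g => by simp) _
    rw [h5, ← res_cores_HD e E H, hcr, map_nsmul] at h3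
    exact h3
  have h4 : (m * m) • x = 0 := by
    apply v_ext
    intro n
    rw [map_nsmul, map_zero, mul_smul]
    calc m • (m • co (QH E (HD e H)) n x)
        = m • cores (open_HF e) (res (le_HD e H) (co (QH E (HD e H)) n x)) := by rw [hcr]
      _ = cores (open_HF e) (m • res (le_HD e H) (co (QH E (HD e H)) n x)) :=
        (map_nsmul _ _ _).symm
      _ = 0 := by rw [h2, map_zero]
  exact nsmul_inj (mul_ne_zero hm0 hm0) h4

/-- involutions -/
theorem tq_comms [Fintype (F ≃ₐ[ℚ] F)] {c : F ≃ₐ[ℚ] F} (hc : c * c = 1)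
    (h1 : TQ p E (HD e (Subgroup.zpowers c))) (h2 : TQ p E (HD e (comms c))) :
    TQ p E (HF e) := fun x =>
  zero_of_comms (rho p (phi e E)) hc (fun v => tq_nrm e _ h1 v) (fun v => tq_nrm e _ h2 v) x

variable {A B : ℚ}

theorem aj_rel' (h : 4 * A ^ 3 + 27 * B ^ 2 ≠ 0) (F : Type) [Field F] [NumberField F]
    [Fintype (F ≃ₐ[ℚ] F)] (H : Subgroup (F ≃ₐ[ℚ] F)) {ι : Type} (U : ι → Subgroup (F ≃ₐ[ℚ] F))
    (hrel : ∃ (n : ℕ) (a b : Fin n → MonoidAlgebra ℚ (F ≃ₐ[ℚ] F)) (s : Fin n → ι),
      nEl H = ∑ j, a j * nEl (U (s j)) * b j)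
    (hU : ∀ i, AJIso p (Ec A B (IntermediateField.fixedField (U i)))) :
    AJIso p (Ec A B (IntermediateField.fixedField H)) := by
  obtain ⟨e⟩ := exists_e F
  rw [aj_iff h, tz_fixedField e H]
  exact tq_rel' e H U hrel fun i => (tz_fixedField e (U i)).1 ((aj_iff h _).1 (hU i))

theorem aj_comms (h : 4 * A ^ 3 + 27 * B ^ 2 ≠ 0) (F : Type) [Field F] [NumberField F]
    {c : F ≃ₐ[ℚ] F} (hc : c * c = 1)
    (h1 : AJIso p (Ec A B (IntermediateField.fixedField (Subgroup.zpowers c))))
    (h2 : AJIso p (Ec A B (IntermediateField.fixedField (comms c)))) : AJIso p (Ec A B F) := by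
  obtain ⟨e⟩ := exists_e F
  have : Fintype (F ≃ₐ[ℚ] F) := Fintype.ofFinite _
  rw [aj_iff h, tz_iff e (sc_Ec A B F)]
  exact tq_comms e hc ((tz_fixedField e _).1 ((aj_iff h _).1 h1))
    ((tz_fixedField e _).1 ((aj_iff h _).1 h2))

lemma nEl_bot {G : Type} [Group G] [Fintype G] : nEl (⊥ : Subgroup G) = 1 := by
  classical
  unfold nEl
  have h4 : (Finset.univ.filter fun g : G => g ∈ (⊥ : Subgroup G)) = {1} := by
    ext g
    simp [Subgroup.mem_bot]
  rw [h4, Finset.sum_singleton]
  rfl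

/-- the homomorphism of the fixed fields -/
def fixedHom {F : Type} [Field F] [NumberField F] {U U' : Subgroup (F ≃ₐ[ℚ] F)} (h : U ≤ U') :
    IntermediateField.fixedField U' →+* IntermediateField.fixedField U :=
  (IntermediateField.inclusion (show IntermediateField.fixedField U' ≤
    IntermediateField.fixedField U from fun _ hx g => hx ⟨g.1, h g.2⟩) :
      IntermediateField.fixedField U' →+* IntermediateField.fixedField U)

end Pool.Agent.X307.NR
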