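import Pool.Agent.Y682.Rst

/-!
# Locally trivial cohomology classes of subgroups of the absolute Galois group of `ℚ`

For a subgroup `H` of `Gal(ℚ̄/ℚ)` and a curve `E` over `ℚ` the group `QH E H` of the continuous
cocycles of `H` with values in `E(ℚ̄)` that are locally trivial at all the places, modulo
coboundaries. Conjugation and restriction.
-/

set_option autoImplicit false
set_option linter.unusedSectionVars false

attribute [-instance] DivisionRing.toRatAlgebra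

namespace Pool.Agent.X307.NR

open WeierstrassCurve

open Pool.Agent.TH841.NF

open Pool.Agent.TH841.SH.D (Pt act Gal Coch IsCoc IsCob LocTriv cob)

/-- local triviality over the extensions of `K` -/
def EmbH (E : WeierstrassCurve ℚ) (H : Subgroup (Gal ℚ)) (K : Type) [Field K] [Algebra ℚ K]
    (f : Coch E) : Prop :=
  ∀ j : Qb →ₐ[ℚ] AlgebraicClosure K, ∃ P : Pt E (AlgebraicClosure K), ∀ (τ : Gal K) (h : Gal ℚ),
    h ∈ H → (τ.toAlgHom.restrictScalars ℚ).comp j = j.comp h.toAlgHom →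
      act E j (f h) = aL E K τ P - P

/-- locally trivial continuous cocycles of `H` -/
structure IsZ (E : WeierstrassCurve ℚ) (H : Subgroup (Gal ℚ)) (f : Coch E) : Prop where
  mul : ∀ x ∈ H, ∀ y ∈ H, f (x * y) = f x + aG E x (f y)
  fin : ∃ S : Finset Qb, ∀ g ∈ H, (∀ x ∈ S, g x = x) → f g = 0
  pad : ∀ (p : ℕ) [Fact p.Prime] (_ : Algebra ℚ ℚ_[p]), EmbH E H ℚ_[p] f
  rl : ∀ _ : Algebra ℚ ℝ, EmbH E H ℝ f

section grp

variable {E : WeierstrassCurve ℚ} {H : Subgroup (Gal ℚ)}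

lemma emb_zero {K : Type} [Field K] [Algebra ℚ K] : EmbH E H K 0 := fun j =>
  ⟨0, fun τ h _ _ => by
    change act E j 0 = aL E K τ 0 - 0
    rw [map_zero, map_zero, sub_zero]⟩

lemma emb_add {K : Type} [Field K] [Algebra ℚ K] {f g : Coch E} (hf : EmbH E H K f)
    (hg : EmbH E H K g) : EmbH E H K (f + g) := by
  intro j
  obtain ⟨P, hP⟩ := hf j
  obtain ⟨Q, hQ⟩ := hg j
  refine ⟨P + Q, fun τ h hh hc => ?_⟩
  change act E j (f h + g h) = _
  rw [map_add, hP τ h hh hc, hQ τ h hh hc, map_add]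
  abel

lemma emb_neg {K : Type} [Field K] [Algebra ℚ K] {f : Coch E} (hf : EmbH E H K f) :
    EmbH E H K (-f) := by
  intro j
  obtain ⟨P, hP⟩ := hf j
  refine ⟨-P, fun τ h hh hc => ?_⟩
  change act E j (-f h) = _
  rw [map_neg, hP τ h hh hc, map_neg]
  abel

lemma isZ_zero : IsZ E H 0 where
  mul := fun x _ y _ => by
    change (0 : Pt E Qb) = 0 + aG E x 0
    rw [map_zero, add_zero]
  fin := ⟨∅, fun _ _ _ => rfl⟩
  pad := fun _ _ _ => emb_zero
  rl := fun _ => emb_zero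

lemma isZ_add {f g : Coch E} (hf : IsZ E H f) (hg : IsZ E H g) : IsZ E H (f + g) where
  mul := fun x hx y hy => by
    change f (x * y) + g (x * y) = f x + g x + aG E x (f y + g y)
    rw [hf.mul x hx y hy, hg.mul x hx y hy, map_add]
    abel
  fin := by
    classical
    obtain ⟨S, hS⟩ := hf.fin
    obtain ⟨T, hT⟩ := hg.fin
    refine ⟨S ∪ T, fun h hh hx => ?_⟩
    change f h + g h = 0
    rw [hS h hh fun x h' => hx x (Finset.mem_union_left _ h'),
      hT h hh fun x h' => hx x (Finset.mem_union_right _ h'), add_zero]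
  pad := fun p _ i => emb_add (hf.pad p i) (hg.pad p i)
  rl := fun i => emb_add (hf.rl i) (hg.rl i)

lemma isZ_neg {f : Coch E} (hf : IsZ E H f) : IsZ E H (-f) where
  mul := fun x hx y hy => by
    change -f (x * y) = -f x + aG E x (-f y)
    rw [hf.mul x hx y hy, map_neg]
    abel
  fin := by
    obtain ⟨S, hS⟩ := hf.fin
    refine ⟨S, fun h hh hx => ?_⟩
    change -f h = 0
    rw [hS h hh hx, neg_zero]
  pad := fun p _ i => emb_neg (hf.pad p i)
  rl := fun i => emb_neg (hf.rl i)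

variable (E H)

/-- the cocycles -/
def ZH : AddSubgroup (Coch E) where
  carrier := {f | IsZ E H f}
  zero_mem' := isZ_zero
  add_mem' := isZ_add
  neg_mem' := isZ_neg

/-- the functions which are coboundaries on `H` -/
def BH : AddSubgroup (Coch E) where
  carrier := {f | ∃ P : Pt E Qb, ∀ h ∈ H, f h = aG E h P - P}
  zero_mem' := ⟨0, fun h _ => by
    change (0 : Pt E Qb) = _
    rw [map_zero, sub_zero]⟩
  add_mem' := by
    rintro f g ⟨P, hP⟩ ⟨Q, hQ⟩
    refine ⟨P + Q, fun h hh => ?_⟩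
    change f h + g h = _
    rw [hP h hh, hQ h hh, map_add]
    abel
  neg_mem' := by
    rintro f ⟨P, hP⟩
    refine ⟨-P, fun h hh => ?_⟩
    change -f h = _
    rw [hP h hh, map_neg]
    abel

/-- the locally trivial classes -/
def QH : Type := ZH E H ⧸ (BH E H).addSubgroupOf (ZH E H)

noncomputable instance QH.group : AddCommGroup (QH E H) :=
  @QuotientAddGroup.Quotient.addCommGroup (ZH E H) _ ((BH E H).addSubgroupOf (ZH E H))

variable {E H}

/-- the class of a cocycle -/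
noncomputable def cls (f : Coch E) (hf : IsZ E H f) : QH E H :=
  QuotientAddGroup.mk' ((BH E H).addSubgroupOf (ZH E H)) ⟨f, hf⟩

lemma cls_surj (x : QH E H) : ∃ (f : Coch E) (hf : IsZ E H f), cls f hf = x := by
  obtain ⟨⟨f, hf⟩, h⟩ := QuotientAddGroup.mk'_surjective ((BH E H).addSubgroupOf (ZH E H)) x
  exact ⟨f, hf, h⟩

lemma cls_eq {f g : Coch E} (hf : IsZ E H f) (hg : IsZ E H g) :
    cls f hf = cls g hg ↔ ∃ P : Pt E Qb, ∀ h ∈ H, f h - g h = aG E h P - P := by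
  have h0 : cls f hf = cls g hg ↔ -(⟨f, hf⟩ : ZH E H) + ⟨g, hg⟩ ∈
      (BH E H).addSubgroupOf (ZH E H) := QuotientAddGroup.eq
  rw [h0]
  constructor
  · rintro ⟨P, hP⟩
    refine ⟨-P, fun a ha => ?_⟩
    have h2 : -f a + g a = aG E a P - P := hP a ha
    rw [map_neg]
    have h3 : f a - g a = -(-f a + g a) := by abel
    rw [h3, h2]
    abel
  · rintro ⟨P, hP⟩
    refine ⟨-P, fun a ha => ?_⟩
    change -f a + g a = _
    rw [map_neg]
    have h3 : -f a + g a = -(f a - g a) := by abel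
    rw [h3, hP a ha]
    abel

lemma cls_zero_iff {f : Coch E} (hf : IsZ E H f) :
    cls f hf = 0 ↔ ∃ P : Pt E Qb, ∀ h ∈ H, f h = aG E h P - P := by
  have h0 : (0 : QH E H) = cls 0 isZ_zero := rfl
  rw [h0, cls_eq]
  constructor
  · rintro ⟨P, hP⟩
    refine ⟨P, fun h hh => ?_⟩
    have := hP h hh
    have h1 : f h - (0 : Coch E) h = f h := sub_zero _
    rwa [h1] at this
  · rintro ⟨P, hP⟩
    refine ⟨P, fun h hh => ?_⟩
    have h1 : f h - (0 : Coch E) h = f h := sub_zero _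
    rw [h1]
    exact hP h hh

lemma cls_add {f g : Coch E} (hf : IsZ E H f) (hg : IsZ E H g) :
    cls f hf + cls g hg = cls (f + g) (isZ_add hf hg) := rfl

/-- a map on classes given by an additive map on functions -/
noncomputable def mkMap {H' : Subgroup (Gal ℚ)} (φ : Coch E →+ Coch E)
    (h1 : ∀ f, IsZ E H f → IsZ E H' (φ f))
    (h2 : ∀ f, IsZ E H f → (∃ P : Pt E Qb, ∀ h ∈ H, f h = aG E h P - P) →
      ∃ P : Pt E Qb, ∀ h ∈ H', φ f h = aG E h P - P) : QH E H →+ QH E H' :=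
  QuotientAddGroup.map ((BH E H).addSubgroupOf (ZH E H)) ((BH E H').addSubgroupOf (ZH E H'))
    { toFun := fun f => (⟨φ f.1, h1 f.1 f.2⟩ : ZH E H')
      map_zero' := Subtype.ext (map_zero φ)
      map_add' := fun f g => Subtype.ext (map_add φ f.1 g.1) }
    (fun f hf => h2 f.1 f.2 hf)

lemma mkMap_cls {H' : Subgroup (Gal ℚ)} (φ : Coch E →+ Coch E)
    (h1 : ∀ f, IsZ E H f → IsZ E H' (φ f))
    (h2 : ∀ f, IsZ E H f → (∃ P : Pt E Qb, ∀ h ∈ H, f h = aG E h P - P) →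
      ∃ P : Pt E Qb, ∀ h ∈ H', φ f h = aG E h P - P) (f : Coch E) (hf : IsZ E H f) :
    mkMap φ h1 h2 (cls f hf) = cls (φ f) (h1 f hf) := rfl

/-- restriction -/
noncomputable def res {H' : Subgroup (Gal ℚ)} (hle : H ≤ H') : QH E H' →+ QH E H :=
  mkMap (AddMonoidHom.id _)
    (fun f hf => ⟨fun x hx y hy => hf.mul x (hle hx) y (hle hy), by
        obtain ⟨S, hS⟩ := hf.fin
        exact ⟨S, fun g hg => hS g (hle hg)⟩,
      fun p _ i j => by
        obtain ⟨P, hP⟩ := hf.pad p i j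
        exact ⟨P, fun τ h hh => hP τ h (hle hh)⟩,
      fun i j => by
        obtain ⟨P, hP⟩ := hf.rl i j
        exact ⟨P, fun τ h hh => hP τ h (hle hh)⟩⟩)
    (fun f _ ⟨P, hP⟩ => ⟨P, fun h hh => hP h (hle hh)⟩)

lemma isZ_res {H' : Subgroup (Gal ℚ)} (hle : H ≤ H') {f : Coch E} (hf : IsZ E H' f) :
    IsZ E H f :=
  ⟨fun x hx y hy => hf.mul x (hle hx) y (hle hy), by
    obtain ⟨S, hS⟩ := hf.fin
    exact ⟨S, fun g hg => hS g (hle hg)⟩,
  fun p _ i j => by
    obtain ⟨P, hP⟩ := hf.pad p i j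
    exact ⟨P, fun τ h hh => hP τ h (hle hh)⟩,
  fun i j => by
    obtain ⟨P, hP⟩ := hf.rl i j
    exact ⟨P, fun τ h hh => hP τ h (hle hh)⟩⟩

lemma res_cls {H' : Subgroup (Gal ℚ)} (hle : H ≤ H') {f : Coch E} (hf : IsZ E H' f) :
    res hle (cls f hf) = cls f (isZ_res hle hf) := rfl

end grp

/-! ### Conjugation -/

section conj

variable {E : WeierstrassCurve ℚ} {H : Subgroup (Gal ℚ)}

/-- conjugation of functions -/
noncomputable def cj (E : WeierstrassCurve ℚ) (g : Gal ℚ) : Coch E →+ Coch E where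
  toFun f := fun h => aG E g (f (g⁻¹ * h * g))
  map_zero' := by
    funext h
    exact map_zero _
  map_add' f f' := by
    funext h
    exact map_add _ _ _

lemma cj_apply (g : Gal ℚ) (f : Coch E) (h : Gal ℚ) :
    cj E g f h = aG E g (f (g⁻¹ * h * g)) := rfl

lemma cj_emb {g : Gal ℚ} (hg : ∀ h ∈ H, g⁻¹ * h * g ∈ H) {K : Type} [Field K] [Algebra ℚ K]
    {f : Coch E} (hf : EmbH E H K f) : EmbH E H K (cj E g f) := by
  intro j
  obtain ⟨P, hP⟩ := hf (j.comp g.toAlgHom)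
  refine ⟨P, fun τ h hh hc => ?_⟩
  have h1 := hP τ (g⁻¹ * h * g) (hg h hh) (by
    have h2 : (τ.toAlgHom.restrictScalars ℚ).comp (j.comp g.toAlgHom) =
      (j.comp h.toAlgHom).comp g.toAlgHom := by
      rw [← hc]
      rfl
    rw [h2]
    refine AlgHom.ext fun x => ?_
    change j (h (g x)) = j (g ((g⁻¹ * h * g) x))
    congr 1
    change h (g x) = g (g.symm (h (g x)))
    rw [AlgEquiv.apply_symm_apply])
  rw [← h1]
  exact act_act E j g.toAlgHom (f (g⁻¹ * h * g))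

lemma cj_isZ {g : Gal ℚ} (hg : ∀ h ∈ H, g⁻¹ * h * g ∈ H) {f : Coch E} (hf : IsZ E H f) :
    IsZ E H (cj E g f) where
  mul := by
    intro x hx y hy
    rw [cj_apply, cj_apply, cj_apply]
    have h1 : g⁻¹ * (x * y) * g = (g⁻¹ * x * g) * (g⁻¹ * y * g) := by group
    rw [h1, hf.mul _ (hg x hx) _ (hg y hy), map_add, ← a_mul, ← a_mul]
    congr 3
    group
  fin := by
    classical
    obtain ⟨S, hS⟩ := hf.fin
    refine ⟨S.image g, fun h hh hx => ?_⟩
    rw [cj_apply, hS _ (hg h hh), map_zero]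
    intro x hxS
    change g.symm (h (g x)) = x
    rw [hx _ (Finset.mem_image_of_mem _ hxS), AlgEquiv.symm_apply_apply]
  pad := fun p _ i => cj_emb hg (hf.pad p i)
  rl := fun i => cj_emb hg (hf.rl i)

/-- conjugation of classes -/
noncomputable def cc (g : Gal ℚ) (hg : ∀ h ∈ H, g⁻¹ * h * g ∈ H) : QH E H →+ QH E H :=
  mkMap (cj E g) (fun _ hf => cj_isZ hg hf) (by
    rintro f _ ⟨P, hP⟩
    refine ⟨aG E g P, fun h hh => ?_⟩
    rw [cj_apply, hP _ (hg h hh), map_sub, ← a_mul, ← a_mul]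
    congr 3
    group)

lemma cc_cls {g : Gal ℚ} (hg : ∀ h ∈ H, g⁻¹ * h * g ∈ H) {f : Coch E} (hf : IsZ E H f) :
    cc g hg (cls f hf) = cls (cj E g f) (cj_isZ hg hf) := rfl

lemma cc_mul {g g' : Gal ℚ} (hg : ∀ h ∈ H, g⁻¹ * h * g ∈ H) (hg' : ∀ h ∈ H, g'⁻¹ * h * g' ∈ H)
    (hgg : ∀ h ∈ H, (g * g')⁻¹ * h * (g * g') ∈ H) (x : QH E H) :
    cc (g * g') hgg x = cc g hg (cc g' hg' x) := by
  obtain ⟨f, hf, rfl⟩ := cls_surj x
  rw [cc_cls, cc_cls, cc_cls, cls_eq]
  refine ⟨0, fun h hh => ?_⟩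
  have h1 : (g * g')⁻¹ * h * (g * g') = g'⁻¹ * (g⁻¹ * h * g) * g' := by group
  rw [map_zero, sub_zero, sub_eq_zero, cj_apply, cj_apply, cj_apply, a_mul, h1]

lemma cc_inner {g : Gal ℚ} (hgH : g ∈ H) (hg : ∀ h ∈ H, g⁻¹ * h * g ∈ H) (x : QH E H) :
    cc g hg x = x := by
  obtain ⟨f, hf, rfl⟩ := cls_surj x
  rw [cc_cls, cls_eq]
  refine ⟨f g, fun h hh => ?_⟩
  rw [cj_apply]
  have h1 : h * g = g * (g⁻¹ * h * g) := by group
  have h2 := hf.mul h hh g hgH
  rw [h1, hf.mul g hgH _ (hg h hh)] at h2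
  have h3 : aG E g (f (g⁻¹ * h * g)) = f h + aG E h (f g) - f g := by
    rw [← h2]
    abel
  rw [h3]
  abel

lemma cc_congr {g g' : Gal ℚ} (hgg : g⁻¹ * g' ∈ H) (hg : ∀ h ∈ H, g⁻¹ * h * g ∈ H)
    (hg' : ∀ h ∈ H, g'⁻¹ * h * g' ∈ H) (x : QH E H) : cc g hg x = cc g' hg' x := by
  have hk : ∀ h ∈ H, (g⁻¹ * g')⁻¹ * h * (g⁻¹ * g') ∈ H := fun h hh =>
    H.mul_mem (H.mul_mem (H.inv_mem hgg) hh) hgg
  have h1 : g' = g * (g⁻¹ * g') := by group
  have h2 : cc g' hg' x = cc g hg (cc (g⁻¹ * g') hk x) := by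
    rw [← cc_mul hg hk (by rw [← h1]; exact hg')]
    congr
  rw [h2, cc_inner hgg]

end conj

end Pool.Agent.X307.NR
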