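import Pool.Agent.X307.VMod
import Pool.Agent.X328.PB.Alg

/-!
# Norms on the rational Tate module of a group with operators
-/

set_option autoImplicit false
set_option linter.unusedSectionVars false
set_option maxHeartbeats 400000

namespace Pool.Agent.X307.NR

open Pool.Agent.X307

variable {p : ℕ} [hp : Fact p.Prime] {A B : Type} [AddCommGroup A] [AddCommGroup B]

/-- the `n`-th coordinate -/
def co (A : Type) [AddCommGroup A] (n : ℕ) : V p A →+ A where
  toFun x := x.1 n
  map_zero' := rfl
  map_add' _ _ := rfl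

omit hp in
lemma co_map [Fact p.Prime] (f : A →+ B) (n : ℕ) (x : V p A) :
    co B n (V.map f x) = f (co A n x) := rfl

omit hp in
lemma v_ext {x y : V p A} (h : ∀ n, co A n x = co A n y) : x = y := V.ext_of h

/-- multiplication by `n > 0` is injective -/
lemma nsmul_inj {n : ℕ} (hn : n ≠ 0) {x : V p A} (h : n • x = 0) : x = 0 := by
  have h1 : ((n : ℚ_[p]) : ℚ_[p]) • x = 0 := by
    rw [Nat.cast_smul_eq_nsmul]
    exact h
  rcases smul_eq_zero.1 h1 with h2 | h2
  · exact absurd (by exact_mod_cast h2) hn
  · exact h2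

/-- a map with a right inverse up to a positive integer -/
lemma zero_of_comp (f : A →+ B) (g : B →+ A) {n : ℕ} (hn : n ≠ 0) (hgf : ∀ a, g (f a) = n • a)
    (h0 : ∀ s : V p B, s = 0) : ∀ s : V p A, s = 0 := by
  intro s
  apply nsmul_inj hn
  apply v_ext
  intro k
  rw [map_nsmul, map_zero]
  have h1 : f (co A k s) = 0 := by
    rw [← co_map, h0 (V.map f s), map_zero]
  rw [← hgf, h1, map_zero]

lemma zero_iff_of_equiv (f : A ≃+ B) : (∀ s : V p A, s = 0) ↔ ∀ s : V p B, s = 0 :=
  ⟨zero_of_comp (f.symm : B →+ A) (f : A →+ B) one_ne_zero fun a => by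
      rw [one_smul]
      exact f.apply_symm_apply a,
    zero_of_comp (f : A →+ B) (f.symm : B →+ A) one_ne_zero fun a => by
      rw [one_smul]
      exact f.symm_apply_apply a⟩

/-- the vector space over the rational numbers -/
noncomputable def vq (p : ℕ) [Fact p.Prime] (A : Type) [AddCommGroup A] : Module ℚ (V p A) :=
  Module.compHom (V p A) (Rat.castHom ℚ_[p])

attribute [local instance] vq

/-- the representation -/
noncomputable def rho (p : ℕ) [Fact p.Prime] {G : Type} [Group G] (φ : G →* AddMonoid.End A) :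
    G →* Module.End ℚ (V p A) where
  toFun g := AddMonoidHom.toRatLinearMap ((V.map (p := p) (φ g)).toAddMonoidHom)
  map_one' := by
    refine LinearMap.ext fun x => v_ext fun n => ?_
    change co A n (V.map (φ 1) x) = co A n x
    rw [co_map, map_one]
    rfl
  map_mul' g h := by
    refine LinearMap.ext fun x => v_ext fun n => ?_
    change co A n (V.map (φ (g * h)) x) = co A n (V.map (φ g) (V.map (φ h) x))
    rw [co_map, co_map, co_map, map_mul]
    rfl

open Classical in
lemma nrm_co {G : Type} [Group G] [Fintype G] (φ : G →* AddMonoid.End A) (D : Subgroup G)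
    (x : V p A) (n : ℕ) :
    co A n (Pool.Agent.X328.PB.nrm (rho p φ) D x) = ∑ g : G with g ∈ D, φ g (co A n x) := by
  unfold Pool.Agent.X328.PB.nrm
  rw [map_sum]
  rfl

/-- the norm vanishes if it comes from a group with trivial Tate module -/
lemma nrm_zero {G : Type} [Group G] [Fintype G] (φ : G →* AddMonoid.End A) (D : Subgroup G)
    [Fintype D] (f : A →+ B) (g : B →+ A) (hgf : ∀ a, g (f a) = ∑ d : D, φ (d : G) a)
    (h0 : ∀ s : V p B, s = 0) (x : V p A) : Pool.Agent.X328.PB.nrm (rho p φ) D x = 0 := by
  classical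
  apply v_ext
  intro n
  rw [nrm_co, map_zero]
  have h1 : f (co A n x) = 0 := by
    rw [← co_map, h0 (V.map f x), map_zero]
  have h2 := hgf (co A n x)
  rw [h1, map_zero] at h2
  rw [h2]
  exact Finset.sum_subtype _ (fun g => by simp) _

end Pool.Agent.X307.NR
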