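import Pool.Agent.X307.NR.GalD
import Pool.Agent.X307.NR.VN

/-!
# Norm relations for the rational Tate modules of the Tate–Shafarevich groups
-/

set_option autoImplicit false
set_option linter.unusedSectionVars false
set_option maxHeartbeats 400000
set_option backward.isDefEq.respectTransparency.types true

attribute [-instance] DivisionRing.toRatAlgebra

namespace Pool.Agent.X307.NR

open WeierstrassCurve NumberField

open Pool.Agent.TH841.NF Pool.Agent.X307

open Pool.Agent.Y682 (HF mem_HF em exists_ext)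

open Pool.Agent.TH841.SH.D (Pt act Gal Coch IsCoc IsCob LocTriv cob)

/-- the rational `p`-adic Tate module of the Tate–Shafarevich group vanishes -/
def TZ (p : ℕ) [Fact p.Prime] {F : Type} [Field F] [NumberField F] (W : WeierstrassCurve F) :
    Prop := ∀ s : V p (Pool.Agent.TH841.NF.D.Sha W), s = 0

/-- the same for classes of a subgroup -/
def TQ (p : ℕ) [Fact p.Prime] (E : WeierstrassCurve ℚ) (H : Subgroup (Gal ℚ)) : Prop :=
  ∀ s : V p (QH E H), s = 0

variable {p : ℕ} [hp : Fact p.Prime] {F : Type} [Field F] [NumberField F] [Algebra ℚ F]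
  (e : AlgebraicClosure F ≃+* Qb) {E : WeierstrassCurve ℚ} {W : WeierstrassCurve F}

lemma tz_iff (hW : Sc (algebraMap ℚ F) 1 E W) : TZ p W ↔ TQ p E (HF e) :=
  zero_iff_of_equiv (shaEquiv hW e)

variable (D : Subgroup (F ≃ₐ[ℚ] F))

lemma tz_fixed {M : Type} [Field M] [NumberField M] [Algebra ℚ M] [Algebra M F]
    [Algebra.IsAlgebraic M F]
    (hι : ∀ y : F, (∀ d ∈ D, d y = y) ↔ ∃ x : M, algebraMap M F x = y)
    {W' : WeierstrassCurve M} (hW' : Sc (algebraMap ℚ M) 1 E W') :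
    TZ p W' ↔ TQ p E (HD e D) := by
  obtain ⟨e', he⟩ := exists_e' e (M := M)
  rw [HD_eq e D (algebraMap M F) hι he]
  exact tz_iff e' hW'

lemma tq_desc (h : TQ p E (HF e)) : TQ p E (HD e D) :=
  zero_of_comp (res (le_HD e D)) (cores (open_HF e)) Fintype.card_ne_zero
    (cores_res (le_HD e D) (open_HF e)) h

attribute [local instance] vq

lemma tq_nrm [Fintype (F ≃ₐ[ℚ] F)] (h : TQ p E (HD e D)) (x : V p (QH E (HF e))) :
    Pool.Agent.X328.PB.nrm (rho p (phi e E)) D x = 0 := by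
  classical
  have : Fintype D := Fintype.ofFinite D
  exact nrm_zero (phi e E) D (cores (open_HF e)) (res (le_HD e D)) (res_cores_HD e E D) h x

/-- **Norm relations.** -/
theorem tq_partition [Fintype (F ≃ₐ[ℚ] F)] {ι : Type} [Fintype ι]
    (H : ι → Subgroup (F ≃ₐ[ℚ] F)) (K : Subgroup (F ≃ₐ[ℚ] F)) (hι : 2 ≤ Fintype.card ι)
    (hle : ∀ i, H i ≤ K) (hpart : ∀ k ∈ K, k ≠ 1 → ∃! i, k ∈ H i)
    (h : ∀ i, TQ p E (HD e (H i))) : TQ p E (HF e) := fun x =>
  Pool.Agent.X328.PB.eq_zero_of_partition (rho p (phi e E)) H K hι hle hpart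
    fun i => tq_nrm e (H i) (h i) x

/-- **The structure of the automorphism group.** -/
theorem tq_structure [Fintype (F ≃ₐ[ℚ] F)] (h0 : ¬ TQ p E (HF e))
    (h : ∀ P : Subgroup (F ≃ₐ[ℚ] F), (Nat.card P).Prime → TQ p E (HD e P)) :
    (∀ (K : Subgroup (F ≃ₐ[ℚ] F)) (q r : ℕ), q.Prime → r.Prime → Nat.card K = q * r →
      IsCyclic K) ∧
    (∀ K : Subgroup (F ≃ₐ[ℚ] F), (∀ a ∈ K, ∀ b ∈ K, a * b = b * a) → IsCyclic K) ∧
    ∀ σ τ : F ≃ₐ[ℚ] F, orderOf σ = 2 → orderOf τ = 2 → σ = τ := by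
  obtain ⟨v, hv⟩ := not_forall.1 h0
  exact (Pool.Agent.X328.PB.structure_of_group (rho p (phi e E)) hv
    fun P hP => tq_nrm e P (h P hP) v).2

end Pool.Agent.X307.NR
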