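import Pool.Agent.X307.NR.Main

/-!
# Descent to subfields, and norm relations in the group ring
-/

set_option autoImplicit false
set_option linter.unusedSectionVars false
set_option maxHeartbeats 400000
set_option backward.isDefEq.respectTransparency.types true

attribute [-instance] DivisionRing.toRatAlgebra

namespace Pool.Agent.X307.NR

open WeierstrassCurve NumberField

open Pool.Agent.TH841.NF Pool.Agent.X307

open Pool.Agent.Y682 (HF mem_HF em exists_ext)

open Pool.Agent.TH841.SH.D (Pt act Gal Coch IsCoc IsCob LocTriv cob)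

lemma exists_e (F : Type) [Field F] [NumberField F] [Algebra ℚ F] :
    Nonempty (AlgebraicClosure F ≃+* Qb) := by
  have h0 : Algebra.IsAlgebraic ℚ F := by
    have h1 := NumberField.isAlgebraic F
    convert h1
    exact Subsingleton.elim _ _
  have i3 : Algebra.IsAlgebraic ℚ (AlgebraicClosure F) := Algebra.IsAlgebraic.trans ℚ F _
  have i4 : IsAlgClosure ℚ (AlgebraicClosure F) := ⟨inferInstance, i3⟩
  exact ⟨(IsAlgClosure.equiv ℚ (AlgebraicClosure F) Qb).toRingEquiv⟩

variable {p : ℕ} [hp : Fact p.Prime] {F : Type} [Field F] [NumberField F] [Algebra ℚ F]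
  (e : AlgebraicClosure F ≃+* Qb) {E : WeierstrassCurve ℚ} {W : WeierstrassCurve F}

lemma exists_e'' {M : Type} [Field M] [NumberField M] [Algebra ℚ M] (f : M →+* F) :
    ∃ e' : AlgebraicClosure M ≃+* Qb, em e' = (em e).comp f := by
  obtain ⟨e0⟩ := exists_e M
  have h := exists_ext (F := M) e0 (RingHom.comp (em e) f)
  obtain ⟨g, hg⟩ := h
  exact ⟨e0.trans (g : Qb ≃+* Qb), RingHom.ext hg⟩

/-- descent to subfields -/
theorem tz_sub {M : Type} [Field M] [NumberField M] [Algebra ℚ M] (f : M →+* F)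
    {W' : WeierstrassCurve M} (hW : Sc (algebraMap ℚ F) 1 E W)
    (hW' : Sc (algebraMap ℚ M) 1 E W') (h : TZ p W) : TZ p W' := by
  obtain ⟨e⟩ := exists_e F
  obtain ⟨e', he⟩ := exists_e'' e f
  rw [tz_iff e hW] at h
  rw [tz_iff e' hW']
  have hle : HF e ≤ HF e' := by
    intro g hg
    rw [mem_HF'] at hg ⊢
    intro x
    rw [he]
    exact hg (f x)
  have : (HF e).FiniteIndex := Subgroup.finiteIndex_of_finite_quotient
  have : Fintype (HF e' ⧸ (HF e).subgroupOf (HF e')) := Fintype.ofFinite _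
  exact zero_of_comp (res hle) (cores (open_HF e)) Fintype.card_ne_zero
    (cores_res hle (open_HF e)) h

variable (D : Subgroup (F ≃ₐ[ℚ] F))

attribute [local instance] vq

open Classical in
/-- the sum of the elements of a subgroup in the group ring -/
noncomputable def nEl {G : Type} [Group G] [Fintype G] (H : Subgroup G) : MonoidAlgebra ℚ G :=
  ∑ g : G with g ∈ H, MonoidAlgebra.single g 1

lemma lift_nEl {G : Type} [Group G] [Fintype G] {V : Type} [AddCommGroup V] [Module ℚ V]
    (ρ : G →* Module.End ℚ V) (H : Subgroup G) (v : V) :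
    MonoidAlgebra.lift ℚ (Module.End ℚ V) G ρ (nEl H) v = Pool.Agent.X328.PB.nrm ρ H v := by
  classical
  unfold nEl Pool.Agent.X328.PB.nrm
  rw [map_sum, LinearMap.sum_apply]
  refine Finset.sum_congr rfl fun g _ => ?_
  rw [MonoidAlgebra.lift_single, one_smul]

/-- a vector is killed if the norms kill all vectors, and there is a norm relation -/
lemma zero_of_rel {G : Type} [Group G] [Fintype G] {V : Type} [AddCommGroup V] [Module ℚ V]
    (ρ : G →* Module.End ℚ V) {ι : Type} (H : ι → Subgroup G)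
    (hrel : ∃ (n : ℕ) (a b : Fin n → MonoidAlgebra ℚ G) (s : Fin n → ι),
      (1 : MonoidAlgebra ℚ G) = ∑ j, a j * nEl (H (s j)) * b j)
    (h0 : ∀ i v, Pool.Agent.X328.PB.nrm ρ (H i) v = 0) (v : V) : v = 0 := by
  obtain ⟨n, a, b, s, h⟩ := hrel
  have h1 := congrArg (fun x => MonoidAlgebra.lift ℚ (Module.End ℚ V) G ρ x v) h
  simp only [map_one, map_sum, map_mul, LinearMap.sum_apply, Module.End.one_apply,
    Module.End.mul_apply, lift_nEl, h0, map_zero, Finset.sum_const_zero] at h1
  exact h1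

/-- **General norm relations.** -/
theorem tq_rel [Fintype (F ≃ₐ[ℚ] F)] {ι : Type} (H : ι → Subgroup (F ≃ₐ[ℚ] F))
    (hrel : ∃ (n : ℕ) (a b : Fin n → MonoidAlgebra ℚ (F ≃ₐ[ℚ] F)) (s : Fin n → ι),
      (1 : MonoidAlgebra ℚ (F ≃ₐ[ℚ] F)) = ∑ j, a j * nEl (H (s j)) * b j)
    (h : ∀ i, TQ p E (HD e (H i))) : TQ p E (HF e) := fun x =>
  zero_of_rel (rho p (phi e E)) H hrel (fun i v => tq_nrm e (H i) (h i) v) x

end Pool.Agent.X307.NR
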