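import Pool.Agent.X307.NR.Tr

/-!
# Traces, permutation characters twisted by signs, and fixed vectors
-/

set_option autoImplicit false
set_option maxHeartbeats 400000

namespace Pool.Agent.X307.NR

open Finset

variable {k : Type} [Field k] [CharZero k] {G : Type} [Group G] [Fintype G]
  {V : Type} [AddCommGroup V] [Module k V] [Module.Finite k V] (τ : G →* Module.End k V)

/-- the twist of a representation by a sign -/
noncomputable def tws (χ : G →* ℤ) : G →* Module.End k V where
  toFun g := χ g • τ g
  map_one' := by rw [map_one, map_one, one_smul]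
  map_mul' g h := by
    rw [map_mul, map_mul, smul_mul_smul_comm]

omit [CharZero k] [Fintype G] [Module.Finite k V] in
lemma chr_tws (χ : G →* ℤ) (g : G) : chr (tws τ χ) g = (χ g : k) * chr τ g := by
  unfold chr
  change LinearMap.trace k V (χ g • τ g) = _
  rw [map_zsmul, zsmul_eq_mul]

/-- a relation between twisted permutation characters gives a relation between dimensions -/
theorem brauerx {J : Type} [Fintype J] (D : J → Subgroup G) (χ : J → (G →* ℤ)) (m : J → ℤ)
    (hm : ∀ g : G, ∑ j, m j * (χ j g * (Nat.card {q : G ⧸ D j // g • q = q} : ℤ)) = 0)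
    (d : J → ℕ)
    (hd : ∀ j, ∃ (V' : Type) (_ : AddCommGroup V') (_ : Module k V') (_ : Module.Finite k V')
      (r : V' →ₗ[k] V) (c : V →ₗ[k] V'), (∀ x, c (r x) = Nat.card (D j) • x) ∧
      (∀ x, r (c x) = (open Classical in ∑ g : G with g ∈ D j, χ j g • τ g x)) ∧
      Module.finrank k V' = d j) : ∑ j, m j * (d j : ℤ) = 0 := by
  classical
  have h1 : ∀ j, ∑ g : G, chr (tws τ (χ j)) g *
      ((Nat.card {q : G ⧸ D j // g • q = q} : ℕ) : k) =
      ((Nat.card G : ℕ) : k) * (d j : k) := by
    intro j
    obtain ⟨V', i1, i2, i3, r, c, e1, e2, e3⟩ := hd j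
    have e4 := trace_norm (tws τ (χ j)) (D := D j) r c e1 (fun x => by
      rw [e2 x]
      rfl)
    rw [sum_chr (tws τ (χ j)) (D j) e4, e3, ← mul_assoc]
    congr 1
    have := Subgroup.card_eq_card_quotient_mul_card_subgroup (D j)
    rw [this]
    push_cast
    rfl
  have h2 : ((Nat.card G : ℕ) : k) * ∑ j, (m j : k) * (d j : k) = 0 := by
    rw [Finset.mul_sum]
    have h3 : ∀ j, ((Nat.card G : ℕ) : k) * ((m j : k) * (d j : k)) =
        ∑ g : G, chr τ g * ((m j : k) * ((χ j g : k) *
          ((Nat.card {q : G ⧸ D j // g • q = q} : ℕ) : k))) := by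
      intro j
      rw [mul_left_comm, ← h1 j, Finset.mul_sum]
      refine Finset.sum_congr rfl fun g _ => ?_
      rw [chr_tws]
      ring
    rw [Finset.sum_congr rfl fun j _ => h3 j, Finset.sum_comm]
    refine Finset.sum_eq_zero fun g _ => ?_
    rw [← Finset.mul_sum]
    have h4 : ∑ j, (m j : k) * ((χ j g : k) *
        ((Nat.card {q : G ⧸ D j // g • q = q} : ℕ) : k)) = 0 := by
      have h5 := congrArg (Int.cast : ℤ → k) (hm g)
      push_cast at h5
      exact h5
    rw [h4, mul_zero]
  have h6 : ((Nat.card G : ℕ) : k) ≠ 0 := by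
    exact_mod_cast Nat.card_pos.ne'
  have h7 := (mul_eq_zero.1 h2).resolve_left h6
  have h8 : ((∑ j, m j * (d j : ℤ) : ℤ) : k) = 0 := by
    push_cast
    exact h7
  exact_mod_cast h8

end Pool.Agent.X307.NR
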