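import Pool.Agent.X307.NR.Cor
import Pool.Agent.X307.SelT
import Pool.Agent.Y682.Rst

/-!
# The Tate-Shafarevich group over a number field as a group of classes of a subgroup of `Gal ℚ`
-/

set_option autoImplicit false
set_option linter.unusedSectionVars false

attribute [-instance] DivisionRing.toRatAlgebra

namespace Pool.Agent.X307.NR

open WeierstrassCurve NumberField IsDedekindDomain

open Pool.Agent.TH841.NF

open Pool.Agent.Y682 (HF mem_HF em rs rs_add rs_act rs_coc pth exists_prime_mem exists_real_hom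
  tr_rs cQ_cF)

open Pool.Agent.TH841.SH.D (Pt act Gal Coch IsCoc IsCob LocTriv cob)

variable {F : Type} [Field F] [NumberField F] [Algebra ℚ F] {E : WeierstrassCurve ℚ}
  {W : WeierstrassCurve F} (hW : Sc (algebraMap ℚ F) 1 E W) (e : AlgebraicClosure F ≃+* Qb)

/-! ### From `F` to `ℚ` -/

lemma tr_isZ {f : Coch W} (hf : Pool.Agent.TH841.NF.D.IsShaCoc W f) :
    IsZ E (HF e) (tr hW e f) where
  mul := fun x hx y hy => tr_coc hW e hf.1 hx hy
  fin := by
    classical
    obtain ⟨S, hS⟩ := coc_fin hf.1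
    refine ⟨S.image e, fun g hg hx => ?_⟩
    unfold tr
    rw [hS, map_zero]
    intro x hxS
    apply e.injective
    rw [e_cF e hg]
    exact hx _ (Finset.mem_image_of_mem _ hxS)
  pad := fun p _ i j => emb_p hW e hf p j
  rl := fun i j => emb_r hW e hf j

/-- the homomorphism on the cocycles -/
noncomputable def trC : Pool.Agent.TH841.NF.D.shaCoc W →+ ZH E (HF e) where
  toFun f := ⟨tr hW e f.1, tr_isZ hW e f.2⟩
  map_zero' := by
    apply Subtype.ext
    have h := tr_add hW e 0 0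
    rw [add_zero] at h
    exact left_eq_add.1 h
  map_add' f g := Subtype.ext (tr_add hW e f.1 g.1)

/-- the homomorphism on the classes -/
noncomputable def trS : Pool.Agent.TH841.NF.D.Sha W →+ QH E (HF e) :=
  QuotientAddGroup.map ((cob W).addSubgroupOf (Pool.Agent.TH841.NF.D.shaCoc W))
    ((BH E (HF e)).addSubgroupOf (ZH E (HF e)))
    (trC hW e) (fun _ hf => by
      obtain ⟨P, hP⟩ := hf
      exact ⟨_, fun g hg => tr_cob hW e hP hg⟩)

/-! ### From `ℚ` to `F` -/

lemma cQ_mem (σ : Gal F) : cQ e σ ∈ HF e := cQ_fx e σ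

lemma cQ_mul (σ τ : Gal F) : cQ e (σ * τ) = cQ e σ * cQ e τ := by
  refine AlgEquiv.ext fun x => ?_
  change e ((σ * τ) (e.symm x)) = e (σ (e.symm (e (τ (e.symm x)))))
  rw [RingEquiv.symm_apply_apply]
  rfl

lemma rsH_coc {f : Coch E} (hf : IsZ E (HF e) f) : IsCoc W (rs hW e f) := by
  classical
  obtain ⟨S, hS⟩ := hf.fin
  refine coc_of_fin ?_ (S.image e.symm) ?_
  · intro σ τ
    unfold rs
    rw [cQ_mul e, hf.mul _ (cQ_mem e σ) _ (cQ_mem e τ), map_add]
    congr 1
    exact rs_act hW e σ _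
  · intro σ hσ
    unfold rs
    rw [hS _ (cQ_mem e σ), map_zero]
    intro x hx
    change e (σ (e.symm x)) = x
    rw [hσ _ (Finset.mem_image_of_mem _ hx), RingEquiv.apply_symm_apply]

lemma rsH_loc {K : Type} [Field K] {iK : Algebra ℚ K} {Fv : Type} [Field Fv] [Algebra F Fv]
    (θ : K →+* Fv) {f : Coch E} (hf : EmbH E (HF e) K f) : LocTriv W Fv (rs hW e f) := by
  intro ι
  let i1 : Algebra K (AlgebraicClosure Fv) := ((algebraMap Fv (AlgebraicClosure Fv)).comp θ).toAlgebra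
  let θ' : AlgebraicClosure K →ₐ[K] AlgebraicClosure Fv := IsAlgClosed.lift
  have hθ' : ∀ y : K, θ' (algebraMap K _ y) = algebraMap Fv _ (θ y) := fun y => θ'.commutes y
  let ι₀ : Qb →ₐ[ℚ] AlgebraicClosure K := IsAlgClosed.lift
  obtain ⟨h₀, hh₀⟩ := aut_of_two
    ((θ' : AlgebraicClosure K →+* AlgebraicClosure Fv).comp (ι₀ : Qb →+* AlgebraicClosure K))
    ((ι : AlgebraicClosure F →+* AlgebraicClosure Fv).comp
      (e.symm : Qb →+* AlgebraicClosure F)) (fun x => DFunLike.congr_fun (Subsingleton.elim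
        (((θ' : AlgebraicClosure K →+* AlgebraicClosure Fv).comp
          (ι₀ : Qb →+* AlgebraicClosure K)).comp (algebraMap ℚ Qb))
        (((ι : AlgebraicClosure F →+* AlgebraicClosure Fv).comp
      (e.symm : Qb →+* AlgebraicClosure F)).comp (algebraMap ℚ Qb))) x)
  let ι₁ : Qb →ₐ[ℚ] AlgebraicClosure K := ι₀.comp h₀.toAlgHom
  have hι : ∀ x, ι (e.symm x) = θ' (ι₁ x) := hh₀
  obtain ⟨P₀, hP₀⟩ := hf ι₁
  have S1 : Sc (θ' : AlgebraicClosure K →+* AlgebraicClosure Fv) 1
    (E.baseChange (AlgebraicClosure K)) (W.baseChange (AlgebraicClosure Fv)) := sc_any' hW _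
  refine ⟨tm S1 P₀, fun τ σ hτ => ?_⟩
  obtain ⟨τ₀, hτ₀⟩ := aut_of_two (θ' : AlgebraicClosure K →+* AlgebraicClosure Fv)
    (((τ : AlgebraicClosure Fv ≃+* AlgebraicClosure Fv) : AlgebraicClosure Fv →+*
      AlgebraicClosure Fv).comp (θ' : AlgebraicClosure K →+* AlgebraicClosure Fv)) (by
      intro y
      change θ' (algebraMap K _ y) = τ (θ' (algebraMap K _ y))
      rw [hθ', AlgEquiv.commutes])
  have hτ2 : ∀ x, τ (θ' x) = θ' (τ₀ x) := hτ₀
  have hcomp : ∀ x, τ₀ (ι₁ x) = ι₁ (cQ e σ x) := by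
    intro x
    apply (θ' : AlgebraicClosure K →+* AlgebraicClosure Fv).injective
    change θ' (τ₀ (ι₁ x)) = θ' (ι₁ (cQ e σ x))
    rw [← hτ2, ← hι, hτ, ← hι]
    change _ = ι (e.symm (e (σ (e.symm x))))
    rw [RingEquiv.symm_apply_apply]
  have h1 := hP₀ τ₀ (cQ e σ) (cQ_mem e σ) (AlgHom.ext hcomp)
  have S2 : Sc ((ι : AlgebraicClosure F →+* AlgebraicClosure Fv).comp
      (e.symm : Qb →+* AlgebraicClosure F)) 1
    (E.baseChange Qb) (W.baseChange (AlgebraicClosure Fv)) := sc_any' hW _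
  have h2 : act W ι (rs hW e f σ) = tm S2 (f (cQ e σ)) :=
    tm_act _ ι S2 (fun x => rfl) (map_one ι).symm _
  have h3 : tm S2 (f (cQ e σ)) = tm S1 (act E ι₁ (f (cQ e σ))) :=
    (act_tm ι₁ S1 S2 (fun x => (hι x).symm) _).symm
  rw [h2, h3, h1, map_sub]
  congr 1
  have S3 : Sc (((τ : AlgebraicClosure Fv ≃+* AlgebraicClosure Fv) : AlgebraicClosure Fv →+*
      AlgebraicClosure Fv).comp (θ' : AlgebraicClosure K →+* AlgebraicClosure Fv)) 1
      (E.baseChange (AlgebraicClosure K)) (W.baseChange (AlgebraicClosure Fv)) := sc_any' hW _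
  have h4 : tm S1 (act E (τ₀.toAlgHom.restrictScalars ℚ) P₀) = tm S3 P₀ :=
    act_tm _ S1 S3 (fun x => (hτ2 x).symm) _
  have h5 : act W (τ.toAlgHom.restrictScalars F) (tm S1 P₀) = tm S3 P₀ :=
    tm_act _ (τ.toAlgHom.restrictScalars F) S3 (fun x => rfl) (map_one _).symm _
  refine Eq.trans ?_ h5.symm
  exact h4

lemma rsH_sha {f : Coch E} (hf : IsZ E (HF e) f) :
    Pool.Agent.TH841.NF.D.IsShaCoc W (rs hW e f) := by
  refine ⟨rsH_coc hW e hf, fun v => ?_, fun v => ?_⟩
  · obtain ⟨p, hp, hpv⟩ := exists_prime_mem v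
    have : Fact p.Prime := ⟨hp⟩
    exact rsH_loc hW e (pth hpv) (hf.pad p (Rat.castHom ℚ_[p]).toAlgebra)
  · obtain ⟨θ⟩ := exists_real_hom v
    exact rsH_loc hW e θ (hf.rl (Rat.castHom ℝ).toAlgebra)

/-- the homomorphism on the cocycles -/
noncomputable def rsHC : ZH E (HF e) →+ Pool.Agent.TH841.NF.D.shaCoc W where
  toFun f := ⟨rs hW e f.1, rsH_sha hW e f.2⟩
  map_zero' := by
    apply Subtype.ext
    have h := rs_add hW e 0 0
    rw [add_zero] at h
    exact left_eq_add.1 h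
  map_add' f g := Subtype.ext (rs_add hW e f.1 g.1)

/-- the homomorphism on the classes -/
noncomputable def rsHS : QH E (HF e) →+ Pool.Agent.TH841.NF.D.Sha W :=
  QuotientAddGroup.map ((BH E (HF e)).addSubgroupOf (ZH E (HF e)))
    ((cob W).addSubgroupOf (Pool.Agent.TH841.NF.D.shaCoc W))
    (rsHC hW e) (fun f hf => by
      obtain ⟨P, hP⟩ := hf
      refine ⟨tm (sc_any' hW (e.symm : Qb →+* AlgebraicClosure F)) P, fun σ => ?_⟩
      change rs hW e f.1 σ = _
      unfold rs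
      have h1 : f.1 (cQ e σ) = aG E (cQ e σ) P - P := hP (cQ e σ) (cQ_mem e σ)
      rw [h1, map_sub]
      congr 1
      exact rs_act hW e σ P)

lemma trS_rsHS (x : QH E (HF e)) : trS hW e (rsHS hW e x) = x := by
  obtain ⟨f, hf, rfl⟩ := cls_surj x
  have h1 : trS hW e (rsHS hW e (cls f hf)) =
    cls (tr hW e (rs hW e f)) (tr_isZ hW e (rsH_sha hW e hf)) := rfl
  rw [h1, cls_eq]
  refine ⟨0, fun g hg => ?_⟩
  rw [tr_rs hW e f hg, map_zero, sub_self, sub_self]

lemma rs_tr (f : Coch W) (σ : Gal F) : rs hW e (tr hW e f) σ = f σ := by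
  unfold tr rs
  have S'' : Sc (RingHom.id (AlgebraicClosure F)) 1 (W.baseChange (AlgebraicClosure F))
      (W.baseChange (AlgebraicClosure F)) := by
    refine ⟨one_ne_zero, ?_, ?_, ?_, ?_, ?_⟩ <;> simp
  rw [tm_tm _ _ S'' (fun x => e.symm_apply_apply x), tm_id S'' (fun x => rfl) rfl, cF_cQ e]
  rw [map_one, mul_one]

lemma rsHS_trS (x : Pool.Agent.TH841.NF.D.Sha W) : rsHS hW e (trS hW e x) = x := by
  induction x using QuotientAddGroup.induction_on with
  | H f =>
    have h1 : rsHC hW e (trC hW e f) = f :=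
      Subtype.ext (funext fun σ => rs_tr hW e f.1 σ)
    change (QuotientAddGroup.mk (rsHC hW e (trC hW e f)) : Pool.Agent.TH841.NF.D.Sha W) = _
    rw [h1]

/-- The Tate-Shafarevich group over `F`. -/
noncomputable def shaEquiv : Pool.Agent.TH841.NF.D.Sha W ≃+ QH E (HF e) where
  toFun := trS hW e
  invFun := rsHS hW e
  left_inv := rsHS_trS hW e
  right_inv := trS_rsHS hW e
  map_add' := map_add _

end Pool.Agent.X307.NR
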