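import Pool.Agent.X307.NR.TwM

/-!
# Norm relations with quadratic twists for the Abel–Jacobi maps, II
-/

set_option autoImplicit false
set_option linter.unusedSectionVars false
set_option maxHeartbeats 400000
set_option backward.isDefEq.respectTransparency.types true

namespace Pool.Agent.X307.NR

open WeierstrassCurve NumberField Module

open Pool.Agent.TH841.NF Pool.Agent.X307

open Pool.Agent.Y682 (HF mem_HF em exists_ext)

attribute [local instance] vq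

lemma disc_tw {A B d : ℚ} (h : 4 * A ^ 3 + 27 * B ^ 2 ≠ 0) (hd : d ≠ 0) :
    4 * (d ^ 2 * A) ^ 3 + 27 * (d ^ 3 * B) ^ 2 ≠ 0 := by
  have h1 : 4 * (d ^ 2 * A) ^ 3 + 27 * (d ^ 3 * B) ^ 2 = d ^ 6 * (4 * A ^ 3 + 27 * B ^ 2) := by
    ring
  rw [h1]
  exact mul_ne_zero (pow_ne_zero 6 hd) h

section

variable {p : ℕ} [hp : Fact p.Prime] {A B : ℚ} {F : Type} [Field F] [NumberField F]

lemma sq_ne {x : F} {d : ℚ} (hx : x ^ 2 = (d : F)) (h0 : x ≠ 0) : d ≠ 0 := by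
  rintro rfl
  rw [Rat.cast_zero] at hx
  exact h0 (pow_eq_zero_iff two_ne_zero |>.1 hx)

lemma sq_inv {x : F} {d : ℚ} (hx : x ^ 2 = (d : F)) : x⁻¹ ^ 2 = ((d⁻¹ : ℚ) : F) := by
  rw [inv_pow, hx, Rat.cast_inv]

/-- the twists over a field which contains the square root -/
theorem aj_tw (h : 4 * A ^ 3 + 27 * B ^ 2 ≠ 0) {x : F} {d : ℚ} (hx : x ^ 2 = (d : F))
    (h0 : x ≠ 0) : AJIso p (Ec A B F) ↔ AJIso p (Ec (d ^ 2 * A) (d ^ 3 * B) F) := by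
  have hd := sq_ne hx h0
  obtain ⟨e⟩ := exists_e F
  rw [aj_iff h, aj_iff (disc_tw h hd), tz_iff e (sc_Ec A B F),
    tz_iff e (sc_Ec (d ^ 2 * A) (d ^ 3 * B) F)]
  have hx' : x ^ 2 = algebraMap ℚ F d := by rw [hx, eq_ratCast]
  have hy' : x⁻¹ ^ 2 = algebraMap ℚ F d⁻¹ := by rw [sq_inv hx, eq_ratCast]
  exact ⟨tq_tw e (twD_ec' A B hd) (twD_ec A B) hy' (inv_ne_zero h0) hx' h0
      (inv_mul_cancel₀ h0),
    tq_tw e (twD_ec A B) (twD_ec' A B hd) hx' h0 hy' (inv_ne_zero h0) (mul_inv_cancel₀ h0)⟩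

/-- **Norm relations with twists.** -/
theorem aj_relx (h : 4 * A ^ 3 + 27 * B ^ 2 ≠ 0) (F : Type) [Field F] [NumberField F]
    [Fintype (F ≃ₐ[ℚ] F)] (H : Subgroup (F ≃ₐ[ℚ] F)) {ι : Type} (U : ι → Subgroup (F ≃ₐ[ℚ] F))
    (x : ι → F) (d : ι → ℚ) (hx : ∀ i, x i ^ 2 = (d i : F)) (h0 : ∀ i, x i ≠ 0)
    (hrel : ∃ (n : ℕ) (a b : Fin n → MonoidAlgebra ℚ (F ≃ₐ[ℚ] F)) (s : Fin n → ι),
      nEl H = ∑ j, a j * nElx (x (s j)) (U (s j)) * b j)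
    (hU : ∀ i, AJIso p (Ec (d i ^ 2 * A) (d i ^ 3 * B) (IntermediateField.fixedField (U i)))) :
    AJIso p (Ec A B (IntermediateField.fixedField H)) := by
  obtain ⟨e⟩ := exists_e F
  rw [aj_iff h, tz_fixedField e H]
  refine tq_of_nrm e H (nrm_of_relx (rho p (phi e _)) H x U hrel fun i v => ?_)
  have hd := sq_ne (hx i) (h0 i)
  have hx' : x i ^ 2 = algebraMap ℚ F (d i) := by rw [hx i, eq_ratCast]
  have hy' : (x i)⁻¹ ^ 2 = algebraMap ℚ F (d i)⁻¹ := by rw [sq_inv (hx i), eq_ratCast]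
  exact tq_nrmx e (twD_ec A B) (twD_ec' A B hd) hx' (h0 i) hy' (inv_ne_zero (h0 i))
    (mul_inv_cancel₀ (h0 i)) (U i)
    ((tz_fixedField e (U i)).1 ((aj_iff (disc_tw h hd) _).1 (hU i))) v

/-- involutions which move a square root of a rational number -/
theorem aj_invol (h : 4 * A ^ 3 + 27 * B ^ 2 ≠ 0) {x : F} {d : ℚ} (hx : x ^ 2 = (d : F))
    {σ : F ≃ₐ[ℚ] F} (hσ : orderOf σ = 2) (hσx : σ x ≠ x)
    (h1 : AJIso p (Ec A B (IntermediateField.fixedField (Subgroup.zpowers σ))))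
    (h2 : AJIso p (Ec (d ^ 2 * A) (d ^ 3 * B)
      (IntermediateField.fixedField (Subgroup.zpowers σ)))) : AJIso p (Ec A B F) := by
  have h0 : x ≠ 0 := by
    rintro rfl
    exact hσx (map_zero σ)
  have hd := sq_ne hx h0
  obtain ⟨e⟩ := exists_e F
  have : Fintype (F ≃ₐ[ℚ] F) := Fintype.ofFinite _
  have hx' : x ^ 2 = algebraMap ℚ F d := by rw [hx, eq_ratCast]
  have hy' : x⁻¹ ^ 2 = algebraMap ℚ F d⁻¹ := by rw [sq_inv hx, eq_ratCast]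
  rw [aj_iff h, tz_iff e (sc_Ec A B F)]
  exact tq_invol e (twD_ec A B) (twD_ec' A B hd) hx' h0 hy' (inv_ne_zero h0)
    (mul_inv_cancel₀ h0) hσ hσx ((tz_fixedField e _).1 ((aj_iff h _).1 h1))
    ((tz_fixedField e _).1 ((aj_iff (disc_tw h hd) _).1 h2))

end

end Pool.Agent.X307.NR
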