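import Pool.Agent.X307.NR.TwA
import Pool.Agent.X307.NR.TrX

/-!
# Brauer relations with quadratic twists
-/

set_option autoImplicit false
set_option linter.unusedSectionVars false
set_option maxHeartbeats 400000
set_option backward.isDefEq.respectTransparency.types true

namespace Pool.Agent.X307.NR

open WeierstrassCurve NumberField Module

open Pool.Agent.TH841.NF Pool.Agent.X307

open Pool.Agent.Y682 (HF mem_HF em exists_ext)

/-- the sign as a homomorphism -/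
noncomputable def sgH {F : Type} [Field F] [CharZero F] {x : F} {d : ℚ} (hx : x ^ 2 = (d : F))
    (h0 : x ≠ 0) : (F ≃ₐ[ℚ] F) →* ℤ where
  toFun g := sg x g
  map_one' := by
    unfold sg
    exact if_pos rfl
  map_mul' g h := by
    have hx' : x ^ 2 = algebraMap ℚ F d := by rw [hx, eq_ratCast]
    have hne : -x ≠ x := by
      intro h1
      have h2 : (2 : F) * x = 0 := by
        linear_combination -h1
      rcases mul_eq_zero.1 h2 with h3 | h3
      · exact two_ne_zero h3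
      · exact h0 h3
    have key : ∀ (c : ℤ) (g : F ≃ₐ[ℚ] F), (c = 1 ∧ g x = x) ∨ (c = -1 ∧ g x = -x) →
        sg x g = c := by
      rintro c g (⟨rfl, h1⟩ | ⟨rfl, h1⟩)
      · unfold sg
        rw [if_pos h1]
      · unfold sg
        rw [if_neg (by rw [h1]; exact hne)]
    apply key
    have hmul : (g * h) x = g (h x) := rfl
    rcases sg_cases hx' g with ⟨a1, a2⟩ | ⟨a1, a2⟩ <;>
    rcases sg_cases hx' h with ⟨b1, b2⟩ | ⟨b1, b2⟩
    · left
      rw [hmul, a1, b1, b2, a2]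
      exact ⟨rfl, rfl⟩
    · right
      rw [hmul, a1, b1, b2, map_neg, a2]
      exact ⟨rfl, rfl⟩
    · right
      rw [hmul, a1, b1, b2, a2]
      exact ⟨rfl, rfl⟩
    · left
      rw [hmul, a1, b1, b2, map_neg, a2, neg_neg]
      exact ⟨rfl, rfl⟩

variable {p : ℕ} [hp : Fact p.Prime] {A B : ℚ} {F : Type} [Field F] [NumberField F]

/-- the twist isomorphism and its inverse -/
lemma exists_tw (e : AlgebraicClosure F ≃+* Qb) {x : F} {d : ℚ} (hx : x ^ 2 = (d : F))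
    (h0 : x ≠ 0) : ∃ (f : QH (⟨0, 0, 0, A, B⟩ : WeierstrassCurve ℚ) (HF e) →+
      QH (⟨0, 0, 0, d ^ 2 * A, d ^ 3 * B⟩ : WeierstrassCurve ℚ) (HF e))
      (g : QH (⟨0, 0, 0, d ^ 2 * A, d ^ 3 * B⟩ : WeierstrassCurve ℚ) (HF e) →+
      QH (⟨0, 0, 0, A, B⟩ : WeierstrassCurve ℚ) (HF e)),
      (∀ a, g (f a) = a) ∧ (∀ a, f (g a) = a) ∧
      ∀ (γ : F ≃ₐ[ℚ] F) (a), f (phi e _ γ a) = sg x γ • phi e _ γ (f a) := by
  have hd := sq_ne hx h0
  have hx' : x ^ 2 = algebraMap ℚ F d := by rw [hx, eq_ratCast]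
  have hy' : x⁻¹ ^ 2 = algebraMap ℚ F d⁻¹ := by rw [sq_inv hx, eq_ratCast]
  refine ⟨thx e (twD_ec A B) hx' h0, thx e (twD_ec' A B hd) hy' (inv_ne_zero h0), fun a => ?_,
    fun a => ?_, thx_phi e (twD_ec A B) hx' h0⟩
  · exact thS_thS (twD_ec A B) (em_sq e hx') (em_ne e h0) (twD_ec' A B hd) (em_sq e hy')
      (em_ne e (inv_ne_zero h0)) (by rw [← map_mul, mul_inv_cancel₀ h0, map_one])
      (em_fix e x) (em_fix e x⁻¹) a
  · exact thS_thS (twD_ec' A B hd) (em_sq e hy') (em_ne e (inv_ne_zero h0)) (twD_ec A B)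
      (em_sq e hx') (em_ne e h0) (by rw [← map_mul, inv_mul_cancel₀ h0, map_one])
      (em_fix e x⁻¹) (em_fix e x) a

/-- finiteness for the twists -/
lemma fin_tw (hF : Module.Finite ℚ_[p] (V p (D.Sha (Ec A B F)))) {x : F} {d : ℚ}
    (hx : x ^ 2 = (d : F)) (h0 : x ≠ 0) :
    Module.Finite ℚ_[p] (V p (D.Sha (Ec (d ^ 2 * A) (d ^ 3 * B) F))) := by
  obtain ⟨e⟩ := exists_e F
  obtain ⟨f, g, h1, h2, -⟩ := exists_tw (A := A) (B := B) e hx h0
  have h3 : Module.Finite ℚ_[p] (V p (QH (⟨0, 0, 0, A, B⟩ : WeierstrassCurve ℚ) (HF e))) :=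
    Module.Finite.equiv (vEquiv (shaEquiv (sc_Ec A B F) e))
  have h4 : Module.Finite ℚ_[p]
      (V p (QH (⟨0, 0, 0, d ^ 2 * A, d ^ 3 * B⟩ : WeierstrassCurve ℚ) (HF e))) :=
    finite_of_comp g f one_ne_zero fun a => by rw [h2, one_smul]
  exact Module.Finite.equiv (vEquiv (shaEquiv (sc_Ec (d ^ 2 * A) (d ^ 3 * B) F) e)).symm

/-- **Brauer relations with twists.** -/
theorem sha_brauerx [Fintype (F ≃ₐ[ℚ] F)]
    (hF : Module.Finite ℚ_[p] (V p (D.Sha (Ec A B F)))) {J : Type} [Fintype J]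
    (H : J → Subgroup (F ≃ₐ[ℚ] F)) (x : J → F) (d : J → ℚ) (hx : ∀ j, x j ^ 2 = (d j : F))
    (h0 : ∀ j, x j ≠ 0) (m : J → ℤ)
    (hm : ∀ g : F ≃ₐ[ℚ] F, ∑ j, m j * (sg (x j) g *
      (Nat.card {q : (F ≃ₐ[ℚ] F) ⧸ H j // g • q = q} : ℤ)) = 0) :
    ∑ j, m j * (finrank ℚ_[p] (V p (D.Sha (Ec (d j ^ 2 * A) (d j ^ 3 * B)
      (IntermediateField.fixedField (H j))))) : ℤ) = 0 := by
  classical
  obtain ⟨e⟩ := exists_e F
  have h1 : Module.Finite ℚ_[p] (V p (QH (⟨0, 0, 0, A, B⟩ : WeierstrassCurve ℚ) (HF e))) :=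
    Module.Finite.equiv (vEquiv (shaEquiv (sc_Ec A B F) e))
  refine brauerx (repP p (phi e (⟨0, 0, 0, A, B⟩ : WeierstrassCurve ℚ))) H
    (fun j => sgH (hx j) (h0 j)) m hm _ fun j => ?_
  let E' : WeierstrassCurve ℚ := ⟨0, 0, 0, d j ^ 2 * A, d j ^ 3 * B⟩
  obtain ⟨f, g, k1, k2, k3⟩ := exists_tw (A := A) (B := B) e (hx j) (h0 j)
  have h3 : ∀ a, cores (open_HF e) (res (le_HD e (H j)) a) =
      Nat.card (H j) • (a : QH E' (HD e (H j))) := by
    intro a
    rw [cores_res (le_HD e (H j)) (open_HF e) a]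
    congr 1
    rw [← Nat.card_eq_fintype_card]
    exact Nat.card_congr (cosE e (H j))
  have h4 : ∀ a, ((cores (open_HF e)).comp f) ((g.comp (res (le_HD e (H j)))) a) =
      Nat.card (H j) • (a : QH E' (HD e (H j))) := by
    intro a
    change cores (open_HF e) (f (g (res (le_HD e (H j)) a))) = _
    rw [k2, h3]
  have h2 : Module.Finite ℚ_[p] (V p (QH E' (HD e (H j)))) :=
    finite_of_comp (g.comp (res (le_HD e (H j)))) ((cores (open_HF e)).comp f)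
      Nat.card_pos.ne' h4
  refine ⟨V p (QH E' (HD e (H j))), inferInstance, inferInstance, h2,
    V.map (g.comp (res (le_HD e (H j)))), V.map ((cores (open_HF e)).comp f),
    map_comp_nsmul _ _ h4, fun y => ?_, finrank_fixed e (H j)⟩
  apply v_ext
  intro n
  have : Fintype (H j) := Fintype.ofFinite _
  rw [map_sum, co_map, co_map]
  change g (res (le_HD e (H j)) (cores (open_HF e) (f (co _ n y)))) = _
  rw [res_cores_HD e E' (H j), map_sum]
  have h5 : ∀ γ : F ≃ₐ[ℚ] F, g (phi e E' γ (f (co _ n y))) =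
      sg (x j) γ • phi e _ γ (co _ n y) := by
    intro γ
    have h6 := congrArg g (k3 γ (co _ n y))
    rw [k1, map_zsmul] at h6
    rw [h6, smul_smul]
    have hx' : x j ^ 2 = algebraMap ℚ F (d j) := by rw [hx j, eq_ratCast]
    rcases sg_cases hx' γ with ⟨a1, _⟩ | ⟨a1, _⟩
    · rw [a1, mul_one, one_smul]
    · rw [a1, neg_mul_neg, mul_one, one_smul]
  have h7 : ∑ γ : F ≃ₐ[ℚ] F with γ ∈ H j, g (phi e E' γ (f (co _ n y))) =
      ∑ γ : H j, g (phi e E' (γ : F ≃ₐ[ℚ] F) (f (co _ n y))) :=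
    Finset.sum_subtype _ (fun γ => by simp) _
  rw [← h7]
  refine Finset.sum_congr rfl fun γ _ => ?_
  rw [h5, map_zsmul]
  rfl

/-- Brauer relations with twists for the defect -/
theorem defectx (h : 4 * A ^ 3 + 27 * B ^ 2 ≠ 0) [Fintype (F ≃ₐ[ℚ] F)]
    (hF : Module.Finite ℚ_[p] (H1f p (Ec A B F))) {J : Type} [Fintype J]
    (H : J → Subgroup (F ≃ₐ[ℚ] F)) (x : J → F) (d : J → ℚ) (hx : ∀ j, x j ^ 2 = (d j : F))
    (h0 : ∀ j, x j ≠ 0) (m : J → ℤ)
    (hm : ∀ g : F ≃ₐ[ℚ] F, ∑ j, m j * (sg (x j) g *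
      (Nat.card {q : (F ≃ₐ[ℚ] F) ⧸ H j // g • q = q} : ℤ)) = 0) :
    ∑ j, m j * ((finrank ℚ_[p] (H1f p (Ec (d j ^ 2 * A) (d j ^ 3 * B)
        (IntermediateField.fixedField (H j)))) : ℤ) -
      (finrank ℤ (Pool.Agent.TH841.SH.D.Pt (Ec (d j ^ 2 * A) (d j ^ 3 * B)
        (IntermediateField.fixedField (H j))) (IntermediateField.fixedField (H j))) : ℤ)) = 0 := by
  have hV := (h1f_iff (p := p) h F).1.1 hF
  refine Eq.trans ?_ (sha_brauerx hV H x d hx h0 m hm)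
  refine Finset.sum_congr rfl fun j _ => ?_
  exact congrArg (fun z => m j * z)
    (defect_eq (disc_tw h (sq_ne (hx j) (h0 j))) (IntermediateField.fixedField (H j))
      (fin_fixed (fin_tw hV (hx j) (h0 j)) (H j)))

end Pool.Agent.X307.NR
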