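import Pool.Agent.X307.NR.TwN

/-!
# Norm relations with quadratic twists for the Abel–Jacobi maps
-/

set_option autoImplicit false
set_option linter.unusedSectionVars false
set_option maxHeartbeats 400000
set_option backward.isDefEq.respectTransparency.types true

attribute [-instance] DivisionRing.toRatAlgebra

namespace Pool.Agent.X307.NR

open WeierstrassCurve NumberField Module

open Pool.Agent.TH841.NF Pool.Agent.X307

open Pool.Agent.Y682 (HF mem_HF em exists_ext)

attribute [local instance] vq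

section

variable {p : ℕ} [hp : Fact p.Prime] {F : Type} [Field F] [NumberField F] [Algebra ℚ F]
  (e : AlgebraicClosure F ≃+* Qb) {E E' : WeierstrassCurve ℚ}

/-- the Tate module over a fixed field vanishes if the norms vanish -/
lemma tq_of_nrm [Fintype (F ≃ₐ[ℚ] F)] (H : Subgroup (F ≃ₐ[ℚ] F))
    (h0 : ∀ v, Pool.Agent.X328.PB.nrm (rho p (phi e E)) H v = 0) : TQ p E (HD e H) := by
  classical
  intro x
  have h1 := h0 (V.map (res (le_HD e H)) x)
  have : Fintype H := Fintype.ofFinite H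
  have hcr : ∀ a : QH E (HD e H), cores (open_HF e) (res (le_HD e H) a) =
      Fintype.card (HD e H ⧸ (HF e).subgroupOf (HD e H)) • a :=
    cores_res (le_HD e H) (open_HF e)
  set m := Fintype.card (HD e H ⧸ (HF e).subgroupOf (HD e H)) with hm
  have hm0 : m ≠ 0 := Fintype.card_ne_zero
  have h2 : ∀ n, m • res (le_HD e H) (co (QH E (HD e H)) n x) = 0 := by
    intro n
    have h3 := congrArg (co (QH E (HF e)) n) h1
    rw [nrm_co, map_zero, co_map] at h3
    have h5 : ∑ g : F ≃ₐ[ℚ] F with g ∈ H, phi e E g (res (le_HD e H) (co (QH E (HD e H)) n x)) =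
        ∑ d : H, phi e E (d : F ≃ₐ[ℚ] F) (res (le_HD e H) (co (QH E (HD e H)) n x)) :=
      Finset.sum_subtype _ (fun g => by simp) _
    rw [h5, ← res_cores_HD e E H, hcr, map_nsmul] at h3
    exact h3
  have h4 : (m * m) • x = 0 := by
    apply v_ext
    intro n
    rw [map_nsmul, map_zero, mul_smul]
    calc m • (m • co (QH E (HD e H)) n x)
        = m • cores (open_HF e) (res (le_HD e H) (co (QH E (HD e H)) n x)) := by rw [hcr]
      _ = cores (open_HF e) (m • res (le_HD e H) (co (QH E (HD e H)) n x)) :=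
        (map_nsmul _ _ _).symm
      _ = 0 := by rw [h2, map_zero]
  exact nsmul_inj (mul_ne_zero hm0 hm0) h4

/-- an involution which moves a square root -/
lemma tq_invol {d d' : ℚ} (T : TwD E E' d) (T' : TwD E' E d') {x y : F}
    (hx : x ^ 2 = algebraMap ℚ F d) (h0 : x ≠ 0) (hy : y ^ 2 = algebraMap ℚ F d') (h0' : y ≠ 0)
    (hxy : x * y = 1) [Fintype (F ≃ₐ[ℚ] F)] {σ : F ≃ₐ[ℚ] F} (hσ : orderOf σ = 2)
    (hσx : σ x ≠ x) (h1 : TQ p E (HD e (Subgroup.zpowers σ)))
    (h2 : TQ p E' (HD e (Subgroup.zpowers σ))) : TQ p E (HF e) := by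
  intro v
  have h3 := Pool.Agent.X328.PB.involution_neg (rho p (phi e E)) hσ (tq_nrm e _ h1 v)
  have h4 := Pool.Agent.X328.PB.involution_neg (rho p (phi e E')) hσ
    (tq_nrm e _ h2 (V.map (thx e T hx h0) v))
  have hs : sg x σ = -1 := by
    rcases sg_cases hx σ with ⟨_, h⟩ | ⟨h, _⟩
    · exact absurd h hσx
    · exact h
  have h5 : (2 : ℕ) • v = 0 := by
    apply v_ext
    intro n
    rw [map_nsmul, map_zero]
    have h6 : phi e E σ (co (QH E (HF e)) n v) = -co (QH E (HF e)) n v := by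
      have := congrArg (co (QH E (HF e)) n) h3
      rw [map_neg] at this
      exact this
    have h7 : phi e E' σ (thx e T hx h0 (co (QH E (HF e)) n v)) =
        -thx e T hx h0 (co (QH E (HF e)) n v) := by
      have := congrArg (co (QH E' (HF e)) n) h4
      rw [map_neg, co_map] at this
      exact this
    refine thx_inj e T T' hx h0 hy h0' hxy ?_
    have h8 := thx_phi e T hx h0 σ (co (QH E (HF e)) n v)
    rw [h6, hs, h7, map_neg, smul_neg, neg_smul, one_smul, neg_neg] at h8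
    rw [map_nsmul, two_smul]
    exact eq_neg_iff_add_eq_zero.1 h8.symm
  exact nsmul_inj two_ne_zero h5

end

/-- the quadratic twist by `d` -/
lemma twD_ec (A B : ℚ) {d : ℚ} : TwD (⟨0, 0, 0, A, B⟩ : WeierstrassCurve ℚ)
    (⟨0, 0, 0, d ^ 2 * A, d ^ 3 * B⟩ : WeierstrassCurve ℚ) d where
  a1 := rfl
  a3 := rfl
  sc := by
    intro L L' _ _ _ _ φ u hu h0
    have key : ∀ x : ℚ, algebraMap ℚ L' x = φ (algebraMap ℚ L x) := fun x =>
      (rat_hom (φ.comp (algebraMap ℚ L)) x).symm
    refine ⟨h0, ?_, ?_, ?_, ?_, ?_⟩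
    · change algebraMap ℚ L' 0 = φ (algebraMap ℚ L 0) * u
      rw [map_zero, map_zero, map_zero, zero_mul]
    · change algebraMap ℚ L' 0 = φ (algebraMap ℚ L 0) * u ^ 2
      rw [map_zero, map_zero, map_zero, zero_mul]
    · change algebraMap ℚ L' 0 = φ (algebraMap ℚ L 0) * u ^ 3
      rw [map_zero, map_zero, map_zero, zero_mul]
    · change algebraMap ℚ L' (d ^ 2 * A) = φ (algebraMap ℚ L A) * u ^ 4
      rw [map_mul, map_pow, ← hu, ← key]
      ring
    · change algebraMap ℚ L' (d ^ 3 * B) = φ (algebraMap ℚ L B) * u ^ 6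
      rw [map_mul, map_pow, ← hu, ← key]
      ring

lemma twD_ec' (A B : ℚ) {d : ℚ} (hd : d ≠ 0) :
    TwD (⟨0, 0, 0, d ^ 2 * A, d ^ 3 * B⟩ : WeierstrassCurve ℚ)
      (⟨0, 0, 0, A, B⟩ : WeierstrassCurve ℚ) d⁻¹ := by
  have h := twD_ec (d ^ 2 * A) (d ^ 3 * B) (d := d⁻¹)
  have h1 : d⁻¹ ^ 2 * (d ^ 2 * A) = A := by field_simp
  have h2 : d⁻¹ ^ 3 * (d ^ 3 * B) = B := by field_simp
  rwa [h1, h2] at h

end Pool.Agent.X307.NR
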