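import Pool.Agent.X307.NR.Tws

/-!
# Norm relations with quadratic twists
-/

set_option autoImplicit false
set_option linter.unusedSectionVars false
set_option maxHeartbeats 400000
set_option backward.isDefEq.respectTransparency.types true

attribute [-instance] DivisionRing.toRatAlgebra

namespace Pool.Agent.X307.NR

open WeierstrassCurve NumberField

open Pool.Agent.TH841.NF Pool.Agent.X307

open Pool.Agent.Y682 (HF mem_HF em exists_ext)

attribute [local instance] vq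

section abs

variable {F : Type} [Field F] [Algebra ℚ F]

open Classical in
/-- the sign of `g` on `x` -/
noncomputable def sg (x : F) (g : F ≃ₐ[ℚ] F) : ℤ := if g x = x then 1 else -1

open Classical in
/-- the twisted norm element -/
noncomputable def nElx [Fintype (F ≃ₐ[ℚ] F)] (x : F) (U : Subgroup (F ≃ₐ[ℚ] F)) :
    MonoidAlgebra ℚ (F ≃ₐ[ℚ] F) :=
  ∑ g : F ≃ₐ[ℚ] F with g ∈ U, MonoidAlgebra.single g (if g x = x then 1 else -1)

lemma sg_cases {x : F} {d : ℚ} (hx : x ^ 2 = algebraMap ℚ F d) (g : F ≃ₐ[ℚ] F) :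
    (sg x g = 1 ∧ g x = x) ∨ (sg x g = -1 ∧ g x = -x) := by
  classical
  unfold sg
  by_cases h : g x = x
  · left
    rw [if_pos h]
    exact ⟨rfl, h⟩
  · right
    rw [if_neg h]
    refine ⟨rfl, ?_⟩
    have h1 : (g x) ^ 2 = x ^ 2 := by rw [← map_pow, hx, AlgEquiv.commutes]
    rcases sq_eq_sq_iff_eq_or_eq_neg.1 h1 with h2 | h2
    · exact absurd h2 h
    · exact h2

lemma lift_nElx [Fintype (F ≃ₐ[ℚ] F)] {V : Type} [AddCommGroup V] [Module ℚ V]
    (ρ : (F ≃ₐ[ℚ] F) →* Module.End ℚ V) (x : F) (U : Subgroup (F ≃ₐ[ℚ] F)) (v : V) :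
    MonoidAlgebra.lift ℚ (Module.End ℚ V) (F ≃ₐ[ℚ] F) ρ (nElx x U) v =
      open Classical in ∑ g : F ≃ₐ[ℚ] F with g ∈ U, sg x g • ρ g v := by
  classical
  unfold nElx
  rw [map_sum, LinearMap.sum_apply]
  refine Finset.sum_congr rfl fun g _ => ?_
  rw [MonoidAlgebra.lift_single]
  unfold sg
  split_ifs
  · rw [one_smul, one_smul]
  · rw [neg_smul, one_smul, neg_smul, one_smul, LinearMap.neg_apply]

/-- a norm which is in the ideal of twisted norms -/
lemma nrm_of_relx [Fintype (F ≃ₐ[ℚ] F)] {V : Type} [AddCommGroup V] [Module ℚ V]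
    (ρ : (F ≃ₐ[ℚ] F) →* Module.End ℚ V) (H : Subgroup (F ≃ₐ[ℚ] F)) {ι : Type} (x : ι → F)
    (U : ι → Subgroup (F ≃ₐ[ℚ] F))
    (hrel : ∃ (n : ℕ) (a b : Fin n → MonoidAlgebra ℚ (F ≃ₐ[ℚ] F)) (s : Fin n → ι),
      nEl H = ∑ j, a j * nElx (x (s j)) (U (s j)) * b j)
    (h0 : ∀ i v, MonoidAlgebra.lift ℚ (Module.End ℚ V) (F ≃ₐ[ℚ] F) ρ (nElx (x i) (U i)) v = 0)
    (v : V) : Pool.Agent.X328.PB.nrm ρ H v = 0 := by
  obtain ⟨n, a, b, s, h⟩ := hrel
  rw [← lift_nEl, h]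
  simp only [map_sum, map_mul, LinearMap.sum_apply,
    Module.End.mul_apply, h0, map_zero, Finset.sum_const_zero]

end abs

variable {p : ℕ} [hp : Fact p.Prime] {F : Type} [Field F] [NumberField F] [Algebra ℚ F]
  (e : AlgebraicClosure F ≃+* Qb) {E E' : WeierstrassCurve ℚ} {d d' : ℚ}

lemma em_sq {x : F} (hx : x ^ 2 = algebraMap ℚ F d) : (em e x) ^ 2 = algebraMap ℚ Qb d := by
  rw [← map_pow, hx]
  exact rat_hom ((em e).comp (algebraMap ℚ F)) d

lemma em_ne {x : F} (h0 : x ≠ 0) : em e x ≠ 0 := fun h => h0 ((map_eq_zero (em e)).1 h)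

lemma em_fix (x : F) : ∀ g ∈ HF e, g (em e x) = em e x := fun _ hg => (mem_HF' e).1 hg x

/-- the map for `x` in `F` -/
noncomputable def thx (T : TwD E E' d) {x : F} (hx : x ^ 2 = algebraMap ℚ F d) (h0 : x ≠ 0) :
    QH E (HF e) →+ QH E' (HF e) := thS T (em_sq e hx) (em_ne e h0) (em_fix e x)

lemma thx_inj (T : TwD E E' d) (T' : TwD E' E d') {x y : F} (hx : x ^ 2 = algebraMap ℚ F d)
    (h0 : x ≠ 0) (hy : y ^ 2 = algebraMap ℚ F d') (h0' : y ≠ 0) (hxy : x * y = 1)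
    {a : QH E (HF e)} (h : thx e T hx h0 a = 0) : a = 0 := by
  have h1 := thS_thS T (em_sq e hx) (em_ne e h0) T' (em_sq e hy) (em_ne e h0')
    (by rw [← map_mul, hxy, map_one]) (em_fix e x) (em_fix e y) a
  have h2 : thS T (em_sq e hx) (em_ne e h0) (em_fix e x) a = 0 := h
  rw [h2, map_zero] at h1
  exact h1.symm

lemma thx_phi (T : TwD E E' d) {x : F} (hx : x ^ 2 = algebraMap ℚ F d) (h0 : x ≠ 0)
    (γ : F ≃ₐ[ℚ] F) (a : QH E (HF e)) :
    thx e T hx h0 (phi e E γ a) = sg x γ • phi e E' γ (thx e T hx h0 a) := by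
  have hl := lf_spec e γ
  rw [phi_eq e E hl, phi_eq e E' hl]
  rcases sg_cases hx γ with ⟨h1, h2⟩ | ⟨h1, h2⟩
  · rw [h1, one_smul]
    refine thS_cc T (em_sq e hx) (em_ne e h0) (em_fix e x) (lift_norm e hl) ?_ a
    rw [hl, h2]
  · rw [h1, neg_smul, one_smul]
    refine thS_cc_neg T (em_sq e hx) (em_ne e h0) (em_fix e x) (lift_norm e hl) ?_ a
    rw [hl, h2, map_neg]

/-- the twists have the same Tate module over `F` -/
lemma tq_tw (T : TwD E E' d) (T' : TwD E' E d') {x y : F} (hx : x ^ 2 = algebraMap ℚ F d)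
    (h0 : x ≠ 0) (hy : y ^ 2 = algebraMap ℚ F d') (h0' : y ≠ 0) (hxy : x * y = 1)
    (h : TQ p E' (HF e)) : TQ p E (HF e) := by
  intro v
  apply v_ext
  intro n
  rw [map_zero]
  refine thx_inj e T T' hx h0 hy h0' hxy ?_
  rw [← co_map, h (V.map (thx e T hx h0) v), map_zero]

/-- the twisted norm vanishes -/
lemma tq_nrmx [Fintype (F ≃ₐ[ℚ] F)] (T : TwD E E' d) (T' : TwD E' E d') {x y : F}
    (hx : x ^ 2 = algebraMap ℚ F d) (h0 : x ≠ 0) (hy : y ^ 2 = algebraMap ℚ F d') (h0' : y ≠ 0)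
    (hxy : x * y = 1) (U : Subgroup (F ≃ₐ[ℚ] F)) (h : TQ p E' (HD e U))
    (v : V p (QH E (HF e))) :
    MonoidAlgebra.lift ℚ (Module.End ℚ (V p (QH E (HF e)))) (F ≃ₐ[ℚ] F) (rho p (phi e E))
      (nElx x U) v = 0 := by
  classical
  rw [lift_nElx]
  apply v_ext
  intro n
  rw [map_sum, map_zero]
  refine thx_inj e T T' hx h0 hy h0' hxy ?_
  rw [map_sum]
  have h1 := congrArg (co (QH E' (HF e)) n) (tq_nrm e U h (V.map (thx e T hx h0) v))
  rw [nrm_co, map_zero, co_map] at h1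
  rw [← h1]
  refine Finset.sum_congr rfl fun g _ => ?_
  rw [map_zsmul, map_zsmul]
  have h2 : co (QH E (HF e)) n (rho p (phi e E) g v) = phi e E g (co (QH E (HF e)) n v) := rfl
  rw [h2, thx_phi e T hx h0 g, smul_smul]
  rcases sg_cases hx g with ⟨h3, _⟩ | ⟨h3, _⟩
  · rw [h3, mul_one, one_smul]
  · rw [h3, neg_mul_neg, mul_one, one_smul]

end Pool.Agent.X307.NR
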