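import Pool.Agent.X307.NR.Gen
import Pool.Agent.TH841.NF.Th2

/-!
# Quadratic twists
-/

set_option autoImplicit false
set_option linter.unusedSectionVars false
set_option maxHeartbeats 400000
set_option backward.isDefEq.respectTransparency.types true

attribute [-instance] DivisionRing.toRatAlgebra

namespace Pool.Agent.X307.NR

open WeierstrassCurve NumberField

open Pool.Agent.TH841.NF Pool.Agent.X307

open Pool.Agent.Y682 (HF mem_HF em exists_ext)

open Pool.Agent.TH841.SH.D (Pt act Gal Coch IsCoc IsCob LocTriv cob)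

/-- `E'` is the quadratic twist of `E` by `d` -/
structure TwD (E E' : WeierstrassCurve ℚ) (d : ℚ) : Prop where
  sc : ∀ {L L' : Type} [Field L] [Algebra ℚ L] [Field L'] [Algebra ℚ L'] (φ : L →+* L')
    {u : L'}, u ^ 2 = algebraMap ℚ L' d → u ≠ 0 → Sc φ u (E.baseChange L) (E'.baseChange L')
  a1 : E'.a₁ = 0
  a3 : E'.a₃ = 0

section loc

variable {E E' : WeierstrassCurve ℚ} {d : ℚ} (T : TwD E E' d)

lemma sq_hom {L L' : Type} [Field L] [Algebra ℚ L] [Field L'] [Algebra ℚ L'] (j : L →ₐ[ℚ] L')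
    {u : L} (hu : u ^ 2 = algebraMap ℚ L d) : (j u) ^ 2 = algebraMap ℚ L' d := by
  rw [← map_pow, hu, AlgHom.commutes]

lemma ne_hom {L L' : Type} [Field L] [Algebra ℚ L] [Field L'] [Algebra ℚ L'] (j : L →ₐ[ℚ] L')
    {u : L} (h0 : u ≠ 0) : j u ≠ 0 := by
  intro h
  exact h0 ((map_eq_zero j).1 h)

/-- the twisting isomorphism on points -/
noncomputable def th {L : Type} [Field L] [Algebra ℚ L] {u : L} (hu : u ^ 2 = algebraMap ℚ L d)
    (h0 : u ≠ 0) : Pt E L →+ Pt E' L := tm (T.sc (RingHom.id L) hu h0)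

lemma th_hom {L L' : Type} [Field L] [Algebra ℚ L] [Field L'] [Algebra ℚ L'] (j : L →ₐ[ℚ] L')
    {u : L} (hu : u ^ 2 = algebraMap ℚ L d) (h0 : u ≠ 0) (P : Pt E L) :
    act E' j (th T hu h0 P) = th T (sq_hom j hu) (ne_hom j h0) (act E j P) := by
  unfold th
  rw [tm_act (T.sc (RingHom.id L) hu h0) j (T.sc (j : L →+* L') (sq_hom j hu) (ne_hom j h0))
    (fun x => rfl) rfl P]
  exact (act_tm j (T.sc (RingHom.id L') (sq_hom j hu) (ne_hom j h0))
    (T.sc (j : L →+* L') (sq_hom j hu) (ne_hom j h0)) (fun x => rfl) P).symm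

lemma th_congr {L : Type} [Field L] [Algebra ℚ L] {u u' : L} (hu : u ^ 2 = algebraMap ℚ L d)
    (h0 : u ≠ 0) (hu' : u' ^ 2 = algebraMap ℚ L d) (h0' : u' ≠ 0) (h : u = u') (P : Pt E L) :
    th T hu h0 P = th T hu' h0' P := by
  subst h
  rfl

lemma th_neg {L : Type} [Field L] [Algebra ℚ L] {u u' : L} (hu : u ^ 2 = algebraMap ℚ L d)
    (h0 : u ≠ 0) (hu' : u' ^ 2 = algebraMap ℚ L d) (h0' : u' ≠ 0) (h : u = -u') (P : Pt E L) :
    th T hu h0 P = -th T hu' h0' P := by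
  unfold th
  refine tm_neg _ _ (fun x => rfl) h ?_ ?_ P
  · change algebraMap ℚ L E'.a₁ = 0
    rw [T.a1, map_zero]
  · change algebraMap ℚ L E'.a₃ = 0
    rw [T.a3, map_zero]

/-- the inverse -/
lemma th_th {d' : ℚ} (T' : TwD E' E d') {L : Type} [Field L] [Algebra ℚ L] {u v : L}
    (hu : u ^ 2 = algebraMap ℚ L d) (h0 : u ≠ 0) (hv : v ^ 2 = algebraMap ℚ L d') (h0' : v ≠ 0)
    (h : u * v = 1) (P : Pt E L) : th T' hv h0' (th T hu h0 P) = P := by
  unfold th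
  have S'' : Sc (RingHom.id L) 1 (E.baseChange L) (E.baseChange L) := by
    refine ⟨one_ne_zero, ?_, ?_, ?_, ?_, ?_⟩ <;> simp
  rw [tm_tm _ _ S'' (fun x => rfl) (by
    change 1 = u * v
    rw [h])]
  exact tm_id S'' (fun x => rfl) rfl P

end loc

section glob

variable {E E' : WeierstrassCurve ℚ} {d : ℚ} (T : TwD E E' d) {u : Qb}
  (hu : u ^ 2 = algebraMap ℚ Qb d) (h0 : u ≠ 0) {H : Subgroup (Gal ℚ)}

/-- the action -/
lemma th_aG {g : Gal ℚ} (hg : g u = u) (P : Pt E Qb) :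
    th T hu h0 (aG E g P) = aG E' g (th T hu h0 P) := by
  have h1 := th_hom T g.toAlgHom hu h0 P
  refine Eq.trans ?_ h1.symm
  exact th_congr T hu h0 (sq_hom g.toAlgHom hu) (ne_hom g.toAlgHom h0) hg.symm _

lemma th_aG_neg {g : Gal ℚ} (hg : g u = -u) (P : Pt E Qb) :
    th T hu h0 (aG E g P) = -aG E' g (th T hu h0 P) := by
  have h1 := th_hom T g.toAlgHom hu h0 P
  have h2 : aG E' g (th T hu h0 P) =
    th T (sq_hom g.toAlgHom hu) (ne_hom g.toAlgHom h0) (aG E g P) := h1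
  rw [h2]
  refine th_neg T hu h0 (sq_hom g.toAlgHom hu) (ne_hom g.toAlgHom h0) ?_ _
  change u = -(g u)
  rw [hg, neg_neg]

/-- the map on functions -/
noncomputable def thC : Coch E →+ Coch E' where
  toFun f := fun g => th T hu h0 (f g)
  map_zero' := by
    funext g
    exact map_zero _
  map_add' f f' := by
    funext g
    exact map_add _ _ _

lemma thC_apply (f : Coch E) (g : Gal ℚ) : thC T hu h0 f g = th T hu h0 (f g) := rfl

lemma thC_emb (hH : ∀ g ∈ H, g u = u) {K : Type} [Field K] [Algebra ℚ K] {f : Coch E}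
    (hf : EmbH E H K f) : EmbH E' H K (thC T hu h0 f) := by
  intro j
  obtain ⟨P, hP⟩ := hf j
  refine ⟨th T (sq_hom j hu) (ne_hom j h0) P, fun τ h hh hc => ?_⟩
  rw [thC_apply, th_hom T j hu h0, hP τ h hh hc, map_sub]
  congr 1
  have h1 := th_hom T (τ.toAlgHom.restrictScalars ℚ) (sq_hom j hu) (ne_hom j h0) P
  refine Eq.trans ?_ h1.symm
  refine th_congr T _ _ _ _ ?_ _
  have h2 := DFunLike.congr_fun hc u
  have h3 : j (h u) = j u := by rw [hH h hh]
  exact h3.symm.trans h2.symm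

lemma thC_isZ (hH : ∀ g ∈ H, g u = u) {f : Coch E} (hf : IsZ E H f) :
    IsZ E' H (thC T hu h0 f) where
  mul := fun x hx y hy => by
    rw [thC_apply, thC_apply, thC_apply, hf.mul x hx y hy, map_add, th_aG T hu h0 (hH x hx)]
  fin := by
    obtain ⟨S, hS⟩ := hf.fin
    refine ⟨S, fun g hg hx => ?_⟩
    rw [thC_apply, hS g hg hx, map_zero]
  pad := fun p _ i => thC_emb T hu h0 hH (hf.pad p i)
  rl := fun i => thC_emb T hu h0 hH (hf.rl i)

/-- the map on classes -/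
noncomputable def thS (hH : ∀ g ∈ H, g u = u) : QH E H →+ QH E' H :=
  QuotientAddGroup.map ((BH E H).addSubgroupOf (ZH E H)) ((BH E' H).addSubgroupOf (ZH E' H))
    { toFun := fun f => (⟨thC T hu h0 f.1, thC_isZ T hu h0 hH f.2⟩ : ZH E' H)
      map_zero' := Subtype.ext (map_zero (thC T hu h0))
      map_add' := fun f g => Subtype.ext (map_add (thC T hu h0) f.1 g.1) }
    (fun f hf => by
      obtain ⟨P, hP⟩ := hf
      refine ⟨th T hu h0 P, fun g hg => ?_⟩
      change th T hu h0 (f.1 g) = _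
      have h1 : f.1 g = aG E g P - P := hP g hg
      rw [h1, map_sub, th_aG T hu h0 (hH g hg)])

lemma thS_cls (hH : ∀ g ∈ H, g u = u) {f : Coch E} (hf : IsZ E H f) :
    thS T hu h0 hH (cls f hf) = cls (thC T hu h0 f) (thC_isZ T hu h0 hH hf) := rfl

lemma thS_thS {d' : ℚ} (T' : TwD E' E d') {v : Qb} (hv : v ^ 2 = algebraMap ℚ Qb d')
    (h0' : v ≠ 0) (h : u * v = 1) (hH : ∀ g ∈ H, g u = u) (hH' : ∀ g ∈ H, g v = v)
    (x : QH E H) : thS T' hv h0' hH' (thS T hu h0 hH x) = x := by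
  obtain ⟨f, hf, rfl⟩ := cls_surj x
  rw [thS_cls, thS_cls, cls_eq]
  refine ⟨0, fun g _ => ?_⟩
  rw [map_zero, sub_zero, sub_eq_zero, thC_apply, thC_apply, th_th T T' hu h0 hv h0' h]

lemma thS_cc (hH : ∀ g ∈ H, g u = u) {g : Gal ℚ} (hg : ∀ h ∈ H, g⁻¹ * h * g ∈ H) (hgu : g u = u)
    (x : QH E H) : thS T hu h0 hH (cc g hg x) = cc g hg (thS T hu h0 hH x) := by
  obtain ⟨f, hf, rfl⟩ := cls_surj x
  rw [cc_cls, thS_cls, thS_cls, cc_cls, cls_eq]
  refine ⟨0, fun h _ => ?_⟩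
  rw [map_zero, sub_zero, sub_eq_zero, thC_apply, cj_apply, cj_apply, thC_apply,
    th_aG T hu h0 hgu]

lemma thS_cc_neg (hH : ∀ g ∈ H, g u = u) {g : Gal ℚ} (hg : ∀ h ∈ H, g⁻¹ * h * g ∈ H)
    (hgu : g u = -u) (x : QH E H) :
    thS T hu h0 hH (cc g hg x) = -cc g hg (thS T hu h0 hH x) := by
  obtain ⟨f, hf, rfl⟩ := cls_surj x
  rw [eq_neg_iff_add_eq_zero, cc_cls, thS_cls, thS_cls, cc_cls, cls_add, cls_zero_iff]
  refine ⟨0, fun h _ => ?_⟩
  rw [map_zero, sub_zero]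
  change thC T hu h0 (cj E g f) h + cj E' g (thC T hu h0 f) h = 0
  rw [thC_apply, cj_apply, cj_apply, thC_apply, th_aG_neg T hu h0 hgu, neg_add_cancel]

end glob

end Pool.Agent.X307.NR
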